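import Pool.Agent.TH725.TS.Fin2

set_option autoImplicit false

/-! Statements with plain definitions. -/

namespace Pool.Agent.TH725.TS

open Finset Real Pool.Agent.W57.SW Pool.Agent.H379R2.W

/-- `n` fails the strong test for the base `b` -/
def IsW (n b : ℕ) : Prop :=
  ∀ j d : ℕ, n - 1 = 2 ^ j * d → Odd d →
    (b : ZMod n) ^ d ≠ 1 ∧ ∀ i : ℕ, i < j → (b : ZMod n) ^ (2 ^ i * d) ≠ -1

lemma isW_iff (n b : ℕ) : IsW n b ↔ ¬ Passes n b := by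
  unfold IsW Passes
  constructor
  · rintro h ⟨j, d, h1, h2, h3⟩
    obtain ⟨a, b⟩ := h j d h1 h2
    rcases h3 with h3 | ⟨i, hi, h3⟩
    · exact a h3
    · exact b i hi h3
  · intro h j d h1 h2
    exact ⟨fun e => h ⟨j, d, h1, h2, Or.inl e⟩, fun i hi e => h ⟨j, d, h1, h2, Or.inr ⟨i, hi, e⟩⟩⟩

/-- composite `n ≤ x` for which fewer than `κ |B n|` elements of the set `B n` are witnesses -/
def Exc (κ : ℝ) (B : ℕ → Set ℕ) (x : ℕ) : Set ℕ :=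
  {n : ℕ | n ≤ x ∧ 2 ≤ n ∧ ¬ n.Prime ∧
    (({b : ℕ | b ∈ B n ∧ IsW n b}.ncard : ℕ) : ℝ) < κ * ((B n).ncard : ℝ)}

/-- the primes at most `y` -/
def PrimesTo (y : ℝ) : Set ℕ := {p : ℕ | p.Prime ∧ (p : ℝ) ≤ y}

lemma primesTo_eq {y : ℝ} (hy : 0 ≤ y) : PrimesTo y = ((pr ⌊y⌋₊ : Finset ℕ) : Set ℕ) := by
  ext p
  rw [PrimesTo, Set.mem_setOf_eq, mem_coe, mem_pr, Nat.le_floor_iff hy]

open Classical in
lemma wit_eq (B : Finset ℕ) (n : ℕ) :
    {b : ℕ | b ∈ (B : Set ℕ) ∧ IsW n b}.ncard = (B.filter (fun ℓ => ¬ Passes n ℓ)).card := by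
  rw [← Set.ncard_coe_finset]
  congr 1
  ext b
  rw [Set.mem_setOf_eq, mem_coe, mem_coe, mem_filter, isW_iff]

theorem exc_fixed (A θ κ β : ℝ) (H : CountR A θ (1 - κ) β) :
    ∃ K : ℝ, ∀ x : ℕ, 3 ≤ x → ∀ B : Finset ℕ, (∀ p ∈ B, p.Prime) →
      (∀ p ∈ B, (p : ℝ) ≤ 2 * (log x) ^ A) →
      (log (x : ℝ)) ^ θ ≤ (B.card : ℝ) * (log (log x)) ^ (3 / 2 : ℝ) →
      (Exc κ (fun _ => (B : Set ℕ)) x).Finite ∧
        ((Exc κ (fun _ => (B : Set ℕ)) x).ncard : ℝ) ≤ K * (x : ℝ) ^ β := by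
  classical
  obtain ⟨K, _, hK⟩ := H
  refine ⟨K, fun x hx B hBp hBy hB => ?_⟩
  have h1 : Exc κ (fun _ => (B : Set ℕ)) x ⊆
      (((Icc 1 x).filter (BadR B (1 - κ)) : Finset ℕ) : Set ℕ) := by
    intro n hn
    obtain ⟨h1, h2, h3, h4⟩ := hn
    rw [mem_coe, mem_filter, mem_Icc]
    refine ⟨⟨by omega, h1⟩, h2, h3, B.filter (Passes n), filter_subset _ _,
      fun ℓ hℓ => (mem_filter.mp hℓ).2, ?_⟩
    rw [wit_eq, Set.ncard_coe_finset] at h4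
    have hsum : ((B.filter (Passes n)).card : ℝ) +
        ((B.filter (fun ℓ => ¬ Passes n ℓ)).card : ℝ) = B.card := by
      exact_mod_cast card_filter_add_card_filter_not (s := B) (Passes n)
    linarith
  refine ⟨(finite_toSet _).subset h1, le_trans ?_ (hK x hx B hBp hBy hB)⟩
  have h3 := Set.ncard_le_ncard h1 (finite_toSet _)
  rw [Set.ncard_coe_finset] at h3
  exact_mod_cast h3

theorem exc_primes (A κ ρ β : ℝ) (hA : 2 ≤ A) (hκ : κ < 1) (hκρ : κ + ρ < 1) (hρ : ρ < 1)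
    (hβ : 0 < β) (H : CountR A A ρ β) :
    ∃ K : ℝ, ∀ x : ℕ, 1 ≤ x →
      (Exc κ (fun n => PrimesTo (2 * (log n) ^ A)) x).Finite ∧
        ((Exc κ (fun n => PrimesTo (2 * (log n) ^ A)) x).ncard : ℝ) ≤ K * (x : ℝ) ^ β := by
  classical
  obtain ⟨K, _, hK⟩ := few_count A (max κ 0) ρ β hA (le_max_right _ _)
    (by rcases max_cases κ 0 with h | h <;> linarith) hβ H
  refine ⟨K, fun x hx => ?_⟩
  have h1 : Exc κ (fun n => PrimesTo (2 * (log n) ^ A)) x ⊆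
      (((Icc 1 x).filter (FewAt A (max κ 0)) : Finset ℕ) : Set ℕ) := by
    intro n hn
    obtain ⟨h1, h2, h3, h4⟩ := hn
    rw [mem_coe, mem_filter, mem_Icc]
    refine ⟨⟨by omega, h1⟩, h2, h3, ?_⟩
    have hlog : 0 ≤ log (n : ℝ) := log_natCast_nonneg n
    have hy : 0 ≤ 2 * (log (n : ℝ)) ^ A := by positivity
    simp only at h4
    rw [primesTo_eq hy, wit_eq, Set.ncard_coe_finset] at h4
    refine lt_of_lt_of_le h4 ?_
    exact mul_le_mul_of_nonneg_right (le_max_left _ _) (Nat.cast_nonneg _)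
  refine ⟨(finite_toSet _).subset h1, le_trans ?_ (hK x hx)⟩
  have h3 := Set.ncard_le_ncard h1 (finite_toSet _)
  rw [Set.ncard_coe_finset] at h3
  exact_mod_cast h3

end Pool.Agent.TH725.TS
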