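import Pool.Agent.TH725.TS.GW
import Pool.Agent.TH725.TS.Fin3

set_option autoImplicit false

/-! The main count for the proportion `2 ^ (-j)` of liars. -/

namespace Pool.Agent.TH725.TS.G

open Finset Real Pool.Agent.W57.SW Pool.Agent.H379R2.W Pool.Agent.TH725.TS

/-- many liars, with a general proportion -/
theorem liars_lowc (c : ℕ) (hc : 1 ≤ c) (A θ ε : ℝ) (hθ : 2 ≤ θ) (hθA : θ ≤ A) (hε : 0 < ε) :
    ∃ L0 : ℝ, 3 ≤ L0 ∧ ∀ L : ℝ, L0 ≤ L → ∀ P : Finset ℕ, (∀ p ∈ P, p.Prime) →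
      (∀ p ∈ P, p ≤ yb A L) → L ^ θ ≤ c * (P.card : ℝ) * (log L) ^ (3 / 2 : ℝ) →
      ∀ n : ℕ, (∀ p ∈ P, Passes n p) → ∀ D : ℕ, 1 ≤ D → D ∣ n → log D ≤ L →
      (D : ℝ) ^ ((θ - 1) / A - ε) ≤ (liars n D : ℝ) * L ^ (θ - 1) := by
  have hA1 : 1 ≤ A := by linarith
  have hcr : (1 : ℝ) ≤ c := by exact_mod_cast hc
  have hc0 : (0 : ℝ) < c := by linarith
  obtain ⟨L1, hL1, k1⟩ := an A θ (2 * c) ε hA1 (by linarith) hθA (by positivity) hε
  obtain ⟨L2, hL2, k2⟩ := cond A θ (1 / (2 * c)) hA1 hθ (by positivity)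
  refine ⟨max L1 L2, hL1.trans (le_max_left _ _), ?_⟩
  intro L hL P hPp hPy hP n hn D hD hDn hDL
  have hLL1 := (le_max_left _ _).trans hL
  have hLL2 := (le_max_right _ _).trans hL
  have h3 : 3 ≤ L := hL1.trans hLL1
  have hL0 : 0 < L := by linarith
  obtain ⟨u, hu⟩ : ∃ u, u = Nat.log (yb A L) D := ⟨_, rfl⟩
  obtain ⟨u1, _, _, _, _⟩ := u_facts hA1 h3 hD hDL hu
  have m1 := k1 L hLL1 D hD hDL (c * P.card) hP u hu
  obtain ⟨m2, m3⟩ := k2 L hLL2 D hD hDL (c * P.card) hP u hu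
  have hDpos : (0 : ℝ) < D := by exact_mod_cast hD
  have : NeZero D := ⟨by omega⟩
  have hN1 : 1 ≤ P.card := by
    by_contra h
    have : P.card = 0 := by omega
    rw [this] at m3
    norm_num at m3
  have hP0 : (0 : ℝ) < P.card := by exact_mod_cast hN1
  have huu : (u : ℝ) ≤ (u : ℝ) ^ 2 := by
    have : u ≤ u ^ 2 := by nlinarith [Nat.zero_le u]
    exact_mod_cast this
  have m2' : (u : ℝ) ^ 2 ≤ P.card / 2 := by
    refine m2.trans (le_of_eq ?_)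
    field_simp
  have huP' : (2 : ℝ) * u ≤ P.card := by linarith
  have huP : 2 * u ≤ P.card := by exact_mod_cast huP'
  have hc' := choose_one hN1 huP
  have hmem : ∀ s ∈ prods P u, 1 ≤ s ∧ s ≤ D ∧ (s : ZMod D) ^ (n - 1) = 1 := by
    intro s hs
    obtain ⟨g3, g4, g5, g6, _⟩ := prods_spec hPp hPy hs
    refine ⟨g3, g4.trans u1, pow_eq_one_of_primes s g3 fun p hp hps => ?_⟩
    have h7 : p ∈ P := g5 (Nat.mem_primeFactors.mpr ⟨hp, hps, by omega⟩)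
    exact pow_of_passes_dvd (hn p h7) hDn
  have hcard : (prods P u).card ≤ liars n D := by
    unfold liars
    have hinj : Function.Injective (fun s : prods P u => (⟨((s : ℕ) : ZMod D), (hmem s s.2).2.2⟩ :
        {z : ZMod D // z ^ (n - 1) = 1})) := by
      intro s s' hss
      have h1 : ((s : ℕ) : ZMod D) = ((s' : ℕ) : ZMod D) := congrArg Subtype.val hss
      rw [ZMod.natCast_eq_natCast_iff] at h1
      obtain ⟨a1, a2, _⟩ := hmem s s.2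
      obtain ⟨b1, b2, _⟩ := hmem s' s'.2
      apply Subtype.ext
      have h2 : ((s : ℕ) - 1) ≡ ((s' : ℕ) - 1) [MOD D] := by
        have e1 : (s : ℕ) = ((s : ℕ) - 1) + 1 := by omega
        have e2 : (s' : ℕ) = ((s' : ℕ) - 1) + 1 := by omega
        rw [e1, e2] at h1
        exact Nat.ModEq.add_right_cancel' 1 h1
      have h3 := Nat.ModEq.eq_of_lt_of_lt h2 (by omega) (by omega)
      omega
    have h1 := Nat.card_le_card_of_injective _ hinj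
    rw [Nat.card_eq_fintype_card, Fintype.card_coe] at h1
    exact h1
  rw [card_prods hPp] at hcard
  have hcard' : (P.card.choose u : ℝ) ≤ liars n D := by exact_mod_cast hcard
  have e1 : (2 * c * u / (c * P.card) : ℝ) = 2 * u / P.card := by
    field_simp
  rw [e1] at m1
  have h5 : 1 ≤ (liars n D : ℝ) * (L ^ (θ - 1) * (D : ℝ) ^ (-((θ - 1) / A) + ε)) := by
    refine hc'.trans ?_
    apply mul_le_mul hcard' m1 (by positivity) (by positivity)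
  have h6 : (D : ℝ) ^ ((θ - 1) / A - ε) * (D : ℝ) ^ (-((θ - 1) / A) + ε) = 1 := by
    rw [← rpow_add hDpos]
    rw [show (θ - 1) / A - ε + (-((θ - 1) / A) + ε) = 0 by ring, rpow_zero]
  have h7 : 0 < (D : ℝ) ^ (-((θ - 1) / A) + ε) := by positivity
  have h8 : (D : ℝ) ^ ((θ - 1) / A - ε) * (D : ℝ) ^ (-((θ - 1) / A) + ε) ≤
      (liars n D : ℝ) * L ^ (θ - 1) * (D : ℝ) ^ (-((θ - 1) / A) + ε) := by
    rw [h6]
    calc (1 : ℝ) ≤ _ := h5
      _ = _ := by ring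
  exact le_of_mul_le_mul_right h8 h7

lemma ev_pow_exp (s c η : ℝ) (hη : 0 < η) : ∃ L0 : ℝ, ∀ L : ℝ, L0 ≤ L → c * L ^ s ≤ exp (η * L) := by
  have h := (isLittleO_rpow_exp_pos_mul_atTop s hη).def (show (0 : ℝ) < 1 / (|c| + 1) by positivity)
  obtain ⟨L0, hL0⟩ := Filter.eventually_atTop.mp h
  refine ⟨max L0 1, fun L hL => ?_⟩
  have h1 := hL0 L ((le_max_left _ _).trans hL)
  have h2 : 1 ≤ L := (le_max_right _ _).trans hL
  have h3 : 0 ≤ L ^ s := by positivity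
  rw [norm_of_nonneg h3, norm_of_nonneg (exp_pos _).le, div_mul_eq_mul_div, one_mul,
    le_div_iff₀ (by positivity)] at h1
  have h5 : c ≤ |c| := le_abs_self c
  nlinarith

open Classical in
/-- **The main count.** -/
theorem main_countJ (j : ℕ) (hj : 2 ≤ j) (A θ δ ε : ℝ) (hθ : 2 ≤ θ) (hθA : θ ≤ A) (hδ : 0 < δ)
    (hε : 0 < ε) :
    ∃ K L0 : ℝ, 0 < K ∧ 3 ≤ L0 ∧ ∀ x : ℕ, L0 ≤ log x → ∀ B : Finset ℕ, (∀ p ∈ B, p.Prime) →
      (∀ p ∈ B, p ≤ yb A (log x)) →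
      (log (x : ℝ)) ^ θ ≤ (B.card : ℝ) * (log (log x)) ^ (3 / 2 : ℝ) → ∀ S : ℕ,
      δ * B.card ≤ S →
      (((Icc 1 x).filter (BadJ j B S)).card : ℝ) ≤
        K * (x : ℝ) ^ (max (1 - 1 / (j : ℝ)) (1 - (θ - 1) / A) + ε) := by
  have hA0 : 0 < A := by linarith
  have hjr : (2 : ℝ) ≤ j := by exact_mod_cast hj
  obtain ⟨η, hη0, hη1, hηε⟩ : ∃ η : ℝ, 0 < η ∧ η ≤ 1 ∧ (5 + 3 * j) * η ≤ ε :=
    ⟨min (ε / (5 + 3 * j)) 1, lt_min (by positivity) one_pos, min_le_right _ _, by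
      have h1 := min_le_left (ε / (5 + 3 * (j : ℝ))) 1
      have h2 : (0 : ℝ) < 5 + 3 * j := by positivity
      rw [le_div_iff₀ h2] at h1
      linarith⟩
  obtain ⟨g, hg⟩ : ∃ g : ℝ, g = 1 - (θ - 1) / A := ⟨_, rfl⟩
  have hg0 : 0 < g := by
    rw [hg, sub_pos, div_lt_one hA0]; linarith
  obtain ⟨G, hG⟩ : ∃ G : ℝ, G = max (1 - 1 / (j : ℝ)) g := ⟨_, rfl⟩
  have hGj : 1 - 1 / (j : ℝ) ≤ G := by rw [hG]; exact le_max_left _ _
  have hj2 : 1 / (j : ℝ) ≤ 1 / 2 := one_div_le_one_div_of_le (by norm_num) hjr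
  have hG2 : 1 / 2 ≤ G := by linarith
  have hGg : g ≤ G := by rw [hG]; exact le_max_right _ _
  obtain ⟨α, hα⟩ : ∃ α : ℝ, α = g + η := ⟨_, rfl⟩
  obtain ⟨σ, hσ⟩ : ∃ σ : ℝ, σ = G + 2 * η := ⟨_, rfl⟩
  have hα0 : 0 < α := by rw [hα]; positivity
  have hσ2 : 1 / 2 < σ := by rw [hσ]; linarith
  have hσ0 : 0 < σ := by linarith
  obtain ⟨σ1, hσ1⟩ : ∃ σ1 : ℝ, σ1 = σ - η / 2 := ⟨_, rfl⟩
  have hασ : α < σ1 := by rw [hα, hσ1, hσ]; linarith
  obtain ⟨r, hr⟩ : ∃ r : ℝ, r = σ1 / α := ⟨_, rfl⟩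
  have hr0 : 0 < r := by rw [hr]; exact div_pos (by linarith) hα0
  have hc1 : 1 ≤ 2 ^ j := Nat.one_le_two_pow
  obtain ⟨K1, L1, hK1, hL1, hE⟩ := ex_count A θ δ η hθ hθA hδ hη0
  obtain ⟨L2, hL2, hG'⟩ := liars_lowc (2 ^ j) hc1 A θ η hθ hθA hη0
  obtain ⟨L4, hL4, hLS⟩ := lgs (2 ^ j) hc1 A θ η hθ hθA hη0
  obtain ⟨Cτ, hCτ, hdiv⟩ := Helper112.divisor_bound η hη0
  obtain ⟨K2, hK2⟩ : ∃ K2, K2 = max K1 1 := ⟨_, rfl⟩
  have hK21 : 1 ≤ K2 := by rw [hK2]; exact le_max_right _ _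
  have hK12 : K1 ≤ K2 := by rw [hK2]; exact le_max_left _ _
  obtain ⟨Z1, hZ1⟩ : ∃ Z1 : ℝ, Z1 = ∑' k : ℕ, (k : ℝ) ^ (-(2 * σ)) := ⟨_, rfl⟩
  obtain ⟨Z2, hZ2⟩ : ∃ Z2 : ℝ, Z2 = ∑' k : ℕ, (k : ℝ) ^ (-(σ1 / α)) := ⟨_, rfl⟩
  obtain ⟨Z3, hZ3⟩ : ∃ Z3 : ℝ, Z3 = ∑' k : ℕ, (k : ℝ) ^ (-(1 + η)) := ⟨_, rfl⟩
  have hZ10 : 0 ≤ Z1 := by rw [hZ1]; exact tsum_nonneg fun k => by positivity
  have hZ20 : 0 ≤ Z2 := by rw [hZ2]; exact tsum_nonneg fun k => by positivity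
  have hZ30 : 0 ≤ Z3 := by rw [hZ3]; exact tsum_nonneg fun k => by positivity
  obtain ⟨C, hC⟩ : ∃ C : ℝ, C = ((θ - 1) * r + 1) * (2 / η) := ⟨_, rfl⟩
  have hC0 : 0 < C := by
    rw [hC]
    have : 0 < (θ - 1) * r + 1 := by
      have : 0 < (θ - 1) * r := mul_pos (by linarith) hr0
      linarith
    positivity
  obtain ⟨L3, hL3⟩ := ev_pow_exp (θ - 1) 1 η hη0
  obtain ⟨L5, hL5⟩ := ev_pow_exp (C * (2 * (j + 1))) (2 ^ (2 * (j + 1))) η hη0
  obtain ⟨L6, hL6⟩ : ∃ L6 : ℝ, L6 = K2 ^ r * Z2 := ⟨_, rfl⟩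
  obtain ⟨C1, hC1⟩ : ∃ C1 : ℝ, C1 = 6 * Z1 * (1 + j * Cτ * (Z3 ^ 2 + 1) ^ j) := ⟨_, rfl⟩
  have hC10 : 0 ≤ C1 := by rw [hC1]; positivity
  refine ⟨C1 + 1, max (max L1 L4) (max (max L2 L3) (max L5 L6)), by positivity,
    hL1.trans ((le_max_left _ _).trans (le_max_left _ _)), ?_⟩
  intro x hx B hBp hBy hB S hS
  obtain ⟨L, hL⟩ : ∃ L : ℝ, L = log x := ⟨_, rfl⟩
  rw [← hL] at hx hBy hB
  have c1 : L1 ≤ L := (le_max_left _ _).trans ((le_max_left _ _).trans hx)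
  have c4 : L4 ≤ L := (le_max_right _ _).trans ((le_max_left _ _).trans hx)
  have c2 : L2 ≤ L := (le_max_left _ _).trans ((le_max_left _ _).trans ((le_max_right _ _).trans hx))
  have c3 : L3 ≤ L :=
    (le_max_right _ _).trans ((le_max_left _ _).trans ((le_max_right _ _).trans hx))
  have c5 : L5 ≤ L :=
    (le_max_left _ _).trans ((le_max_right _ _).trans ((le_max_right _ _).trans hx))
  have c6 : L6 ≤ L :=
    (le_max_right _ _).trans ((le_max_right _ _).trans ((le_max_right _ _).trans hx))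
  have h3 : 3 ≤ L := hL1.trans c1
  have hL0 : 0 < L := by linarith
  have hx0 : x ≠ 0 := by
    rintro rfl
    rw [Nat.cast_zero, log_zero] at hL
    linarith
  have hx1 : 1 ≤ x := Nat.one_le_iff_ne_zero.mpr hx0
  have hx1r : (1 : ℝ) ≤ x := by exact_mod_cast hx1
  have hxpos : (0 : ℝ) < x := by linarith
  obtain ⟨V, hV⟩ : ∃ V : ℝ, V = L ^ (θ - 1) := ⟨_, rfl⟩
  have hV1 : 1 ≤ V := by rw [hV]; exact one_le_rpow (by linarith) (by linarith)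
  have hV0 : 0 < V := by linarith
  have hlogle : ∀ D : ℕ, 1 ≤ D → D ≤ x → log (D : ℝ) ≤ L := by
    intro D hD1 hD
    rw [hL]
    exact log_le_log (by exact_mod_cast hD1) (by exact_mod_cast hD)
  have hexpx : ∀ s : ℝ, exp (s * L) = (x : ℝ) ^ s := by
    intro s
    rw [rpow_def_of_pos hxpos, hL, mul_comm]
  have hVx : V ≤ (x : ℝ) ^ η := by
    have := hL3 L c3
    rw [one_mul, hexpx, ← hV] at this
    exact this
  have hE' : ∀ X : ℕ, 1 ≤ X → X ≤ x → ((Ex B S X).card : ℝ) ≤ K2 * V * (X : ℝ) ^ α := by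
    intro X hX1 hX
    have h1 := hE L c1 B hBp hBy hB S hS X hX1 (hlogle X hX1 hX)
    rw [← hg, ← hα, ← hV] at h1
    refine h1.trans ?_
    gcongr
  -- the size of the parts
  obtain ⟨Y, hY⟩ : ∃ Y, Y = ⌈L ^ C⌉₊ := ⟨_, rfl⟩
  have hLC : 1 < L ^ C := one_lt_rpow (by linarith) hC0
  have hYL : L ^ C ≤ (Y : ℝ) := by rw [hY]; exact Nat.le_ceil _
  have hY2 : 2 ≤ Y := by
    have : (1 : ℝ) < Y := by linarith
    exact_mod_cast this
  have hYu : (Y : ℝ) ≤ 2 * L ^ C := by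
    have : (Y : ℝ) < L ^ C + 1 := by rw [hY]; exact Nat.ceil_lt_add_one (by positivity)
    linarith
  have hY0 : (0 : ℝ) < Y := by linarith
  obtain ⟨Yf, hYf⟩ : ∃ Yf, Yf = Y ^ (2 * (j + 1)) := ⟨_, rfl⟩
  have hYfx : (Yf : ℝ) ≤ (x : ℝ) ^ η := by
    rw [hYf]
    push_cast
    have h1 : (Y : ℝ) ^ (2 * (j + 1)) ≤ (2 * L ^ C) ^ (2 * (j + 1)) :=
      pow_le_pow_left₀ hY0.le hYu _
    refine h1.trans ?_
    rw [mul_pow, ← hexpx]
    have h2 := hL5 L c5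
    have e : (L ^ C) ^ (2 * (j + 1)) = L ^ (C * (2 * (j + 1))) := by
      rw [← rpow_natCast (L ^ C), ← rpow_mul hL0.le]
      congr 1
      push_cast
      ring
    rw [e]
    exact h2
  obtain ⟨E, hEE⟩ : ∃ E, E = (Ex B S x).filter (fun a => Y ≤ a) := ⟨_, rfl⟩
  have hEmem : ∀ m ∈ E, (1 ≤ m ∧ m ≤ x) ∧ Y ≤ m := by
    intro m hm; rw [hEE, mem_filter, mem_Ex] at hm; exact ⟨hm.1.1, hm.2⟩
  obtain ⟨W, hW⟩ : ∃ W, W = Wg E Yf x := ⟨_, rfl⟩
  have hWm : ∀ w ∈ W, 1 ≤ w ∧ w ≤ x := by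
    intro w hw
    rw [hW, Wg, mem_filter, mem_image] at hw
    obtain ⟨⟨i, hi, hiw⟩, hwx⟩ := hw
    refine ⟨?_, hwx⟩
    rw [mem_product, mem_product, mem_product, mem_Icc, mem_Icc, mem_powerset] at hi
    obtain ⟨⟨⟨h1, _⟩, h2⟩, ⟨h4, _⟩, h5⟩ := hi
    have h2' : 1 ≤ i.1.2 := by
      simp only [mem_insert, mem_singleton] at h2
      omega
    have h6 : 1 ≤ ∏ a ∈ i.2.2, a := Nat.pos_of_ne_zero (prod_ne_zero_iff.mpr fun a ha => by
      have := (hEmem a (h5 ha)).1.1; omega)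
    rw [← hiw]
    exact Nat.mul_pos (Nat.mul_pos (Nat.one_le_pow _ _ h1) h2') (Nat.mul_pos h4 h6)
  have hBc : 1 ≤ B.card := by
    by_contra h
    have h0 : B.card = 0 := by omega
    rw [h0, Nat.cast_zero, zero_mul] at hB
    have : 0 < L ^ θ := by positivity
    linarith
  have hS1 : 1 ≤ S := by
    have h1 : 0 < δ * (B.card : ℝ) := by
      have : (0 : ℝ) < B.card := by exact_mod_cast hBc
      positivity
    have h2 : (0 : ℝ) < S := lt_of_lt_of_le h1 hS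
    exact_mod_cast h2
  -- the covering
  have hcover : (Icc 1 x).filter (BadJ j B S) ⊆ W ∪ NN W x j (kap (2 ^ j) B x) V σ := by
    intro n hn
    rw [mem_filter, mem_Icc] at hn
    obtain ⟨⟨hn1, hnx⟩, hb⟩ := hn
    have hHL : ∀ D : ℕ, 1 ≤ D → D ∣ n → (D : ℝ) ^ (1 - g - η) ≤ (liars n D : ℝ) * V := by
      intro D hD hDn
      obtain ⟨_, _, P, hPB, hP, hcard⟩ := hb
      have hDx : D ≤ x := (Nat.le_of_dvd hn1 hDn).trans hnx
      have hPc : L ^ θ ≤ ((2 ^ j : ℕ) : ℝ) * (P.card : ℝ) * (log L) ^ (3 / 2 : ℝ) := by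
        refine hB.trans ?_
        have : (B.card : ℝ) ≤ ((2 ^ j : ℕ) : ℝ) * P.card := by
          have : B.card ≤ 2 ^ j * P.card := by omega
          exact_mod_cast this
        apply mul_le_mul_of_nonneg_right this
        exact rpow_nonneg (log_nonneg (by linarith)) _
      have h1 := hG' L c2 P (fun p hp => hBp p (hPB hp)) (fun p hp => hBy p (hPB hp)) hPc n hP D hD
        hDn (hlogle D hD hDx)
      rw [← hV] at h1
      have e : 1 - g - η = (θ - 1) / A - η := by rw [hg]; ring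
      rw [e]
      exact h1
    rw [hW, hEE, hYf, mem_union]
    exact coverJ hV1 (by rw [← hα]; exact hα0.le) (by rw [hσ]; linarith) (by rw [hσ]; linarith)
      (by omega) hHL hS1 hY2 hb hnx
  -- the sum over the exceptional numbers
  have hR : ∑ m ∈ E, (m : ℝ) ^ (-σ) ≤ 1 := by
    have h1 := rank_sum E (K2 * V) α σ1 (by positivity) hα0 hασ (fun q hq => (hEmem q hq).1.1)
      (fun q hq => by
        have e1 : E.filter (fun m => m ≤ q) ⊆ Ex B S q := by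
          intro m hm
          rw [hEE, mem_filter, mem_filter] at hm
          rw [← Ex_filter (hEmem q hq).1.2, mem_filter]
          exact ⟨hm.1.1, hm.2⟩
        have e2 : ((E.filter (fun m => m ≤ q)).card : ℝ) ≤ (Ex B S q).card := by
          exact_mod_cast card_le_card e1
        exact e2.trans (hE' q (hEmem q hq).1.1 (hEmem q hq).1.2))
    rw [← hZ2, ← hr] at h1
    have h2 : ∀ m ∈ E, (m : ℝ) ^ (-σ) ≤ (Y : ℝ) ^ (-(η / 2)) * (m : ℝ) ^ (-σ1) := by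
      intro m hm
      have hm0 : (0 : ℝ) < m := by exact_mod_cast (hEmem m hm).1.1
      have e : (m : ℝ) ^ (-σ) = (m : ℝ) ^ (-(η / 2)) * (m : ℝ) ^ (-σ1) := by
        rw [← rpow_add hm0]; congr 1; rw [hσ1]; ring
      rw [e]
      apply mul_le_mul_of_nonneg_right _ (by positivity)
      exact rpow_le_rpow_of_nonpos hY0 (by exact_mod_cast (hEmem m hm).2) (by linarith)
    refine (sum_le_sum h2).trans ?_
    rw [← mul_sum]
    have h4 : (K2 * V) ^ r * Z2 ≤ (Y : ℝ) ^ (η / 2) := by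
      have e1 : (K2 * V) ^ r * Z2 = L6 * V ^ r := by
        rw [hL6, mul_rpow (by positivity) hV0.le]; ring
      have e2 : V ^ r = L ^ ((θ - 1) * r) := by rw [hV, ← rpow_mul hL0.le]
      have e3 : L * L ^ ((θ - 1) * r) = L ^ ((θ - 1) * r + 1) := by
        rw [rpow_add_one hL0.ne']; ring
      have e4 : (L ^ C) ^ (η / 2) = L ^ ((θ - 1) * r + 1) := by
        rw [← rpow_mul hL0.le, hC]
        congr 1
        field_simp
      rw [e1, e2]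
      calc L6 * L ^ ((θ - 1) * r) ≤ L * L ^ ((θ - 1) * r) :=
            mul_le_mul_of_nonneg_right c6 (by positivity)
        _ = (L ^ C) ^ (η / 2) := by rw [e3, e4]
        _ ≤ (Y : ℝ) ^ (η / 2) := rpow_le_rpow (by positivity) hYL (by positivity)
    calc (Y : ℝ) ^ (-(η / 2)) * ∑ m ∈ E, (m : ℝ) ^ (-σ1) ≤
        (Y : ℝ) ^ (-(η / 2)) * (Y : ℝ) ^ (η / 2) :=
          mul_le_mul_of_nonneg_left (h1.trans h4) (by positivity)
      _ = 1 := by rw [← rpow_add hY0]; simp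
  obtain ⟨Wt, hWt⟩ : ∃ Wt : ℝ, Wt = ∑ w ∈ W, (w : ℝ) ^ (-σ) := ⟨_, rfl⟩
  have hWt0 : 0 ≤ Wt := by rw [hWt]; exact sum_nonneg fun m _ => by positivity
  have hWtx : Wt ≤ 6 * Z1 * (x : ℝ) ^ η := by
    rw [hWt, hW]
    refine (sum_Wg E Yf x hσ2).trans ?_
    rw [← hZ1]
    have h1 : exp (∑ m ∈ E, (m : ℝ) ^ (-σ)) ≤ 3 :=
      (exp_le_exp.mpr hR).trans (by linarith [exp_one_lt_d9])
    calc 2 * Z1 * (Yf : ℝ) * exp (∑ m ∈ E, (m : ℝ) ^ (-σ)) ≤ 2 * Z1 * (x : ℝ) ^ η * 3 := by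
          apply mul_le_mul _ h1 (exp_pos _).le (by positivity)
          exact mul_le_mul_of_nonneg_left hYfx (by positivity)
      _ = _ := by ring
  -- the sum over the indices
  have hκ : ∑ p ∈ Icc 1 x, (kap (2 ^ j) B x p : ℝ) / p ≤ (x : ℝ) ^ (3 * η) * (Z3 ^ 2 + 1) := by
    have h1 : ∑ p ∈ Icc 1 x, (kap (2 ^ j) B x p : ℝ) / p ≤ (x : ℝ) ^ (3 * η) * Z3 ^ 2 := by
      rw [hZ3]
      apply sum_kap hx1 hη0 hη1
      intro K hK X hX hXx
      have h1 := hLS L c4 B hBp hBy hB K hK X hX (hlogle X hX hXx)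
      rw [hexpx] at h1
      exact h1
    refine h1.trans (mul_le_mul_of_nonneg_left (by linarith) (by positivity))
  have hx3 : 1 ≤ (x : ℝ) ^ (3 * η) := one_le_rpow hx1r (by positivity)
  have hKk1 : 1 ≤ (x : ℝ) ^ (3 * η) * (Z3 ^ 2 + 1) := by
    have : 1 ≤ Z3 ^ 2 + 1 := by have := sq_nonneg Z3; linarith
    nlinarith
  have b1 := W_bound x W hWm σ hσ0.le
  have b2 := NN_bound x j W hWm (kap (2 ^ j) B x) Cτ η V σ _ hη0.le hCτ hV1
    (fun n hn => hdiv n hn) hKk1 hκ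
  rw [← hWt] at b1 b2
  have hfin := (card_le_card hcover).trans (card_union_le _ _)
  have hfin' : (((Icc 1 x).filter (BadJ j B S)).card : ℝ) ≤
      (W.card : ℝ) + ((NN W x j (kap (2 ^ j) B x) V σ).card : ℝ) := by
    exact_mod_cast hfin
  obtain ⟨M, hM⟩ : ∃ M : ℝ, M = (x : ℝ) ^ (2 * η + 3 * j * η) := ⟨_, rfl⟩
  have hM1 : 1 ≤ M := by rw [hM]; exact one_le_rpow hx1r (by positivity)
  have hM2 : (x : ℝ) ^ η * V * ((x : ℝ) ^ (3 * η)) ^ j ≤ M := by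
    calc (x : ℝ) ^ η * V * ((x : ℝ) ^ (3 * η)) ^ j ≤
        (x : ℝ) ^ η * (x : ℝ) ^ η * ((x : ℝ) ^ (3 * η)) ^ j := by gcongr
      _ = M := by
          rw [hM, ← rpow_natCast ((x : ℝ) ^ (3 * η)), ← rpow_mul hxpos.le, ← rpow_add hxpos,
            ← rpow_add hxpos]
          congr 1
          ring
  have hxσ0 : 0 ≤ (x : ℝ) ^ σ := by positivity
  have d1 : (W.card : ℝ) ≤ M * ((x : ℝ) ^ σ * Wt) := by
    refine b1.trans ?_
    exact le_mul_of_one_le_left (by positivity) hM1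
  have d2 : ((NN W x j (kap (2 ^ j) B x) V σ).card : ℝ) ≤
      j * Cτ * (Z3 ^ 2 + 1) ^ j * (M * ((x : ℝ) ^ σ * Wt)) := by
    refine b2.trans ?_
    calc j * Cτ * (x : ℝ) ^ η * V * ((x : ℝ) ^ (3 * η) * (Z3 ^ 2 + 1)) ^ j * (x : ℝ) ^ σ * Wt =
        j * Cτ * (Z3 ^ 2 + 1) ^ j * (((x : ℝ) ^ η * V * ((x : ℝ) ^ (3 * η)) ^ j) *
          ((x : ℝ) ^ σ * Wt)) := by rw [mul_pow]; ring
      _ ≤ j * Cτ * (Z3 ^ 2 + 1) ^ j * (M * ((x : ℝ) ^ σ * Wt)) := by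
          apply mul_le_mul_of_nonneg_left _ (by positivity)
          exact mul_le_mul_of_nonneg_right hM2 (by positivity)
  have d3 : M * ((x : ℝ) ^ σ * Wt) ≤ 6 * Z1 * (x : ℝ) ^ (G + ε) := by
    calc M * ((x : ℝ) ^ σ * Wt) ≤ M * ((x : ℝ) ^ σ * (6 * Z1 * (x : ℝ) ^ η)) := by gcongr
      _ = 6 * Z1 * (M * (x : ℝ) ^ σ * (x : ℝ) ^ η) := by ring
      _ ≤ 6 * Z1 * (x : ℝ) ^ (G + ε) := by
          apply mul_le_mul_of_nonneg_left _ (by positivity)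
          rw [hM, ← rpow_add hxpos, ← rpow_add hxpos]
          apply rpow_le_rpow_of_exponent_le hx1r
          rw [hσ]
          linarith
  have hC2 : 0 ≤ 1 + j * Cτ * (Z3 ^ 2 + 1) ^ j := by positivity
  rw [← hg, ← hG]
  calc (((Icc 1 x).filter (BadJ j B S)).card : ℝ) ≤
      (W.card : ℝ) + ((NN W x j (kap (2 ^ j) B x) V σ).card : ℝ) := hfin'
    _ ≤ (1 + j * Cτ * (Z3 ^ 2 + 1) ^ j) * (M * ((x : ℝ) ^ σ * Wt)) := by linarith
    _ ≤ (1 + j * Cτ * (Z3 ^ 2 + 1) ^ j) * (6 * Z1 * (x : ℝ) ^ (G + ε)) :=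
        mul_le_mul_of_nonneg_left d3 hC2
    _ = C1 * (x : ℝ) ^ (G + ε) := by rw [hC1]; ring
    _ ≤ _ := mul_le_mul_of_nonneg_right (by linarith) (by positivity)

/-- the count for every `j ≥ 1` -/
theorem countR_J (j : ℕ) (hj : 1 ≤ j) (A θ ρ ε : ℝ) (hθ : 2 ≤ θ) (hθA : θ ≤ A)
    (hρ : 1 / (2 : ℝ) ^ j < ρ) (hε : 0 < ε) :
    CountR A θ ρ (max (1 - 1 / (j : ℝ)) (1 - (θ - 1) / A) + ε) := by
  classical
  have hA0 : 0 < A := by linarith
  rcases Nat.lt_or_ge j 2 with hj2 | hj2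
  · have hj1 : j = 1 := by omega
    have h0 : 0 ≤ 1 - (θ - 1) / A := by
      have : (θ - 1) / A ≤ 1 := by rw [div_le_one hA0]; linarith
      linarith
    rw [hj1] at hρ ⊢
    have e : max (1 - 1 / ((1 : ℕ) : ℝ)) (1 - (θ - 1) / A) = 1 - (θ - 1) / A := by
      rw [Nat.cast_one, div_one, sub_self]
      exact max_eq_right h0
    rw [e]
    exact countR_half A θ ρ ε hθ hθA (by rwa [pow_one] at hρ) hε
  obtain ⟨δ, hδ⟩ : ∃ δ : ℝ, δ = ρ - 1 / (2 : ℝ) ^ j := ⟨_, rfl⟩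
  have hδ0 : 0 < δ := by rw [hδ]; linarith
  obtain ⟨K, L0, hK, hL0, hmain⟩ := main_countJ j hj2 A θ (δ / 2) ε hθ hθA (by positivity) hε
  obtain ⟨L1, hL1⟩ : ∃ L1 : ℝ, L1 = max L0 ((1 / δ) ^ 2) := ⟨_, rfl⟩
  obtain ⟨β, hβe⟩ : ∃ β : ℝ, β = max (1 - 1 / (j : ℝ)) (1 - (θ - 1) / A) + ε := ⟨_, rfl⟩
  rw [← hβe] at hmain ⊢
  have hβ : 0 ≤ β := by
    have h1 := le_max_right (1 - 1 / (j : ℝ)) (1 - (θ - 1) / A)
    have h2 : (θ - 1) / A ≤ 1 := by rw [div_le_one hA0]; linarith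
    rw [hβe]
    linarith
  refine ⟨K + exp L1, by positivity, ?_⟩
  intro x hx B hBp hBy hB
  have hx1 : (1 : ℝ) ≤ x := by exact_mod_cast (by omega : 1 ≤ x)
  have hxpos : (0 : ℝ) < x := by linarith
  have hxβ : 1 ≤ (x : ℝ) ^ β := one_le_rpow hx1 hβ
  rcases lt_or_ge (log (x : ℝ)) L1 with hs | hl
  · have h1 : (((Icc 1 x).filter (BadR B ρ)).card : ℝ) ≤ x := by
      have : ((Icc 1 x).filter (BadR B ρ)).card ≤ x :=
        (card_filter_le _ _).trans (by rw [Nat.card_Icc]; omega)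
      exact_mod_cast this
    have h2 : (x : ℝ) ≤ exp L1 := by
      rw [← exp_log hxpos]; exact exp_le_exp.mpr hs.le
    calc (((Icc 1 x).filter (BadR B ρ)).card : ℝ) ≤ exp L1 * 1 := by linarith
      _ ≤ exp L1 * (x : ℝ) ^ β := mul_le_mul_of_nonneg_left hxβ (exp_pos _).le
      _ ≤ _ := mul_le_mul_of_nonneg_right (by linarith) (by positivity)
  · have hl0 : L0 ≤ log (x : ℝ) := by rw [hL1] at hl; exact (le_max_left _ _).trans hl
    have hl1 : (1 / δ) ^ 2 ≤ log (x : ℝ) := by rw [hL1] at hl; exact (le_max_right _ _).trans hl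
    have hl3 : 3 ≤ log (x : ℝ) := hL0.trans hl0
    have hcard := card_low hθ hl3 hB
    have hδB : 1 ≤ δ * B.card := by
      have h1 : 1 / δ ≤ (log (x : ℝ)) ^ (1 / 2 : ℝ) := by
        have h2 := rpow_le_rpow (by positivity) hl1 (show (0 : ℝ) ≤ 1 / 2 by norm_num)
        rw [← rpow_natCast, ← rpow_mul (by positivity)] at h2
        norm_num at h2
        rw [one_div]
        convert h2 using 2
      have h2 : 1 / δ ≤ B.card := h1.trans hcard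
      rw [div_le_iff₀ hδ0] at h2
      linarith
    have hy : ∀ p ∈ B, p ≤ yb A (log x) := fun p hp => Nat.le_floor (hBy p hp)
    have hfl : δ / 2 * B.card ≤ (⌊δ * B.card⌋₊ : ℝ) := by
      have h1 : δ * (B.card : ℝ) < ⌊δ * (B.card : ℝ)⌋₊ + 1 := Nat.lt_floor_add_one _
      have h2 : 1 ≤ ⌊δ * (B.card : ℝ)⌋₊ := Nat.le_floor (by rw [Nat.cast_one]; exact hδB)
      have h3 : (1 : ℝ) ≤ ⌊δ * (B.card : ℝ)⌋₊ := by exact_mod_cast h2
      linarith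
    have h1 := hmain x hl0 B hBp hy hB ⌊δ * B.card⌋₊ hfl
    have hsub : (Icc 1 x).filter (BadR B ρ) ⊆ (Icc 1 x).filter (BadJ j B ⌊δ * B.card⌋₊) := by
      intro n hn
      rw [mem_filter] at hn ⊢
      obtain ⟨hn1, hn2, hnp, P, hPB, hP, hc⟩ := hn
      refine ⟨hn1, hn2, hnp, P, hPB, hP, ?_⟩
      have h2 : ((⌊δ * B.card⌋₊ : ℕ) : ℝ) ≤ δ * B.card := Nat.floor_le (by positivity)
      have h3 : ((B.card + 2 ^ j * ⌊δ * B.card⌋₊ : ℕ) : ℝ) ≤ ((2 ^ j * P.card : ℕ) : ℝ) := by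
        push_cast
        have h4 : (0 : ℝ) < 2 ^ j := by positivity
        have h5 : (2 : ℝ) ^ j * (ρ * B.card) ≤ 2 ^ j * P.card := mul_le_mul_of_nonneg_left hc h4.le
        have h6 : (2 : ℝ) ^ j * (ρ * B.card) = B.card + 2 ^ j * (δ * B.card) := by
          rw [hδ]
          field_simp
          ring
        have h7 : (2 : ℝ) ^ j * (⌊δ * (B.card : ℝ)⌋₊ : ℝ) ≤ 2 ^ j * (δ * B.card) :=
          mul_le_mul_of_nonneg_left h2 h4.le
        linarith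
      exact_mod_cast h3
    have h2 : (((Icc 1 x).filter (BadR B ρ)).card : ℝ) ≤
        ((Icc 1 x).filter (BadJ j B ⌊δ * B.card⌋₊)).card := by exact_mod_cast card_le_card hsub
    refine h2.trans (h1.trans ?_)
    exact mul_le_mul_of_nonneg_right (by linarith [exp_pos L1]) (by positivity)

end Pool.Agent.TH725.TS.G
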