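import Mathlib

set_option autoImplicit false

/-! Analytic estimates. -/

namespace Pool.Agent.TH725.TS

open Finset Real

/-- the bound for the bases as a natural number -/
noncomputable def yb (A L : ℝ) : ℕ := ⌊2 * L ^ A⌋₊

lemma yb_facts {A L : ℝ} (hA : 1 ≤ A) (hL : 3 ≤ L) :
    3 ≤ yb A L ∧ L ^ A ≤ (yb A L : ℝ) ∧ (yb A L : ℝ) ≤ 2 * L ^ A ∧
      log L ≤ log (yb A L) ∧ 1 ≤ log (yb A L) ∧ log (yb A L) ≤ log 2 + A * log L := by
  have hL0 : 0 < L := by linarith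
  have h1 : L ≤ L ^ A := by
    have := rpow_le_rpow_of_exponent_le (by linarith : 1 ≤ L) hA
    rwa [rpow_one] at this
  have h2 : 2 * L ^ A < (yb A L : ℝ) + 1 := Nat.lt_floor_add_one _
  have h3 : (yb A L : ℝ) ≤ 2 * L ^ A := Nat.floor_le (by positivity)
  have h4 : L ^ A ≤ (yb A L : ℝ) := by linarith
  have h5 : (3 : ℝ) ≤ yb A L := by linarith
  have h6 : log L ≤ log (yb A L) := log_le_log hL0 (h1.trans h4)
  have h7 : 1 ≤ log L := by
    rw [le_log_iff_exp_le hL0]; linarith [exp_one_lt_d9]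
  refine ⟨by exact_mod_cast h5, h4, h3, h6, h7.trans h6, ?_⟩
  have h8 := log_le_log (by linarith) h3
  rwa [log_mul (by norm_num) (by positivity), log_rpow hL0] at h8

/-- the number of factors -/
lemma u_facts {A L : ℝ} (hA : 1 ≤ A) (hL : 3 ≤ L) {D u : ℕ} (hD : 1 ≤ D) (hDL : log D ≤ L)
    (hu : u = Nat.log (yb A L) D) :
    (yb A L) ^ u ≤ D ∧ (u : ℝ) * log (yb A L) ≤ log D ∧ log D < (u + 1) * log (yb A L) ∧
      (u : ℝ) ≤ L ∧ (u : ℝ) * log L ≤ L := by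
  obtain ⟨h3, _, _, h6, h7, _⟩ := yb_facts hA hL
  have hL0 : 0 < L := by linarith
  have hD0 : (0 : ℝ) < D := by exact_mod_cast hD
  have hy0 : (0 : ℝ) < yb A L := by exact_mod_cast (by omega : 0 < yb A L)
  have e1 : (yb A L) ^ u ≤ D := by rw [hu]; exact Nat.pow_log_le_self _ (by omega)
  have e2 : D < (yb A L) ^ (u + 1) := by rw [hu]; exact Nat.lt_pow_succ_log_self (by omega) D
  have e3 : (u : ℝ) * log (yb A L) ≤ log D := by
    have h : ((yb A L ^ u : ℕ) : ℝ) ≤ D := by exact_mod_cast e1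
    push_cast at h
    have h' := log_le_log (by positivity) h
    rwa [log_pow] at h'
  have e4 : log D < (u + 1) * log (yb A L) := by
    have h : (D : ℝ) < ((yb A L ^ (u + 1) : ℕ) : ℝ) := by exact_mod_cast e2
    push_cast at h
    have h' := log_lt_log hD0 h
    rw [log_pow] at h'
    push_cast at h'
    exact h'
  have hu0 : (0 : ℝ) ≤ u := Nat.cast_nonneg u
  refine ⟨e1, e3, e4, ?_, ?_⟩
  · have : (u : ℝ) * 1 ≤ u * log (yb A L) := mul_le_mul_of_nonneg_left h7 hu0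
    linarith
  · have : (u : ℝ) * log L ≤ u * log (yb A L) := mul_le_mul_of_nonneg_left h6 hu0
    linarith

/-- powers of the logarithm -/
lemma ev_log (c η s : ℝ) (hη : 0 < η) : ∃ L0 : ℝ, ∀ L : ℝ, L0 ≤ L → c * (log L) ^ s ≤ L ^ η := by
  have h := (isLittleO_log_rpow_rpow_atTop s hη).def
    (show (0 : ℝ) < 1 / (|c| + 1) by positivity)
  obtain ⟨L0, hL0⟩ := Filter.eventually_atTop.mp h
  refine ⟨max L0 1, fun L hL => ?_⟩
  have h1 := hL0 L ((le_max_left _ _).trans hL)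
  have h2 : 1 ≤ L := (le_max_right _ _).trans hL
  have h3 : 0 ≤ (log L) ^ s := rpow_nonneg (log_nonneg h2) _
  have h4 : 0 ≤ L ^ η := by positivity
  rw [norm_of_nonneg h3, norm_of_nonneg h4, div_mul_eq_mul_div, one_mul,
    le_div_iff₀ (by positivity)] at h1
  have h5 : c ≤ |c| := le_abs_self c
  nlinarith

/-- the main analytic estimate -/
lemma an (A θ c ε : ℝ) (hA : 1 ≤ A) (hθ : 1 < θ) (hθA : θ ≤ A) (hc : 0 ≤ c) (hε : 0 < ε) :
    ∃ L0 : ℝ, 3 ≤ L0 ∧ ∀ L : ℝ, L0 ≤ L → ∀ D : ℕ, 1 ≤ D → log D ≤ L → ∀ N : ℝ,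
      L ^ θ ≤ N * (log L) ^ (3 / 2 : ℝ) → ∀ u : ℕ, u = Nat.log (yb A L) D →
      (c * u / N) ^ u ≤ L ^ (θ - 1) * (D : ℝ) ^ (-((θ - 1) / A) + ε) := by
  have hA0 : 0 < A := by linarith
  obtain ⟨η, hη0, hη1, hη2⟩ : ∃ η : ℝ, 0 < η ∧ η ≤ ε / 2 ∧ η ≤ θ - 1 :=
    ⟨min (ε / 2) (θ - 1), lt_min (by positivity) (by linarith), min_le_left _ _, min_le_right _ _⟩
  obtain ⟨L1, hL1⟩ := ev_log c η (3 / 2) hη0
  have hev : ∀ᶠ L : ℝ in Filter.atTop, log 2 / η ≤ log L :=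
    tendsto_log_atTop.eventually (Filter.eventually_ge_atTop _)
  obtain ⟨L2, hL2⟩ := Filter.eventually_atTop.mp hev
  refine ⟨max 3 (max L1 L2), le_max_left _ _, ?_⟩
  intro L hL D hD hDL N hN u hu
  have h3 : 3 ≤ L := (le_max_left _ _).trans hL
  have k1 := hL1 L ((le_max_left _ _).trans ((le_max_right _ _).trans hL))
  have k2 := hL2 L ((le_max_right _ _).trans ((le_max_right _ _).trans hL))
  have hL0 : 0 < L := by linarith
  have hD0 : (0 : ℝ) < D := by exact_mod_cast hD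
  have hDlog : 0 ≤ log (D : ℝ) := log_natCast_nonneg D
  obtain ⟨_, _, _, _, _, y6⟩ := yb_facts hA h3
  obtain ⟨_, _, u3, u4, _⟩ := u_facts hA h3 hD hDL hu
  have hlogL : 1 ≤ log L := by
    rw [le_log_iff_exp_le hL0]; linarith [exp_one_lt_d9]
  have hlogL0 : 0 < log L := by linarith
  have hlp : 0 < (log L) ^ (3 / 2 : ℝ) := by positivity
  have hNpos : 0 < N := by
    by_contra h
    push Not at h
    have : N * (log L) ^ (3 / 2 : ℝ) ≤ 0 := mul_nonpos_of_nonpos_of_nonneg h hlp.le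
    have : 0 < L ^ θ := by positivity
    linarith
  have hu0 : (0 : ℝ) ≤ u := Nat.cast_nonneg u
  have hq : c * u / N ≤ L ^ (-(θ - 1 - η)) := by
    rw [div_le_iff₀ hNpos]
    have e1 : c * u * (log L) ^ (3 / 2 : ℝ) ≤ L ^ (-(θ - 1 - η)) * N * (log L) ^ (3 / 2 : ℝ) := by
      have e2 : c * u * (log L) ^ (3 / 2 : ℝ) ≤ L * L ^ η := by
        calc c * u * (log L) ^ (3 / 2 : ℝ) = u * (c * (log L) ^ (3 / 2 : ℝ)) := by ring
          _ ≤ L * L ^ η := mul_le_mul u4 k1 (by positivity) hL0.le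
      have e3 : L * L ^ η = L ^ (-(θ - 1 - η)) * L ^ θ := by
        rw [← rpow_add hL0]
        nth_rewrite 1 [← rpow_one L]
        rw [← rpow_add hL0]
        congr 1; ring
      calc c * u * (log L) ^ (3 / 2 : ℝ) ≤ L ^ (-(θ - 1 - η)) * L ^ θ := by rw [← e3]; exact e2
        _ ≤ L ^ (-(θ - 1 - η)) * (N * (log L) ^ (3 / 2 : ℝ)) :=
            mul_le_mul_of_nonneg_left hN (by positivity)
        _ = _ := by ring
    exact le_of_mul_le_mul_right e1 hlp
  have hq0 : 0 ≤ c * u / N := by positivity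
  refine (pow_le_pow_left₀ hq0 hq u).trans ?_
  rw [← rpow_natCast, ← rpow_mul hL0.le, rpow_def_of_pos hL0, rpow_def_of_pos hL0,
    rpow_def_of_pos hD0, ← exp_add]
  apply exp_le_exp.mpr
  -- `log D ≤ (u + 1) (A + η) log L`
  have hb : log (yb A L) ≤ (A + η) * log L := by
    have : log 2 ≤ η * log L := by
      rw [div_le_iff₀ hη0] at k2; linarith
    linarith
  have hAη : 0 < A + η := by linarith
  have h4 : log D ≤ (u + 1) * ((A + η) * log L) :=
    u3.le.trans (mul_le_mul_of_nonneg_left hb (by positivity))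
  have h5 : log D / (A + η) - log L ≤ u * log L := by
    have : log D / (A + η) ≤ (u + 1) * log L := by
      rw [div_le_iff₀ hAη]; linarith
    linarith
  have h6 : 0 ≤ θ - 1 - η := by linarith
  have h7 : (log D / (A + η) - log L) * (θ - 1 - η) ≤ u * log L * (θ - 1 - η) :=
    mul_le_mul_of_nonneg_right h5 h6
  have h8 : (θ - 1) / A - ε ≤ (θ - 1 - η) / (A + η) := by
    rw [sub_le_iff_le_add, div_le_iff₀ hA0]
    have e : ((θ - 1 - η) / (A + η) + ε) * A = (θ - 1 - η) - η * ((θ - 1 - η) / (A + η)) + ε * A := by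
      field_simp
      ring
    rw [e]
    have e1 : (θ - 1 - η) / (A + η) ≤ 1 := by
      rw [div_le_one hAη]; linarith
    have e2 : η * ((θ - 1 - η) / (A + η)) ≤ η := by
      calc η * ((θ - 1 - η) / (A + η)) ≤ η * 1 := mul_le_mul_of_nonneg_left e1 hη0.le
        _ = η := mul_one _
    nlinarith
  have h9 : ((θ - 1) / A - ε) * log D ≤ (θ - 1 - η) / (A + η) * log D :=
    mul_le_mul_of_nonneg_right h8 hDlog
  have h10 : (log D / (A + η) - log L) * (θ - 1 - η) =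
      (θ - 1 - η) / (A + η) * log D - (θ - 1 - η) * log L := by
    field_simp
  rw [h10] at h7
  have h11 : 0 ≤ η * log L := by positivity
  nlinarith

/-- the number of factors is small compared with the number of bases -/
lemma cond (A θ κ : ℝ) (hA : 1 ≤ A) (hθ : 2 ≤ θ) (hκ : 0 < κ) :
    ∃ L0 : ℝ, 3 ≤ L0 ∧ ∀ L : ℝ, L0 ≤ L → ∀ D : ℕ, 1 ≤ D → log D ≤ L → ∀ N : ℝ,
      L ^ θ ≤ N * (log L) ^ (3 / 2 : ℝ) → ∀ u : ℕ, u = Nat.log (yb A L) D →
      (u : ℝ) ^ 2 ≤ κ * N ∧ 1 ≤ κ * N := by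
  have hev : ∀ᶠ L : ℝ in Filter.atTop, 1 / κ ^ 2 ≤ log L :=
    tendsto_log_atTop.eventually (Filter.eventually_ge_atTop _)
  obtain ⟨L2, hL2⟩ := Filter.eventually_atTop.mp hev
  obtain ⟨L1, hL1⟩ := ev_log (1 / κ) 1 (3 / 2) one_pos
  refine ⟨max 3 (max L1 L2), le_max_left _ _, ?_⟩
  intro L hL D hD hDL N hN u hu
  have h3 : 3 ≤ L := (le_max_left _ _).trans hL
  have k1 := hL1 L ((le_max_left _ _).trans ((le_max_right _ _).trans hL))
  have k2 := hL2 L ((le_max_right _ _).trans ((le_max_right _ _).trans hL))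
  have hL0 : 0 < L := by linarith
  obtain ⟨_, _, _, _, u5⟩ := u_facts hA h3 hD hDL hu
  have hlogL : 1 ≤ log L := by
    rw [le_log_iff_exp_le hL0]; linarith [exp_one_lt_d9]
  have hlogL0 : 0 < log L := by linarith
  have hlp : 0 < (log L) ^ (3 / 2 : ℝ) := by positivity
  have hu0 : (0 : ℝ) ≤ u := Nat.cast_nonneg u
  have hL2 : L ^ 2 ≤ N * (log L) ^ (3 / 2 : ℝ) := by
    refine le_trans ?_ hN
    rw [← rpow_natCast]
    apply rpow_le_rpow_of_exponent_le (by linarith)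
    push_cast
    exact hθ
  have hhalf : 1 / κ ≤ (log L) ^ (1 / 2 : ℝ) := by
    rw [← sqrt_eq_rpow]
    apply le_sqrt_of_sq_le
    rw [one_div, inv_pow, ← one_div]
    exact k2
  have hsq : (log L) ^ 2 = (log L) ^ (3 / 2 : ℝ) * (log L) ^ (1 / 2 : ℝ) := by
    rw [← rpow_add hlogL0, ← rpow_natCast]
    norm_num
  constructor
  · have e1 : ((u : ℝ) * log L) ^ 2 ≤ L ^ 2 := pow_le_pow_left₀ (by positivity) u5 2
    have e2 : (u : ℝ) ^ 2 * (log L) ^ (1 / 2 : ℝ) * (log L) ^ (3 / 2 : ℝ) ≤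
        N * (log L) ^ (3 / 2 : ℝ) := by
      calc (u : ℝ) ^ 2 * (log L) ^ (1 / 2 : ℝ) * (log L) ^ (3 / 2 : ℝ) = ((u : ℝ) * log L) ^ 2 := by
            rw [mul_pow, hsq]; ring
        _ ≤ L ^ 2 := e1
        _ ≤ _ := hL2
    have e3 := le_of_mul_le_mul_right e2 hlp
    have e4 : (u : ℝ) ^ 2 * (1 / κ) ≤ (u : ℝ) ^ 2 * (log L) ^ (1 / 2 : ℝ) :=
      mul_le_mul_of_nonneg_left hhalf (by positivity)
    have e5 : (u : ℝ) ^ 2 * (1 / κ) ≤ N := e4.trans e3
    rw [mul_one_div, div_le_iff₀ hκ] at e5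
    linarith
  · rw [rpow_one] at k1
    have e1 : (1 / κ) * (log L) ^ (3 / 2 : ℝ) ≤ N * (log L) ^ (3 / 2 : ℝ) := by
      refine k1.trans (le_trans ?_ hL2)
      nlinarith
    have e2 := le_of_mul_le_mul_right e1 hlp
    rw [div_le_iff₀ hκ] at e2
    linarith

end Pool.Agent.TH725.TS
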