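import Pool.Agent.TH725.TS.Str
import Pool.Agent.Helper112.Arith

set_option autoImplicit false

/-! Counting the composite numbers with many liars in a given set of primes. -/

namespace Pool.Agent.TH725.TS

open Finset Real Pool.Agent.W57.SW Pool.Agent.H379R2.W

open Classical in
/-- the admissible square divisors -/
noncomputable def Ds (x : ℕ) (τ V : ℝ) : Finset ℕ :=
  (Icc 1 x).filter (fun d : ℕ => (d : ℝ) ^ τ ≤ V)

lemma mem_Ds {x d : ℕ} {τ V : ℝ} : d ∈ Ds x τ V ↔ (1 ≤ d ∧ d ≤ x) ∧ (d : ℝ) ^ τ ≤ V := by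
  rw [Ds, mem_filter, mem_Icc]

/-- the covering of the set of bad numbers -/
lemma cover {B : Finset ℕ} {S x n : ℕ} {g η V : ℝ} (hV : 1 ≤ V) (hη : 0 ≤ g + η)
    (hHL : ∀ D : ℕ, 1 ≤ D → D ∣ n → (D : ℝ) ^ (1 - g - η) ≤ (liars n D : ℝ) * V)
    (hb : BadS B S n) (hnx : n ≤ x) :
    (∃ d ∈ Ds x (1 - 2 * g - 2 * η) V, ∃ c ∈ ({1, 2} : Finset ℕ),
      ∃ k ∈ Ex B S (x / (d ^ 2 * c)), d ^ 2 * c * k = n) ∨
    (∃ m ∈ Ex B S x, ∃ d ∈ Ds x (1 - 2 * g - 2 * η) V, ∃ c ∈ ({1, 2} : Finset ℕ),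
      (2 ≤ d ^ 2 * c * m ∧ d ^ 2 * c * m ≤ x) ∧ ∃ e ∈ (d ^ 2 * c * m - 1).divisors,
      ∃ t ∈ range (⌊V * ((x : ℝ) / ((d ^ 2 * c * m : ℕ) : ℝ)) ^ (g + η)⌋₊ + 1),
      (e * t + 1) * (d ^ 2 * c * m) = n) := by
  obtain ⟨hn2, hnp, P, hPB, hP, hcard⟩ := hb
  obtain ⟨d, c, k, hn, hc, hkodd, hksq, hd⟩ := decomp (by omega : 1 ≤ n)
  have hc1 : 1 ≤ c := by rcases hc with h | h <;> omega
  have hcm : c ∈ ({1, 2} : Finset ℕ) := by
    rcases hc with h | h <;> rw [h] <;> decide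
  have hk1 : 1 ≤ k := Nat.pos_of_ne_zero hksq.ne_zero
  have hkn : k ∣ n := ⟨d ^ 2 * c, by rw [hn, mul_comm]⟩
  have hd2n : d ^ 2 ∣ n := ⟨c * k, by rw [hn, mul_assoc]⟩
  have hd2pos : 1 ≤ d ^ 2 := Nat.one_le_pow _ _ hd
  have hd0 : (0 : ℝ) < d := by exact_mod_cast hd
  have hV0 : 0 < V := by linarith
  have hdDs : d ∈ Ds x (1 - 2 * g - 2 * η) V := by
    rw [mem_Ds]
    have hdn : d ≤ n := by
      have h1 : d ≤ d ^ 2 := by rw [sq]; exact Nat.le_mul_of_pos_left d hd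
      exact h1.trans (Nat.le_of_dvd (by omega) hd2n)
    refine ⟨⟨hd, hdn.trans hnx⟩, ?_⟩
    have h1 := hHL (d ^ 2) hd2pos hd2n
    have h2 : (liars n (d ^ 2) : ℝ) ≤ d := by exact_mod_cast liars_sq_gen hn2 hd hd2n
    have h3 : ((d ^ 2 : ℕ) : ℝ) ^ (1 - g - η) = (d : ℝ) * (d : ℝ) ^ (1 - 2 * g - 2 * η) := by
      push_cast
      rw [← rpow_natCast, ← rpow_mul hd0.le]
      nth_rewrite 2 [← rpow_one (d : ℝ)]
      rw [← rpow_add hd0]
      congr 1
      push_cast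
      ring
    rw [h3] at h1
    have h4 : (d : ℝ) * (d : ℝ) ^ (1 - 2 * g - 2 * η) ≤ d * V :=
      h1.trans (mul_le_mul_of_nonneg_right h2 hV0.le)
    exact le_of_mul_le_mul_left h4 hd0
  rcases struct hn2 hksq hkodd hkn hP with h | h
  · left
    refine ⟨d, hdDs, c, hcm, k, ?_, hn.symm⟩
    apply mem_Ex_of hPB hcard hk1 _ hkodd hksq h
    rw [Nat.le_div_iff_mul_le (by positivity), mul_comm]
    rw [← hn]; exact hnx
  · right
    obtain ⟨p, m, hp, hkm, hm⟩ := h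
    have hm0 : m ≠ 0 := by rintro rfl; rw [mul_zero] at hkm; omega
    have hm1 : 1 ≤ m := Nat.pos_of_ne_zero hm0
    have hmk : m ∣ k := ⟨p, by rw [hkm, mul_comm]⟩
    obtain ⟨a, ha⟩ : ∃ a, a = d ^ 2 * c * m := ⟨_, rfl⟩
    have hna : n = p * a := by rw [hn, hkm, ha]; ring
    have ha0 : 1 ≤ a := by rw [ha]; exact Nat.mul_pos (Nat.mul_pos hd2pos hc1) hm1
    have ha2 : 2 ≤ a := by
      by_contra hlt
      have : a = 1 := by omega
      rw [this, mul_one] at hna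
      exact hnp (hna ▸ hp)
    have hax : a ≤ x := by
      have : a ≤ n := by rw [hna]; exact Nat.le_mul_of_pos_left a hp.pos
      omega
    refine ⟨m, ?_, d, hdDs, c, hcm, ⟨ha ▸ ha2, ha ▸ hax⟩, ?_⟩
    · apply mem_Ex_of hPB hcard hm1 _ (Odd.of_dvd_nat hkodd hmk) (hksq.squarefree_of_dvd hmk) hm
      exact (Nat.le_of_dvd (by omega) (hmk.trans hkn)).trans hnx
    · rw [← ha]
      obtain ⟨e, he⟩ : ∃ e, e = Nat.gcd (p - 1) (a - 1) := ⟨_, rfl⟩
      have he1 : e ∣ p - 1 := by rw [he]; exact Nat.gcd_dvd_left _ _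
      have he2 : e ∣ a - 1 := by rw [he]; exact Nat.gcd_dvd_right _ _
      obtain ⟨t, ht⟩ := he1
      have hp1 : e * t + 1 = p := by rw [← ht]; exact Nat.sub_add_cancel hp.one_lt.le
      refine ⟨e, Nat.mem_divisors.mpr ⟨he2, by omega⟩, t, ?_, by rw [hp1, hna]⟩
      rw [mem_range, Nat.lt_succ_iff]
      apply Nat.le_floor
      have hpn : p ∣ n := ⟨a, hna⟩
      have g1 := hHL p hp.one_lt.le hpn
      have g2 := liars_prime hn2 hp (n := n)
      have g3 : Nat.gcd (p - 1) (n - 1) = e := by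
        have e1 : n - 1 = (a - 1) + (p - 1) * a := by
          rw [hna]
          obtain ⟨q', rfl⟩ : ∃ q', p = q' + 1 := ⟨p - 1, by have := hp.two_le; omega⟩
          obtain ⟨m', rfl⟩ : ∃ m', a = m' + 1 := ⟨a - 1, by omega⟩
          simp only [Nat.add_sub_cancel]
          rw [show (q' + 1) * (m' + 1) = m' + q' * (m' + 1) + 1 by ring]
          omega
        rw [e1, Nat.gcd_add_mul_left_right, he]
      rw [g3] at g2
      have g4 : (liars n p : ℝ) ≤ e := by exact_mod_cast g2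
      have hp0 : (0 : ℝ) < p := by exact_mod_cast hp.pos
      have ha0' : (0 : ℝ) < a := by exact_mod_cast ha0
      have g5 : (p : ℝ) ^ (1 - g - η) ≤ e * V := g1.trans (mul_le_mul_of_nonneg_right g4 hV0.le)
      have g6 : (e : ℝ) * t ≤ p := by
        have : e * t ≤ p := by omega
        exact_mod_cast this
      have g7 : (p : ℝ) ^ (1 - g - η) * t ≤ p * V := by
        calc (p : ℝ) ^ (1 - g - η) * t ≤ e * V * t :=
              mul_le_mul_of_nonneg_right g5 (Nat.cast_nonneg t)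
          _ = (e * t) * V := by ring
          _ ≤ p * V := mul_le_mul_of_nonneg_right g6 hV0.le
      have g8 : (p : ℝ) * V = (p : ℝ) ^ (1 - g - η) * (V * (p : ℝ) ^ (g + η)) := by
        have : (p : ℝ) ^ (1 - g - η) * (p : ℝ) ^ (g + η) = p := by
          rw [← rpow_add hp0, show 1 - g - η + (g + η) = 1 by ring, rpow_one]
        nth_rewrite 1 [← this]
        ring
      rw [g8] at g7
      have g9 := le_of_mul_le_mul_left g7 (by positivity)
      refine g9.trans (mul_le_mul_of_nonneg_left ?_ hV0.le)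
      apply rpow_le_rpow hp0.le _ hη
      rw [le_div_iff₀ ha0']
      have : p * a ≤ x := by rw [← hna]; exact hnx
      exact_mod_cast this

/-- the sum over the admissible square divisors -/
lemma sum_Ds {x : ℕ} {g η V : ℝ} (hV : 0 ≤ V) (hη : 0 < η) :
    ∑ d ∈ Ds x (1 - 2 * g - 2 * η) V, (d : ℝ) ^ (-(2 * (g + 2 * η))) ≤
      V * ∑' k : ℕ, (k : ℝ) ^ (-(1 + 2 * η)) := by
  have hsum : Summable fun k : ℕ => (k : ℝ) ^ (-(1 + 2 * η)) :=
    Real.summable_nat_rpow.mpr (by linarith)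
  have h1 : ∀ d ∈ Ds x (1 - 2 * g - 2 * η) V, (d : ℝ) ^ (-(2 * (g + 2 * η))) ≤
      V * (d : ℝ) ^ (-(1 + 2 * η)) := by
    intro d hd
    rw [mem_Ds] at hd
    have hd0 : (0 : ℝ) < d := by exact_mod_cast hd.1.1
    have e : (d : ℝ) ^ (-(2 * (g + 2 * η))) =
        (d : ℝ) ^ (1 - 2 * g - 2 * η) * (d : ℝ) ^ (-(1 + 2 * η)) := by
      rw [← rpow_add hd0]; congr 1; ring
    rw [e]
    exact mul_le_mul_of_nonneg_right hd.2 (by positivity)
  refine (sum_le_sum h1).trans ?_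
  rw [← mul_sum]
  apply mul_le_mul_of_nonneg_left _ hV
  exact hsum.sum_le_tsum _ fun k _ => by positivity

end Pool.Agent.TH725.TS
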