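import Pool.Agent.TH725.TS.Cnt

set_option autoImplicit false

/-! The main counting theorem. -/

namespace Pool.Agent.TH725.TS

open Finset Real Pool.Agent.W57.SW Pool.Agent.H379R2.W

lemma sum_helper1 (D : Finset ℕ) (v : ℕ → ℝ) (a : ℝ) :
    ∑ i ∈ D ×ˢ ({1, 2} : Finset ℕ), a * v i.1 = 2 * a * ∑ d ∈ D, v d := by
  rw [sum_product, mul_sum]
  apply sum_congr rfl
  intro d _
  have h : ∑ y ∈ ({1, 2} : Finset ℕ), a * v ((d, y) : ℕ × ℕ).1 =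
      ∑ _y ∈ ({1, 2} : Finset ℕ), a * v d := rfl
  rw [h, sum_const, card_pair (by norm_num)]
  simp
  ring

lemma sum_helper2 (E D : Finset ℕ) (u v : ℕ → ℝ) (a : ℝ) :
    ∑ i ∈ E ×ˢ (D ×ˢ ({1, 2} : Finset ℕ)), a * (u i.1 * v i.2.1) =
      2 * a * (∑ m ∈ E, u m) * ∑ d ∈ D, v d := by
  rw [sum_product]
  have h : ∀ m ∈ E, ∑ j ∈ D ×ˢ ({1, 2} : Finset ℕ), a * (u m * v j.1) =
      2 * a * (∑ d ∈ D, v d) * u m := by
    intro m _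
    have h1 := sum_helper1 D v (a * u m)
    have h2 : ∑ j ∈ D ×ˢ ({1, 2} : Finset ℕ), a * (u m * v j.1) =
        ∑ j ∈ D ×ˢ ({1, 2} : Finset ℕ), a * u m * v j.1 :=
      sum_congr rfl fun j _ => by ring
    rw [h2, h1]
    ring
  have h' : ∑ m ∈ E, ∑ j ∈ D ×ˢ ({1, 2} : Finset ℕ), a * (u m * v j.1) =
      ∑ m ∈ E, 2 * a * (∑ d ∈ D, v d) * u m := sum_congr rfl h
  have h'' : ∑ x ∈ E, ∑ y ∈ D ×ˢ ({1, 2} : Finset ℕ),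
      a * (u ((x, y) : ℕ × (ℕ × ℕ)).1 * v ((x, y) : ℕ × (ℕ × ℕ)).2.1) =
      ∑ m ∈ E, ∑ j ∈ D ×ˢ ({1, 2} : Finset ℕ), a * (u m * v j.1) := rfl
  rw [h'', h', ← mul_sum]
  ring

lemma U1_bound (x : ℕ) (D : Finset ℕ) (hD : ∀ d ∈ D, 1 ≤ d) (F : ℕ → Finset ℕ) (C α σ : ℝ)
    (hF0 : F 0 = ∅) (hF : ∀ X : ℕ, 1 ≤ X → X ≤ x → ((F X).card : ℝ) ≤ C * (X : ℝ) ^ α)
    (hα : 0 ≤ α) (hασ : α ≤ σ) (hC : 0 ≤ C) :
    ((((D ×ˢ ({1, 2} : Finset ℕ)).biUnion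
      (fun i => (F (x / (i.1 ^ 2 * i.2))).image (fun k => i.1 ^ 2 * i.2 * k))).card : ℕ) : ℝ) ≤
      2 * (C * (x : ℝ) ^ σ) * ∑ d ∈ D, (d : ℝ) ^ (-(2 * σ)) := by
  have e1 : ((((D ×ˢ ({1, 2} : Finset ℕ)).biUnion
      (fun i => (F (x / (i.1 ^ 2 * i.2))).image (fun k => i.1 ^ 2 * i.2 * k))).card : ℕ) : ℝ) ≤
      ∑ i ∈ D ×ˢ ({1, 2} : Finset ℕ), ((F (x / (i.1 ^ 2 * i.2))).card : ℝ) := by
    have : ((D ×ˢ ({1, 2} : Finset ℕ)).biUnion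
      (fun i => (F (x / (i.1 ^ 2 * i.2))).image (fun k => i.1 ^ 2 * i.2 * k))).card ≤
        ∑ i ∈ D ×ˢ ({1, 2} : Finset ℕ), (F (x / (i.1 ^ 2 * i.2))).card :=
      card_biUnion_le.trans (sum_le_sum fun i _ => card_image_le)
    exact_mod_cast this
  have e2 : ∀ i ∈ D ×ˢ ({1, 2} : Finset ℕ), ((F (x / (i.1 ^ 2 * i.2))).card : ℝ) ≤
      (C * (x : ℝ) ^ σ) * (i.1 : ℝ) ^ (-(2 * σ)) := by
    rintro ⟨d, c⟩ hi
    rw [mem_product] at hi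
    have hd1 := hD d hi.1
    have hc1 : 1 ≤ c := by
      have := hi.2
      simp only [mem_insert, mem_singleton] at this
      omega
    show ((F (x / (d ^ 2 * c))).card : ℝ) ≤ (C * (x : ℝ) ^ σ) * (d : ℝ) ^ (-(2 * σ))
    have hd0 : (0 : ℝ) < d := by exact_mod_cast hd1
    obtain ⟨X, hX⟩ : ∃ X, X = x / (d ^ 2 * c) := ⟨_, rfl⟩
    rw [← hX]
    rcases Nat.eq_zero_or_pos X with h0 | h0
    · rw [h0, hF0, card_empty]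
      push_cast
      positivity
    · have hXx : X ≤ x := by rw [hX]; exact Nat.div_le_self _ _
      refine (hF X h0 hXx).trans ?_
      have hxpos : (0 : ℝ) < x := by exact_mod_cast (lt_of_lt_of_le h0 hXx)
      have h0r : (1 : ℝ) ≤ X := by exact_mod_cast h0
      have f1 : (X : ℝ) ≤ (x : ℝ) / (d : ℝ) ^ 2 := by
        rw [le_div_iff₀ (by positivity)]
        have f2 : X * d ^ 2 ≤ x := by
          calc X * d ^ 2 ≤ X * (d ^ 2 * c) := Nat.mul_le_mul_left _ (Nat.le_mul_of_pos_right _ hc1)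
            _ ≤ x := by rw [hX]; exact Nat.div_mul_le_self _ _
        exact_mod_cast f2
      have f3 : (X : ℝ) ^ α ≤ ((x : ℝ) / (d : ℝ) ^ 2) ^ σ :=
        (rpow_le_rpow (by positivity) f1 hα).trans
          (rpow_le_rpow_of_exponent_le (h0r.trans f1) hασ)
      have f4 : ((x : ℝ) / (d : ℝ) ^ 2) ^ σ = (x : ℝ) ^ σ * (d : ℝ) ^ (-(2 * σ)) := by
        rw [div_rpow hxpos.le (by positivity), ← rpow_natCast, ← rpow_mul hd0.le, rpow_neg hd0.le]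
        push_cast
        rw [div_eq_mul_inv]
      rw [f4] at f3
      calc C * (X : ℝ) ^ α ≤ C * ((x : ℝ) ^ σ * (d : ℝ) ^ (-(2 * σ))) :=
            mul_le_mul_of_nonneg_left f3 hC
        _ = _ := by ring
  refine e1.trans ((sum_le_sum e2).trans (le_of_eq ?_))
  exact sum_helper1 D (fun d => (d : ℝ) ^ (-(2 * σ))) (C * (x : ℝ) ^ σ)

lemma U2_term (x : ℕ) (a m d : ℕ) (Cτ η V g σ : ℝ) (hη : 0 ≤ η) (hCτ : 0 < Cτ) (hV1 : 1 ≤ V)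
    (hdiv : ((a - 1).divisors.card : ℝ) ≤ Cτ * ((a - 1 : ℕ) : ℝ) ^ η) (hσ0 : 0 ≤ σ)
    (hgσ : g + η ≤ σ) (hd1 : 1 ≤ d) (hm1 : 1 ≤ m) (ha2 : 2 ≤ a) (hax : a ≤ x)
    (hadm : d ^ 2 * m ≤ a) :
    ((a - 1).divisors.card : ℝ) * ((⌊V * ((x : ℝ) / (a : ℝ)) ^ (g + η)⌋₊ + 1 : ℕ) : ℝ) ≤
      (2 * Cτ * (x : ℝ) ^ η * V * (x : ℝ) ^ σ) * ((m : ℝ) ^ (-σ) * (d : ℝ) ^ (-(2 * σ))) := by
  have hV0 : 0 < V := by linarith
  have hd0 : (0 : ℝ) < d := by exact_mod_cast hd1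
  have hm0 : (0 : ℝ) < m := by exact_mod_cast hm1
  have ha0 : (0 : ℝ) < a := by exact_mod_cast (by omega : 0 < a)
  have hxpos : (0 : ℝ) < x := by exact_mod_cast (by omega : 0 < x)
  have haxr : (a : ℝ) ≤ x := by exact_mod_cast hax
  have hxa : 1 ≤ (x : ℝ) / a := by rw [one_le_div ha0]; exact haxr
  have d1 : ((a - 1).divisors.card : ℝ) ≤ Cτ * (x : ℝ) ^ η := by
    refine hdiv.trans ?_
    apply mul_le_mul_of_nonneg_left _ hCτ.le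
    apply rpow_le_rpow (Nat.cast_nonneg _) _ hη
    have : a - 1 ≤ x := by omega
    exact_mod_cast this
  have d2 : ((⌊V * ((x : ℝ) / (a : ℝ)) ^ (g + η)⌋₊ + 1 : ℕ) : ℝ) ≤ 2 * V * ((x : ℝ) / a) ^ σ := by
    have f1 : ((⌊V * ((x : ℝ) / a) ^ (g + η)⌋₊ : ℕ) : ℝ) ≤ V * ((x : ℝ) / a) ^ (g + η) :=
      Nat.floor_le (by positivity)
    have f2 : ((x : ℝ) / a) ^ (g + η) ≤ ((x : ℝ) / a) ^ σ :=
      rpow_le_rpow_of_exponent_le hxa hgσ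
    have f3 : V * ((x : ℝ) / a) ^ (g + η) ≤ V * ((x : ℝ) / a) ^ σ :=
      mul_le_mul_of_nonneg_left f2 hV0.le
    have f4 : 1 ≤ ((x : ℝ) / a) ^ σ := one_le_rpow hxa hσ0
    have f5 : 1 ≤ V * ((x : ℝ) / a) ^ σ := one_le_mul_of_one_le_of_one_le hV1 f4
    push_cast
    linarith
  have d3 : ((x : ℝ) / a) ^ σ ≤ (x : ℝ) ^ σ * ((m : ℝ) ^ (-σ) * (d : ℝ) ^ (-(2 * σ))) := by
    rw [div_rpow hxpos.le ha0.le, div_eq_mul_inv, ← rpow_neg ha0.le]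
    apply mul_le_mul_of_nonneg_left _ (by positivity)
    have f1 : (d : ℝ) ^ 2 * m ≤ a := by exact_mod_cast hadm
    have f2 : (a : ℝ) ^ (-σ) ≤ ((d : ℝ) ^ 2 * m) ^ (-σ) :=
      rpow_le_rpow_of_nonpos (by positivity) f1 (by linarith)
    refine f2.trans (le_of_eq ?_)
    rw [mul_rpow (by positivity) hm0.le, ← rpow_natCast, ← rpow_mul hd0.le, mul_comm]
    congr 2
    push_cast
    ring
  calc ((a - 1).divisors.card : ℝ) * ((⌊V * ((x : ℝ) / (a : ℝ)) ^ (g + η)⌋₊ + 1 : ℕ) : ℝ) ≤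
      (Cτ * (x : ℝ) ^ η) * (2 * V * ((x : ℝ) / a) ^ σ) :=
        mul_le_mul d1 d2 (Nat.cast_nonneg _) (by positivity)
    _ ≤ (Cτ * (x : ℝ) ^ η) *
        (2 * V * ((x : ℝ) ^ σ * ((m : ℝ) ^ (-σ) * (d : ℝ) ^ (-(2 * σ))))) := by
        apply mul_le_mul_of_nonneg_left _ (by positivity)
        exact mul_le_mul_of_nonneg_left d3 (by positivity)
    _ = _ := by ring

lemma U2_card (J : Finset (ℕ × (ℕ × ℕ))) (fl : ℕ → ℕ) :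
    (J.biUnion
    (fun i => (i.2.1 ^ 2 * i.2.2 * i.1 - 1).divisors.biUnion
      (fun e => (range (fl (i.2.1 ^ 2 * i.2.2 * i.1))).image
        (fun t => (e * t + 1) * (i.2.1 ^ 2 * i.2.2 * i.1))))).card ≤
    ∑ i ∈ J, (i.2.1 ^ 2 * i.2.2 * i.1 - 1).divisors.card * fl (i.2.1 ^ 2 * i.2.2 * i.1) := by
  refine card_biUnion_le.trans (sum_le_sum fun i _ => ?_)
  refine card_biUnion_le.trans ?_
  obtain ⟨a, ha⟩ : ∃ a, a = i.2.1 ^ 2 * i.2.2 * i.1 := ⟨_, rfl⟩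
  rw [← ha]
  have h : ∀ e ∈ (a - 1).divisors, ((range (fl a)).image (fun t => (e * t + 1) * a)).card ≤ fl a :=
    fun e _ => card_image_le.trans (le_of_eq (card_range _))
  refine (sum_le_sum h).trans (le_of_eq ?_)
  rw [sum_const, smul_eq_mul]

lemma U2_bound (x : ℕ) (E D : Finset ℕ) (J : Finset (ℕ × (ℕ × ℕ))) (fl : ℕ → ℕ)
    (Cτ η V g σ : ℝ) (hη : 0 ≤ η) (hCτ : 0 < Cτ) (hV1 : 1 ≤ V)
    (hdiv : ∀ n : ℕ, 1 ≤ n → (n.divisors.card : ℝ) ≤ Cτ * (n : ℝ) ^ η) (hσ0 : 0 ≤ σ)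
    (hgσ : g + η ≤ σ) (hD : ∀ d ∈ D, 1 ≤ d) (hE : ∀ m ∈ E, 1 ≤ m)
    (hfl : ∀ a : ℕ, fl a = ⌊V * ((x : ℝ) / (a : ℝ)) ^ (g + η)⌋₊ + 1)
    (hJ : J = (E ×ˢ (D ×ˢ ({1, 2} : Finset ℕ))).filter
      (fun i => 2 ≤ i.2.1 ^ 2 * i.2.2 * i.1 ∧ i.2.1 ^ 2 * i.2.2 * i.1 ≤ x)) :
    (((J.biUnion
    (fun i => (i.2.1 ^ 2 * i.2.2 * i.1 - 1).divisors.biUnion
      (fun e => (range (fl (i.2.1 ^ 2 * i.2.2 * i.1))).image
        (fun t => (e * t + 1) * (i.2.1 ^ 2 * i.2.2 * i.1))))).card : ℕ) : ℝ) ≤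
      2 * (2 * Cτ * (x : ℝ) ^ η * V * (x : ℝ) ^ σ) * (∑ m ∈ E, (m : ℝ) ^ (-σ)) *
        ∑ d ∈ D, (d : ℝ) ^ (-(2 * σ)) := by
  have e1 : (((J.biUnion
    (fun i => (i.2.1 ^ 2 * i.2.2 * i.1 - 1).divisors.biUnion
      (fun e => (range (fl (i.2.1 ^ 2 * i.2.2 * i.1))).image
        (fun t => (e * t + 1) * (i.2.1 ^ 2 * i.2.2 * i.1))))).card : ℕ) : ℝ) ≤
      ∑ i ∈ J, ((i.2.1 ^ 2 * i.2.2 * i.1 - 1).divisors.card : ℝ) *
        (fl (i.2.1 ^ 2 * i.2.2 * i.1) : ℝ) := by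
    have := U2_card J fl
    have h : ((∑ i ∈ J, (i.2.1 ^ 2 * i.2.2 * i.1 - 1).divisors.card *
        fl (i.2.1 ^ 2 * i.2.2 * i.1) : ℕ) : ℝ) = ∑ i ∈ J,
        ((i.2.1 ^ 2 * i.2.2 * i.1 - 1).divisors.card : ℝ) *
        (fl (i.2.1 ^ 2 * i.2.2 * i.1) : ℝ) := by
      rw [Nat.cast_sum]
      exact sum_congr rfl fun i _ => Nat.cast_mul _ _
    rw [← h]
    exact Nat.cast_le.mpr this
  have e2 : ∀ i ∈ J, ((i.2.1 ^ 2 * i.2.2 * i.1 - 1).divisors.card : ℝ) *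
        (fl (i.2.1 ^ 2 * i.2.2 * i.1) : ℝ) ≤
      (2 * Cτ * (x : ℝ) ^ η * V * (x : ℝ) ^ σ) *
        ((i.1 : ℝ) ^ (-σ) * (i.2.1 : ℝ) ^ (-(2 * σ))) := by
    rintro ⟨m, d, c⟩ hi
    rw [hJ, mem_filter, mem_product, mem_product] at hi
    obtain ⟨⟨hm, hd, hc⟩, ha2, hax⟩ := hi
    have hc' : c ∈ ({1, 2} : Finset ℕ) := hc
    have hc1 : 1 ≤ c := by
      simp only [mem_insert, mem_singleton] at hc'
      omega
    have hd1 : 1 ≤ d := hD d hd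
    have hm1 : 1 ≤ m := hE m hm
    show (((d ^ 2 * c * m - 1).divisors.card : ℕ) : ℝ) * ((fl (d ^ 2 * c * m) : ℕ) : ℝ) ≤
      (2 * Cτ * (x : ℝ) ^ η * V * (x : ℝ) ^ σ) * ((m : ℝ) ^ (-σ) * (d : ℝ) ^ (-(2 * σ)))
    have ha2' : 2 ≤ d ^ 2 * c * m := ha2
    have hax' : d ^ 2 * c * m ≤ x := hax
    rw [hfl]
    apply U2_term x (d ^ 2 * c * m) m d Cτ η V g σ hη hCτ hV1 (hdiv _ (by omega)) hσ0 hgσ hd1 hm1
      ha2' hax'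
    rw [mul_assoc]
    exact Nat.mul_le_mul_left _ (Nat.le_mul_of_pos_left m hc1)
  refine e1.trans ((sum_le_sum e2).trans ?_)
  have e3 : ∑ i ∈ J, (2 * Cτ * (x : ℝ) ^ η * V * (x : ℝ) ^ σ) *
        ((i.1 : ℝ) ^ (-σ) * (i.2.1 : ℝ) ^ (-(2 * σ))) ≤
      ∑ i ∈ E ×ˢ (D ×ˢ ({1, 2} : Finset ℕ)), (2 * Cτ * (x : ℝ) ^ η * V * (x : ℝ) ^ σ) *
        ((i.1 : ℝ) ^ (-σ) * (i.2.1 : ℝ) ^ (-(2 * σ))) := by
    apply sum_le_sum_of_subset_of_nonneg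
    · rw [hJ]; exact filter_subset _ _
    · intro i _ _
      have hV0 : 0 < V := by linarith
      positivity
  refine e3.trans (le_of_eq ?_)
  exact sum_helper2 E D (fun m => (m : ℝ) ^ (-σ)) (fun d => (d : ℝ) ^ (-(2 * σ)))
    (2 * Cτ * (x : ℝ) ^ η * V * (x : ℝ) ^ σ)

open Classical in
/-- **The main count.** -/
theorem main_count (A θ δ ε : ℝ) (hθ : 2 ≤ θ) (hθA : θ ≤ A) (hδ : 0 < δ) (hε : 0 < ε) :
    ∃ K L0 : ℝ, 0 < K ∧ 3 ≤ L0 ∧ ∀ x : ℕ, L0 ≤ log x → ∀ B : Finset ℕ, (∀ p ∈ B, p.Prime) →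
      (∀ p ∈ B, p ≤ yb A (log x)) →
      (log (x : ℝ)) ^ θ ≤ (B.card : ℝ) * (log (log x)) ^ (3 / 2 : ℝ) → ∀ S : ℕ,
      δ * B.card ≤ S →
      (((Icc 1 x).filter (BadS B S)).card : ℝ) ≤ K * (x : ℝ) ^ (1 - (θ - 1) / A + ε) := by
  have hA0 : 0 < A := by linarith
  obtain ⟨η, hη⟩ : ∃ η : ℝ, η = ε / 4 := ⟨_, rfl⟩
  have hη0 : 0 < η := by rw [hη]; positivity
  obtain ⟨g, hg⟩ : ∃ g : ℝ, g = 1 - (θ - 1) / A := ⟨_, rfl⟩
  have hg0 : 0 < g := by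
    rw [hg, sub_pos, div_lt_one hA0]; linarith
  obtain ⟨α, hα⟩ : ∃ α : ℝ, α = g + η := ⟨_, rfl⟩
  obtain ⟨σ, hσ⟩ : ∃ σ : ℝ, σ = g + 2 * η := ⟨_, rfl⟩
  have hα0 : 0 < α := by rw [hα]; positivity
  have hσ0 : 0 < σ := by rw [hσ]; positivity
  have hασ : α < σ := by rw [hα, hσ]; linarith
  obtain ⟨K1, L1, hK1, hL1, hE⟩ := ex_count A θ δ η hθ hθA hδ hη0
  obtain ⟨L2, hL2, hG⟩ := liars_low A θ η hθ hθA hη0
  obtain ⟨Cτ, hCτ, hdiv⟩ := Helper112.divisor_bound η hη0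
  obtain ⟨K2, hK2⟩ : ∃ K2, K2 = max K1 1 := ⟨_, rfl⟩
  have hK21 : 1 ≤ K2 := by rw [hK2]; exact le_max_right _ _
  have hK12 : K1 ≤ K2 := by rw [hK2]; exact le_max_left _ _
  obtain ⟨Z1, hZ1⟩ : ∃ Z1 : ℝ, Z1 = ∑' k : ℕ, (k : ℝ) ^ (-(1 + 2 * η)) := ⟨_, rfl⟩
  obtain ⟨Z2, hZ2⟩ : ∃ Z2 : ℝ, Z2 = ∑' k : ℕ, (k : ℝ) ^ (-(σ / α)) := ⟨_, rfl⟩
  have hZ10 : 0 ≤ Z1 := by rw [hZ1]; exact tsum_nonneg fun k => by positivity
  have hZ20 : 0 ≤ Z2 := by rw [hZ2]; exact tsum_nonneg fun k => by positivity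
  have hev : ∀ᶠ L : ℝ in Filter.atTop, L ^ (4 * (θ - 1)) ≤ exp (η * L) := by
    have h := (isLittleO_rpow_exp_pos_mul_atTop (4 * (θ - 1)) hη0).def one_pos
    filter_upwards [h, Filter.eventually_ge_atTop 0] with L h1 h2
    rwa [one_mul, norm_of_nonneg (rpow_nonneg h2 _), norm_of_nonneg (exp_pos _).le] at h1
  obtain ⟨L3, hL3⟩ := Filter.eventually_atTop.mp hev
  refine ⟨2 * K2 * Z1 + 4 * Cτ * K2 ^ 2 * Z1 * Z2 + 1, max L1 (max L2 L3), by positivity,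
    hL1.trans (le_max_left _ _), ?_⟩
  intro x hx B hBp hBy hB S hS
  obtain ⟨L, hL⟩ : ∃ L : ℝ, L = log x := ⟨_, rfl⟩
  rw [← hL] at hx hBy hB
  have c1 : L1 ≤ L := (le_max_left _ _).trans hx
  have c2 : L2 ≤ L := (le_max_left _ _).trans ((le_max_right _ _).trans hx)
  have c3 : L3 ≤ L := (le_max_right _ _).trans ((le_max_right _ _).trans hx)
  have h3 : 3 ≤ L := hL1.trans c1
  have hL0 : 0 < L := by linarith
  have hx0 : x ≠ 0 := by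
    rintro rfl
    rw [Nat.cast_zero, log_zero] at hL
    linarith
  have hx1 : 1 ≤ x := Nat.one_le_iff_ne_zero.mpr hx0
  have hx1r : (1 : ℝ) ≤ x := by exact_mod_cast hx1
  have hxpos : (0 : ℝ) < x := by linarith
  obtain ⟨V, hV⟩ : ∃ V : ℝ, V = L ^ (θ - 1) := ⟨_, rfl⟩
  have hV1 : 1 ≤ V := by rw [hV]; exact one_le_rpow (by linarith) (by linarith)
  have hV0 : 0 < V := by linarith
  have hlogle : ∀ D : ℕ, 1 ≤ D → D ≤ x → log (D : ℝ) ≤ L := by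
    intro D hD1 hD
    rw [hL]
    exact log_le_log (by exact_mod_cast hD1) (by exact_mod_cast hD)
  have hE' : ∀ X : ℕ, 1 ≤ X → X ≤ x → ((Ex B S X).card : ℝ) ≤ K2 * V * (X : ℝ) ^ α := by
    intro X hX1 hX
    have h1 := hE L c1 B hBp hBy hB S hS X hX1 (hlogle X hX1 hX)
    rw [← hg, ← hα, ← hV] at h1
    refine h1.trans ?_
    gcongr
  obtain ⟨Dset, hDset⟩ : ∃ Dset, Dset = Ds x (1 - 2 * g - 2 * η) V := ⟨_, rfl⟩
  have hDsum : ∑ d ∈ Dset, (d : ℝ) ^ (-(2 * σ)) ≤ V * Z1 := by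
    rw [hDset, hZ1, hσ]; exact sum_Ds hV0.le hη0
  have hDmem : ∀ d ∈ Dset, 1 ≤ d := by
    intro d hd; rw [hDset, mem_Ds] at hd; exact hd.1.1
  obtain ⟨E, hEE⟩ : ∃ E, E = Ex B S x := ⟨_, rfl⟩
  have hEmem : ∀ m ∈ E, 1 ≤ m ∧ m ≤ x := by
    intro m hm; rw [hEE, mem_Ex] at hm; exact hm.1
  -- the covering
  obtain ⟨U1, hU1⟩ : ∃ U1 : Finset ℕ, U1 = (Dset ×ˢ ({1, 2} : Finset ℕ)).biUnion
    (fun i => (Ex B S (x / (i.1 ^ 2 * i.2))).image (fun k => i.1 ^ 2 * i.2 * k)) := ⟨_, rfl⟩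
  obtain ⟨J, hJ⟩ : ∃ J : Finset (ℕ × (ℕ × ℕ)), J = (E ×ˢ (Dset ×ˢ ({1, 2} : Finset ℕ))).filter
    (fun i => 2 ≤ i.2.1 ^ 2 * i.2.2 * i.1 ∧ i.2.1 ^ 2 * i.2.2 * i.1 ≤ x) := ⟨_, rfl⟩
  obtain ⟨fl, hfl⟩ : ∃ fl : ℕ → ℕ, ∀ a, fl a = ⌊V * ((x : ℝ) / (a : ℝ)) ^ (g + η)⌋₊ + 1 :=
    ⟨_, fun _ => rfl⟩
  obtain ⟨U2, hU2⟩ : ∃ U2 : Finset ℕ, U2 = J.biUnion
    (fun i => (i.2.1 ^ 2 * i.2.2 * i.1 - 1).divisors.biUnion
      (fun e => (range (fl (i.2.1 ^ 2 * i.2.2 * i.1))).image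
        (fun t => (e * t + 1) * (i.2.1 ^ 2 * i.2.2 * i.1)))) := ⟨_, rfl⟩
  have hcover : (Icc 1 x).filter (BadS B S) ⊆ U1 ∪ U2 := by
    intro n hn
    rw [mem_filter, mem_Icc] at hn
    obtain ⟨⟨hn1, hnx⟩, hb⟩ := hn
    have hHL : ∀ D : ℕ, 1 ≤ D → D ∣ n → (D : ℝ) ^ (1 - g - η) ≤ (liars n D : ℝ) * V := by
      intro D hD hDn
      obtain ⟨_, _, P, hPB, hP, hcard⟩ := hb
      have hDx : D ≤ x := (Nat.le_of_dvd hn1 hDn).trans hnx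
      have hPc : L ^ θ ≤ 4 * (P.card : ℝ) * (log L) ^ (3 / 2 : ℝ) := by
        refine hB.trans ?_
        have : (B.card : ℝ) ≤ 4 * P.card := by
          have : B.card ≤ 4 * P.card := by omega
          exact_mod_cast this
        apply mul_le_mul_of_nonneg_right this
        exact rpow_nonneg (log_nonneg (by linarith)) _
      have h1 := hG L c2 P (fun p hp => hBp p (hPB hp)) (fun p hp => hBy p (hPB hp)) hPc n hP D hD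
        hDn (hlogle D hD hDx)
      rw [← hV] at h1
      have e : 1 - g - η = (θ - 1) / A - η := by rw [hg]; ring
      rw [e]
      exact h1
    rw [mem_union]
    rcases cover hV1 (by rw [← hα]; exact hα0.le) hHL hb hnx with h | h
    · left
      obtain ⟨d, hd, c, hc, k, hk, hn⟩ := h
      rw [hU1, mem_biUnion]
      refine ⟨(d, c), mem_product.mpr ⟨hDset ▸ hd, hc⟩, ?_⟩
      rw [mem_image]
      exact ⟨k, hk, hn⟩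
    · right
      obtain ⟨m, hm, d, hd, c, hc, hac, e, he, t, ht, hn⟩ := h
      rw [hU2, mem_biUnion]
      refine ⟨(m, (d, c)), ?_, ?_⟩
      · rw [hJ, mem_filter]
        refine ⟨mem_product.mpr ⟨hEE ▸ hm, mem_product.mpr ⟨hDset ▸ hd, hc⟩⟩, hac⟩
      · rw [mem_biUnion]
        refine ⟨e, he, ?_⟩
        rw [mem_image]
        refine ⟨t, ?_, hn⟩
        simp only
        rw [hfl]
        exact ht
  -- the first part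
  have hA1 : (U1.card : ℝ) ≤ 2 * (K2 * V * (x : ℝ) ^ σ) * (V * Z1) := by
    rw [hU1]
    have hF0 : Ex B S 0 = ∅ := by
      rw [Finset.eq_empty_iff_forall_notMem]
      intro m hm
      rw [mem_Ex] at hm
      omega
    refine (U1_bound x Dset hDmem (fun X => Ex B S X) (K2 * V) α σ hF0 hE' hα0.le hασ.le
      (by positivity)).trans ?_
    exact mul_le_mul_of_nonneg_left hDsum (by positivity)
  -- the sum over the exceptional numbers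
  have hR : ∑ m ∈ E, (m : ℝ) ^ (-σ) ≤ (K2 * V) ^ 2 * Z2 := by
    have h1 := rank_sum E (K2 * V) α σ (by positivity) hα0 hασ (fun q hq => (hEmem q hq).1)
      (fun q hq => by
        rw [hEE, Ex_filter (hEmem q hq).2]
        exact hE' q (hEmem q hq).1 (hEmem q hq).2)
    rw [← hZ2] at h1
    refine h1.trans (mul_le_mul_of_nonneg_right ?_ hZ20)
    rw [← rpow_natCast]
    apply rpow_le_rpow_of_exponent_le
    · nlinarith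
    · rw [div_le_iff₀ hα0, hα, hσ]
      push_cast
      linarith
  -- the second part
  have hA2 : (U2.card : ℝ) ≤
      2 * (2 * Cτ * (x : ℝ) ^ η * V * (x : ℝ) ^ σ) * ((K2 * V) ^ 2 * Z2) * (V * Z1) := by
    rw [hU2]
    refine (U2_bound x E Dset J fl Cτ η V g σ hη0.le hCτ hV1 (fun n hn => hdiv n (by omega)) hσ0.le
      (by rw [hσ]; linarith) hDmem (fun m hm => (hEmem m hm).1) hfl hJ).trans ?_
    have hs0 : 0 ≤ ∑ d ∈ Dset, (d : ℝ) ^ (-(2 * σ)) := sum_nonneg fun d _ => by positivity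
    apply mul_le_mul _ hDsum hs0 (by positivity)
    exact mul_le_mul_of_nonneg_left hR (by positivity)
  -- the end
  have hfin := card_le_card hcover
  have h1 : (((Icc 1 x).filter (BadS B S)).card : ℝ) ≤ U1.card + U2.card := by
    exact_mod_cast hfin.trans (card_union_le _ _)
  have hV4 : V ^ 4 ≤ (x : ℝ) ^ η := by
    have h2 := hL3 L c3
    rw [hV, ← rpow_natCast, ← rpow_mul hL0.le]
    have e1 : (θ - 1) * ((4 : ℕ) : ℝ) = 4 * (θ - 1) := by push_cast; ring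
    rw [e1]
    refine h2.trans (le_of_eq ?_)
    rw [rpow_def_of_pos hxpos, hL, mul_comm]
  have hxη : 1 ≤ (x : ℝ) ^ η := one_le_rpow hx1r hη0.le
  have hV2 : V ^ 2 ≤ (x : ℝ) ^ η := by
    refine le_trans ?_ hV4
    exact pow_le_pow_right₀ hV1 (by norm_num)
  have hb1 : 2 * (K2 * V * (x : ℝ) ^ σ) * (V * Z1) ≤ (2 * K2 * Z1) * (x : ℝ) ^ (g + ε) := by
    have e1 : (x : ℝ) ^ η * (x : ℝ) ^ σ ≤ (x : ℝ) ^ (g + ε) := by
      rw [← rpow_add hxpos]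
      apply rpow_le_rpow_of_exponent_le hx1r
      rw [hσ, hη]; linarith
    calc 2 * (K2 * V * (x : ℝ) ^ σ) * (V * Z1) = (2 * K2 * Z1) * (V ^ 2 * (x : ℝ) ^ σ) := by ring
      _ ≤ (2 * K2 * Z1) * ((x : ℝ) ^ η * (x : ℝ) ^ σ) := by gcongr
      _ ≤ _ := by gcongr
  have hb2 : 2 * (2 * Cτ * (x : ℝ) ^ η * V * (x : ℝ) ^ σ) * ((K2 * V) ^ 2 * Z2) * (V * Z1) ≤
      (4 * Cτ * K2 ^ 2 * Z1 * Z2) * (x : ℝ) ^ (g + ε) := by
    have e1 : (x : ℝ) ^ η * (x : ℝ) ^ η * (x : ℝ) ^ σ = (x : ℝ) ^ (g + ε) := by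
      rw [← rpow_add hxpos, ← rpow_add hxpos]
      congr 1
      rw [hσ, hη]; ring
    calc 2 * (2 * Cτ * (x : ℝ) ^ η * V * (x : ℝ) ^ σ) * ((K2 * V) ^ 2 * Z2) * (V * Z1) =
        (4 * Cτ * K2 ^ 2 * Z1 * Z2) * ((x : ℝ) ^ η * V ^ 4 * (x : ℝ) ^ σ) := by ring
      _ ≤ (4 * Cτ * K2 ^ 2 * Z1 * Z2) * ((x : ℝ) ^ η * (x : ℝ) ^ η * (x : ℝ) ^ σ) := by gcongr
      _ = _ := by rw [e1]
  rw [← hg]
  have hpos : 0 ≤ (x : ℝ) ^ (g + ε) := by positivity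
  calc (((Icc 1 x).filter (BadS B S)).card : ℝ) ≤ U1.card + U2.card := h1
    _ ≤ (2 * K2 * Z1) * (x : ℝ) ^ (g + ε) + (4 * Cτ * K2 ^ 2 * Z1 * Z2) * (x : ℝ) ^ (g + ε) := by
        linarith
    _ ≤ _ := by nlinarith

end Pool.Agent.TH725.TS
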