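import Mathlib

set_option autoImplicit false

/-! A combinatorial lemma on families of subsets that meet every plane of even sets. -/

namespace Pool.Agent.TH725.TS

open Finset

variable {α : Type*} [DecidableEq α]

lemma even_symmDiff (T T' M : Finset α) (h : Even (T ∩ M).card) (h' : Even (T' ∩ M).card) :
    Even (symmDiff T T' ∩ M).card := by
  have e : symmDiff T T' ∩ M = symmDiff (T ∩ M) (T' ∩ M) := by
    ext x; simp only [mem_inter, mem_symmDiff]; tauto
  rw [e]
  obtain ⟨a, ha⟩ : ∃ a, a = T ∩ M := ⟨_, rfl⟩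
  obtain ⟨b, hb⟩ : ∃ b, b = T' ∩ M := ⟨_, rfl⟩
  rw [← ha] at h ⊢
  rw [← hb] at h' ⊢
  have h1 : (symmDiff a b).card = (a \ b).card + (b \ a).card := by
    rw [← card_union_of_disjoint]
    · rfl
    · exact disjoint_sdiff_sdiff
  have h2 := card_sdiff_add_card_inter a b
  have h3 := card_sdiff_add_card_inter b a
  rw [inter_comm b a] at h3
  obtain ⟨r, hr⟩ := h
  obtain ⟨r', hr'⟩ := h'
  exact ⟨r + r' - (a ∩ b).card, by omega⟩

lemma gen (Z M : Finset α) (E : Finset α → Prop) (hE0 : E ∅)
    (hcl : ∀ T ⊆ Z, ∀ T' ⊆ Z, Even (T ∩ M).card → Even (T' ∩ M).card → E T → E T' →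
      E (symmDiff T T'))
    (hs : ∀ q ∈ Z, q ∉ M → E {q})
    (hp : ∀ q ∈ Z, ∀ q' ∈ Z, q ∈ M → q' ∈ M → q ≠ q' → E {q, q'}) :
    ∀ k : ℕ, ∀ T ⊆ Z, T.card = k → Even (T ∩ M).card → E T := by
  intro k
  induction k using Nat.strong_induction_on with
  | _ k ih =>
  intro T hTZ hTk hTe
  rcases T.eq_empty_or_nonempty with rfl | hne
  · exact hE0
  by_cases hex : ∃ q ∈ T, q ∉ M
  · obtain ⟨q, hqT, hqM⟩ := hex
    have e1 : symmDiff {q} (T.erase q) = T := by
      ext x
      simp only [mem_symmDiff, mem_singleton, mem_erase]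
      constructor
      · rintro (⟨h, _⟩ | ⟨⟨_, h⟩, _⟩)
        · rw [h]; exact hqT
        · exact h
      · intro h
        by_cases hx : x = q
        · exact Or.inl ⟨hx, fun h' => h'.1 hx⟩
        · exact Or.inr ⟨⟨hx, h⟩, hx⟩
    have e2 : T.erase q ∩ M = T ∩ M := by
      ext x
      simp only [mem_inter, mem_erase]
      constructor
      · rintro ⟨⟨_, h⟩, h'⟩; exact ⟨h, h'⟩
      · rintro ⟨h, h'⟩; exact ⟨⟨fun hx => hqM (hx ▸ h'), h⟩, h'⟩
    have e3 : ({q} ∩ M : Finset α) = ∅ := by
      rw [Finset.singleton_inter_of_notMem hqM]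
    rw [← e1]
    apply hcl {q} (singleton_subset_iff.mpr (hTZ hqT)) (T.erase q) ((erase_subset _ _).trans hTZ)
    · rw [e3]; simp
    · rw [e2]; exact hTe
    · exact hs q (hTZ hqT) hqM
    · exact ih (T.erase q).card (by rw [← hTk]; exact card_erase_lt_of_mem hqT) _
        ((erase_subset _ _).trans hTZ) rfl (by rw [e2]; exact hTe)
  · push Not at hex
    have hTM : T ∩ M = T := inter_eq_left.mpr hex
    rw [hTM] at hTe
    obtain ⟨q, hqT⟩ := hne
    have h2 : 1 ≤ (T.erase q).card := by
      have h1 : 0 < T.card := card_pos.mpr ⟨q, hqT⟩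
      rw [card_erase_of_mem hqT]
      obtain ⟨r, hr⟩ := hTe
      omega
    obtain ⟨q', hq'⟩ := card_pos.mp h2
    have hq'T : q' ∈ T := mem_of_mem_erase hq'
    have hne' : q' ≠ q := ne_of_mem_erase hq'
    have e1 : symmDiff {q, q'} ((T.erase q).erase q') = T := by
      ext x
      simp only [mem_symmDiff, mem_insert, mem_singleton, mem_erase]
      constructor
      · rintro (⟨h | h, _⟩ | ⟨⟨_, _, h⟩, _⟩)
        · rw [h]; exact hqT
        · rw [h]; exact hq'T
        · exact h
      · intro h
        by_cases hx : x = q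
        · exact Or.inl ⟨Or.inl hx, fun h' => h'.2.1 hx⟩
        · by_cases hx' : x = q'
          · exact Or.inl ⟨Or.inr hx', fun h' => h'.1 hx'⟩
          · exact Or.inr ⟨⟨hx', hx, h⟩, fun h' => h'.elim hx hx'⟩
    have hsub : (T.erase q).erase q' ⊆ T := (erase_subset _ _).trans (erase_subset _ _)
    have e2 : ((T.erase q).erase q') ∩ M = (T.erase q).erase q' :=
      inter_eq_left.mpr (hsub.trans hex)
    have c2 : ((T.erase q).erase q').card = T.card - 2 := by
      rw [card_erase_of_mem hq', card_erase_of_mem hqT]; omega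
    have c3 : Even ((T.erase q).erase q').card := by
      rw [c2]
      rw [card_erase_of_mem hqT] at h2
      obtain ⟨r, hr⟩ := hTe
      exact ⟨r - 1, by omega⟩
    have e3 : (({q, q'} : Finset α) ∩ M) = {q, q'} := by
      rw [inter_eq_left]
      intro x hx
      simp only [mem_insert, mem_singleton] at hx
      rcases hx with rfl | rfl
      · exact hex _ hqT
      · exact hex _ hq'T
    rw [← e1]
    apply hcl {q, q'} _ ((T.erase q).erase q') (hsub.trans hTZ)
    · rw [e3, card_pair hne'.symm]; exact even_two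
    · rw [e2]; exact c3
    · exact hp q (hTZ hqT) q' (hTZ hq'T) (hex _ hqT) (hex _ hq'T) hne'.symm
    · exact ih ((T.erase q).erase q').card (by
        rw [c2, ← hTk]
        have h1 : 0 < T.card := card_pos.mpr ⟨q, hqT⟩
        omega) _ (hsub.trans hTZ) rfl (by rw [e2]; exact c3)
    · intro x hx
      simp only [mem_insert, mem_singleton] at hx
      rcases hx with rfl | rfl
      · exact hTZ hqT
      · exact hTZ hq'T

/-- the combinatorial lemma -/
theorem comb_abs (R M : Finset α) (hMR : M ⊆ R) (hM : M.Nonempty) (E : Finset α → Prop) (hE0 : E ∅)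
    (hstar : ∀ T ⊆ R, ∀ T' ⊆ R, Even (T ∩ M).card → Even (T' ∩ M).card →
      E T ∨ E T' ∨ E (symmDiff T T')) :
    (∃ T ⊆ R, E T ∧ E (R \ T)) ∨ (∃ p ∈ R, ∃ T ⊆ R.erase p, E T ∧ E ((R.erase p) \ T)) ∨
      (∃ p ∈ R, ∃ q ∈ R, p ≠ q ∧ E ((R.erase p).erase q)) := by
  by_contra hcon
  push Not at hcon
  obtain ⟨h1, h2, h3⟩ := hcon
  have hsd : ∀ Z T T' : Finset α, T ⊆ Z → T' ⊆ Z → symmDiff (Z \ T) (Z \ T') = symmDiff T T' := by
    intro Z T T' hT hT'
    ext x
    simp only [mem_symmDiff, mem_sdiff]
    constructor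
    · rintro (⟨⟨a, b⟩, c⟩ | ⟨⟨a, b⟩, c⟩)
      · right; exact ⟨by_contra fun h => c ⟨a, h⟩, b⟩
      · left; exact ⟨by_contra fun h => c ⟨a, h⟩, b⟩
    · rintro (⟨a, b⟩ | ⟨a, b⟩)
      · right; exact ⟨⟨hT a, b⟩, fun h => h.2 a⟩
      · left; exact ⟨⟨hT' a, b⟩, fun h => h.2 a⟩
  have hev : ∀ Z T : Finset α, T ⊆ Z → Even (Z ∩ M).card → Even (T ∩ M).card →
      Even ((Z \ T) ∩ M).card := by
    intro Z T hT hZ hTe
    have e : (Z \ T) ∩ M = (Z ∩ M) \ (T ∩ M) := by
      ext x; simp only [mem_inter, mem_sdiff]; tauto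
    have hs : T ∩ M ⊆ Z ∩ M := inter_subset_inter_right hT
    rw [e, card_sdiff_of_subset hs, Nat.even_sub (card_le_card hs)]
    exact ⟨fun _ => hTe, fun _ => hZ⟩
  have hRM : R ∩ M = M := inter_eq_right.mpr hMR
  rcases Nat.even_or_odd M.card with hMe | hMo
  · have hRe : Even (R ∩ M).card := by rw [hRM]; exact hMe
    have hR : ¬ E R := by
      have := h1 ∅ (empty_subset _) hE0
      rwa [sdiff_empty] at this
    apply hR
    apply gen R M E hE0 _ _ _ R.card R (Subset.refl _) rfl hRe
    · intro T hT T' hT' hTe hTe' hET hET'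
      have a1 := h1 T hT hET
      have a2 := h1 T' hT' hET'
      rcases hstar (R \ T) sdiff_subset (R \ T') sdiff_subset (hev R T hT hRe hTe)
        (hev R T' hT' hRe hTe') with h | h | h
      · exact absurd h a1
      · exact absurd h a2
      · rwa [hsd R T T' hT hT'] at h
    · intro q hq hqM
      have a1 : ¬ E (R.erase q) := by
        have := h2 q hq ∅ (empty_subset _) hE0
        rwa [sdiff_empty] at this
      have a3 : Even ((R.erase q) ∩ M).card := by
        have : (R.erase q) ∩ M = R ∩ M := by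
          ext x
          simp only [mem_inter, mem_erase]
          constructor
          · rintro ⟨⟨_, h⟩, h'⟩; exact ⟨h, h'⟩
          · rintro ⟨h, h'⟩; exact ⟨⟨fun hx => hqM (hx ▸ h'), h⟩, h'⟩
        rw [this]; exact hRe
      rcases hstar R (Subset.refl _) (R.erase q) (erase_subset _ _) hRe a3 with h | h | h
      · exact absurd h hR
      · exact absurd h a1
      · have e : symmDiff R (R.erase q) = {q} := by
          ext x
          simp only [mem_symmDiff, mem_erase, mem_singleton]
          constructor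
          · rintro (⟨a, b⟩ | ⟨⟨_, b⟩, c⟩)
            · by_contra hx; exact b ⟨hx, a⟩
            · exact absurd b c
          · rintro rfl; exact Or.inl ⟨hq, fun h => h.1 rfl⟩
        rwa [e] at h
    · intro q hq q' hq' hqM hqM' hne
      have a1 := h3 q hq q' hq' hne
      have a3 : Even (((R.erase q).erase q') ∩ M).card := by
        have : ((R.erase q).erase q') ∩ M = (M.erase q).erase q' := by
          ext x
          simp only [mem_inter, mem_erase]
          constructor
          · rintro ⟨⟨a, b, _⟩, h'⟩; exact ⟨a, b, h'⟩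
          · rintro ⟨a, b, h'⟩; exact ⟨⟨a, b, hMR h'⟩, h'⟩
        rw [this, card_erase_of_mem (mem_erase.mpr ⟨hne.symm, hqM'⟩), card_erase_of_mem hqM]
        have h2 : 2 ≤ M.card := by
          have := card_le_card (show ({q, q'} : Finset α) ⊆ M by
            intro x hx
            simp only [mem_insert, mem_singleton] at hx
            rcases hx with rfl | rfl <;> assumption)
          rwa [card_pair hne] at this
        obtain ⟨r, hr⟩ := hMe
        exact ⟨r - 1, by omega⟩
      rcases hstar R (Subset.refl _) ((R.erase q).erase q')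
        ((erase_subset _ _).trans (erase_subset _ _)) hRe a3 with h | h | h
      · exact absurd h hR
      · exact absurd h a1
      · have e : symmDiff R ((R.erase q).erase q') = {q, q'} := by
          ext x
          simp only [mem_symmDiff, mem_erase, mem_singleton, mem_insert]
          constructor
          · rintro (⟨a, b⟩ | ⟨⟨_, _, b⟩, c⟩)
            · by_contra hx
              push Not at hx
              exact b ⟨hx.2, hx.1, a⟩
            · exact absurd b c
          · rintro (rfl | rfl)
            · exact Or.inl ⟨hq, fun h => h.2.1 rfl⟩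
            · exact Or.inl ⟨hq', fun h => h.1 rfl⟩
        rwa [e] at h
  · obtain ⟨p0, hp0⟩ := hM
    have hp0R : p0 ∈ R := hMR hp0
    obtain ⟨Z, hZ⟩ : ∃ Z, Z = R.erase p0 := ⟨_, rfl⟩
    have hZR : Z ⊆ R := by rw [hZ]; exact erase_subset _ _
    have hZM : Z ∩ M = M.erase p0 := by
      ext x
      simp only [hZ, mem_inter, mem_erase]
      constructor
      · rintro ⟨⟨a, _⟩, h'⟩; exact ⟨a, h'⟩
      · rintro ⟨a, h'⟩; exact ⟨⟨a, hMR h'⟩, h'⟩
    have herase : ∀ q ∈ M, Even ((R.erase q) ∩ M).card := by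
      intro q hq
      have : (R.erase q) ∩ M = M.erase q := by
        ext x
        simp only [mem_inter, mem_erase]
        constructor
        · rintro ⟨⟨a, _⟩, h'⟩; exact ⟨a, h'⟩
        · rintro ⟨a, h'⟩; exact ⟨⟨a, hMR h'⟩, h'⟩
      rw [this, card_erase_of_mem hq]
      obtain ⟨r, hr⟩ := hMo
      exact ⟨r, by omega⟩
    have hZe : Even (Z ∩ M).card := by rw [hZ]; exact herase p0 hp0
    have hnZ : ¬ E Z := by
      have := h2 p0 hp0R ∅ (empty_subset _) hE0
      rwa [sdiff_empty, ← hZ] at this
    apply hnZ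
    apply gen Z M E hE0 _ _ _ Z.card Z (Subset.refl _) rfl hZe
    · intro T hT T' hT' hTe hTe' hET hET'
      have a1 := h2 p0 hp0R T (hZ ▸ hT) hET
      have a2 := h2 p0 hp0R T' (hZ ▸ hT') hET'
      rw [← hZ] at a1 a2
      rcases hstar (Z \ T) (sdiff_subset.trans hZR) (Z \ T') (sdiff_subset.trans hZR)
        (hev Z T hT hZe hTe) (hev Z T' hT' hZe hTe') with h | h | h
      · exact absurd h a1
      · exact absurd h a2
      · rwa [hsd Z T T' hT hT'] at h
    · intro q hq hqM
      have hqR : q ∈ R := hZR hq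
      have hne : p0 ≠ q := fun h => hqM (h ▸ hp0)
      have a1 := h3 p0 hp0R q hqR hne
      rw [← hZ] at a1
      have a3 : Even ((Z.erase q) ∩ M).card := by
        have : (Z.erase q) ∩ M = Z ∩ M := by
          ext x
          simp only [mem_inter, mem_erase]
          constructor
          · rintro ⟨⟨_, h⟩, h'⟩; exact ⟨h, h'⟩
          · rintro ⟨h, h'⟩; exact ⟨⟨fun hx => hqM (hx ▸ h'), h⟩, h'⟩
        rw [this]; exact hZe
      rcases hstar Z hZR (Z.erase q) ((erase_subset _ _).trans hZR) hZe a3 with h | h | h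
      · exact absurd h hnZ
      · exact absurd h a1
      · have e : symmDiff Z (Z.erase q) = {q} := by
          ext x
          simp only [mem_symmDiff, mem_erase, mem_singleton]
          constructor
          · rintro (⟨a, b⟩ | ⟨⟨_, b⟩, c⟩)
            · by_contra hx; exact b ⟨hx, a⟩
            · exact absurd b c
          · rintro rfl; exact Or.inl ⟨hq, fun h => h.1 rfl⟩
        rwa [e] at h
    · intro q hq q' hq' hqM hqM' hne
      have hqR : q ∈ R := hZR hq
      have hqR' : q' ∈ R := hZR hq'
      have a1 : ¬ E (R.erase q) := by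
        have := h2 q hqR ∅ (empty_subset _) hE0
        rwa [sdiff_empty] at this
      have a2 : ¬ E (R.erase q') := by
        have := h2 q' hqR' ∅ (empty_subset _) hE0
        rwa [sdiff_empty] at this
      rcases hstar (R.erase q) (erase_subset _ _) (R.erase q') (erase_subset _ _) (herase q hqM)
        (herase q' hqM') with h | h | h
      · exact absurd h a1
      · exact absurd h a2
      · have e : symmDiff (R.erase q) (R.erase q') = {q, q'} := by
          ext x
          simp only [mem_symmDiff, mem_erase, mem_singleton, mem_insert]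
          constructor
          · rintro (⟨⟨a, b⟩, c⟩ | ⟨⟨a, b⟩, c⟩)
            · right; by_contra hx; exact c ⟨hx, b⟩
            · left; by_contra hx; exact c ⟨hx, b⟩
          · rintro (rfl | rfl)
            · right; exact ⟨⟨hne, hqR⟩, fun h => h.1 rfl⟩
            · left; exact ⟨⟨hne.symm, hqR'⟩, fun h => h.1 rfl⟩
        rwa [e] at h

end Pool.Agent.TH725.TS
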