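import Pool.Agent.TH725.TS.Str
import Pool.Agent.TH725.TS.Comb

set_option autoImplicit false

/-! Structure of the numbers with a proportion of liars larger than one quarter. -/

namespace Pool.Agent.TH725.TS

open Finset Real Pool.Agent.W57.SW Pool.Agent.H379R2.W

lemma sym_even {n k p : ℕ} (hn2 : 2 ≤ n) (hkodd : Odd k) (hkn : k ∣ n) (hp : p ∈ k.primeFactors)
    (hpmin : ∀ q ∈ k.primeFactors, v2 p ≤ v2 q) {T : Finset ℕ} (hT : T ⊆ k.primeFactors)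
    (hev : Even (T ∩ k.primeFactors.filter (fun q => v2 q = v2 p)).card) {ℓ : ℕ}
    (hℓ : Passes n ℓ) : jacobiSym (ℓ : ℤ) (∏ q ∈ T, q) = 1 := by
  have hfac : ∀ q ∈ k.primeFactors, q.Prime ∧ q ∣ n ∧ q ≠ 2 := by
    intro q hq
    rw [Nat.mem_primeFactors] at hq
    refine ⟨hq.1, hq.2.1.trans hkn, ?_⟩
    rintro rfl
    rw [← Nat.not_even_iff_odd, even_iff_two_dvd] at hkodd
    exact hkodd hq.2.1
  obtain ⟨hpp, hpn, hp2⟩ := hfac p hp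
  rw [jacobi_prod _ _ (fun q hq => (hfac q (hT hq)).1.ne_zero)]
  have e2 : ∀ q ∈ T, jacobiSym (ℓ : ℤ) q =
      if v2 q = v2 p then jacobiSym (ℓ : ℤ) p else 1 := by
    intro q hq
    obtain ⟨a1, a2, a4⟩ := hfac q (hT hq)
    have hmin := hpmin q (hT hq)
    split_ifs with h
    · exact same_symbol hℓ a1 hpp a4 hp2 a2 hpn h
    · exact symbol_one hℓ a1 hpp a4 hp2 a2 hpn (by omega)
  have e3 : T ∩ k.primeFactors.filter (fun q => v2 q = v2 p) = T.filter (fun q => v2 q = v2 p) := by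
    ext q
    simp only [mem_inter, mem_filter]
    constructor
    · rintro ⟨a, _, b⟩; exact ⟨a, b⟩
    · rintro ⟨a, b⟩; exact ⟨a, hT a, b⟩
  rw [e3] at hev
  rw [prod_congr rfl e2, ← prod_filter, prod_const]
  have hpm : jacobiSym (ℓ : ℤ) p = 1 ∨ jacobiSym (ℓ : ℤ) p = -1 := by
    have h1 := not_dvd_of_passes hn2 hpp hpn hℓ
    have hco : Nat.Coprime ℓ p := ((Nat.Prime.coprime_iff_not_dvd hpp).mpr h1).symm
    have : NeZero p := ⟨hpp.ne_zero⟩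
    rcases jacobiSym.trichotomy (ℓ : ℤ) p with h | h | h
    · exfalso
      rw [jacobiSym.eq_zero_iff_not_coprime, Int.gcd_natCast_natCast] at h
      exact h hco
    · exact Or.inl h
    · exact Or.inr h
  rcases hpm with e | e
  · rw [e]; simp
  · rw [e]; exact hev.neg_one_pow

lemma jac_nonneg {T T' : Finset ℕ} (hT : ∀ q ∈ T, q ≠ 0) (hT' : ∀ q ∈ T', q ≠ 0) (ℓ : ℕ) :
    0 ≤ 1 + jacobiSym (ℓ : ℤ) (∏ q ∈ T, q) + jacobiSym (ℓ : ℤ) (∏ q ∈ T', q) +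
      jacobiSym (ℓ : ℤ) (∏ q ∈ symmDiff T T', q) := by
  have hsym : ∀ q ∈ symmDiff T T', q ≠ 0 := by
    intro q hq
    rw [mem_symmDiff] at hq
    rcases hq with h | h
    · exact hT q h.1
    · exact hT' q h.1
  obtain ⟨i, hi⟩ : ∃ i : ℤ, i = jacobiSym (ℓ : ℤ) (∏ q ∈ T ∩ T', q) := ⟨_, rfl⟩
  obtain ⟨a, ha⟩ : ∃ a : ℤ, a = jacobiSym (ℓ : ℤ) (∏ q ∈ T \ T', q) := ⟨_, rfl⟩
  obtain ⟨b, hb⟩ : ∃ b : ℤ, b = jacobiSym (ℓ : ℤ) (∏ q ∈ T' \ T, q) := ⟨_, rfl⟩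
  have hne : ∀ U : Finset ℕ, (∀ q ∈ U, q ≠ 0) → NeZero (∏ q ∈ U, q) := fun U hU =>
    ⟨prod_ne_zero_iff.mpr hU⟩
  have m1 : ∀ q ∈ T \ T', q ≠ 0 := fun q hq => hT q (mem_sdiff.mp hq).1
  have m2 : ∀ q ∈ T' \ T, q ≠ 0 := fun q hq => hT' q (mem_sdiff.mp hq).1
  have m3 : ∀ q ∈ T ∩ T', q ≠ 0 := fun q hq => hT q (mem_inter.mp hq).1
  have n1 := hne _ m1
  have n2 := hne _ m2
  have n3 := hne _ m3
  have e1 : jacobiSym (ℓ : ℤ) (∏ q ∈ T, q) = a * i := by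
    rw [ha, hi, ← jacobiSym.mul_right, ← prod_union (disjoint_sdiff_inter T T'),
      sdiff_union_inter]
  have e2 : jacobiSym (ℓ : ℤ) (∏ q ∈ T', q) = b * i := by
    rw [hb, hi, ← jacobiSym.mul_right, inter_comm T T', ← prod_union (disjoint_sdiff_inter T' T),
      sdiff_union_inter]
  have e3 : jacobiSym (ℓ : ℤ) (∏ q ∈ symmDiff T T', q) = a * b := by
    have : symmDiff T T' = (T \ T') ∪ (T' \ T) := rfl
    rw [ha, hb, ← jacobiSym.mul_right, this, prod_union disjoint_sdiff_sdiff]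
  rw [e1, e2, e3]
  have ta := jacobiSym.trichotomy (ℓ : ℤ) (∏ q ∈ T \ T', q)
  have tb := jacobiSym.trichotomy (ℓ : ℤ) (∏ q ∈ T' \ T, q)
  have ti := jacobiSym.trichotomy (ℓ : ℤ) (∏ q ∈ T ∩ T', q)
  rw [← ha] at ta
  rw [← hb] at tb
  rw [← hi] at ti
  rcases ta with h1 | h1 | h1 <;> rcases tb with h2 | h2 | h2 <;> rcases ti with h3 | h3 | h3 <;>
    rw [h1, h2, h3] <;> norm_num

open Classical in
lemma jac_sum (B : Finset ℕ) (m : ℕ) : ∑ ℓ ∈ B, jacobiSym (ℓ : ℤ) m =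
    ((B.filter fun ℓ : ℕ => jacobiSym (ℓ : ℤ) m = 1).card : ℤ) -
      ((B.filter fun ℓ : ℕ => jacobiSym (ℓ : ℤ) m = -1).card : ℤ) := by
  have h : ∀ ℓ ∈ B, jacobiSym (ℓ : ℤ) m = (if jacobiSym (ℓ : ℤ) m = 1 then (1 : ℤ) else 0) -
      (if jacobiSym (ℓ : ℤ) m = -1 then (1 : ℤ) else 0) := by
    intro ℓ _
    rcases jacobiSym.trichotomy (ℓ : ℤ) m with h | h | h <;> rw [h] <;> norm_num
  rw [sum_congr rfl h, sum_sub_distrib, sum_boole, sum_boole]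

/-- the structure of the bad numbers -/
theorem struct2 {n k x S : ℕ} {B P : Finset ℕ} (hn2 : 2 ≤ n) (hnx : n ≤ x) (hksq : Squarefree k)
    (hkodd : Odd k) (hkn : k ∣ n) (hPB : P ⊆ B) (hP : ∀ ℓ ∈ P, Passes n ℓ)
    (hcard : B.card + 3 * S ≤ 4 * P.card) :
    ∃ a ∈ Ex B S x, ∃ b ∈ Ex B S x, k = a * b ∨ (∃ p : ℕ, p.Prime ∧ k = p * (a * b)) ∨
      (∃ p q : ℕ, p.Prime ∧ q.Prime ∧ k = p * (q * (a * b))) := by
  classical
  have hk0 : k ≠ 0 := hksq.ne_zero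
  have hkx : k ≤ x := (Nat.le_of_dvd (by omega) hkn).trans hnx
  obtain ⟨R, hR⟩ : ∃ R, R = k.primeFactors := ⟨_, rfl⟩
  have hRp : ∀ q ∈ R, q.Prime := fun q hq => Nat.prime_of_mem_primeFactors (hR ▸ hq)
  have hprod : ∏ q ∈ R, q = k := by rw [hR]; exact Nat.prod_primeFactors_of_squarefree hksq
  have hPc : P.card ≤ B.card := card_le_card hPB
  obtain ⟨E, hE⟩ : ∃ E : Finset ℕ → Prop, ∀ T, E T ↔
    (S : ℤ) ≤ ∑ ℓ ∈ B, jacobiSym (ℓ : ℤ) (∏ q ∈ T, q) := ⟨_, fun _ => Iff.rfl⟩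
  have hEx : ∀ T ⊆ R, E T → (∏ q ∈ T, q) ∈ Ex B S x := by
    intro T hT hET
    rw [hE, jac_sum] at hET
    rw [mem_Ex]
    have hdvd : (∏ q ∈ T, q) ∣ k := by
      rw [← hprod]; exact prod_dvd_prod_of_subset _ _ _ hT
    have h0 : 0 < ∏ q ∈ T, q := Nat.pos_of_dvd_of_pos hdvd (Nat.pos_of_ne_zero hk0)
    refine ⟨⟨h0, (Nat.le_of_dvd (Nat.pos_of_ne_zero hk0) hdvd).trans hkx⟩,
      Odd.of_dvd_nat hkodd hdvd, hksq.squarefree_of_dvd hdvd, ?_⟩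
    omega
  have hE0 : E ∅ := by
    rw [hE, prod_empty]
    simp only [jacobiSym.one_right, sum_const]
    simp
    omega
  rcases eq_or_ne k 1 with hk1 | hk1
  · have h1 := hEx ∅ (empty_subset _) hE0
    rw [prod_empty] at h1
    exact ⟨1, h1, 1, h1, Or.inl (by rw [hk1])⟩
  have hne : k.primeFactors.Nonempty := Nat.nonempty_primeFactors.mpr (by omega)
  obtain ⟨p, hp, hpmin⟩ := exists_min_image k.primeFactors v2 hne
  obtain ⟨M, hM⟩ : ∃ M, M = k.primeFactors.filter (fun q => v2 q = v2 p) := ⟨_, rfl⟩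
  have hMR : M ⊆ R := by rw [hM, hR]; exact filter_subset _ _
  have hMne : M.Nonempty := ⟨p, by rw [hM, mem_filter]; exact ⟨hp, rfl⟩⟩
  have hstar : ∀ T ⊆ R, ∀ T' ⊆ R, Even (T ∩ M).card → Even (T' ∩ M).card →
      E T ∨ E T' ∨ E (symmDiff T T') := by
    intro T hT T' hT' hTe hTe'
    by_contra hcon
    push Not at hcon
    obtain ⟨c1, c2, c3⟩ := hcon
    rw [hE] at c1 c2 c3
    push Not at c1 c2 c3
    have hsub : symmDiff T T' ⊆ R := by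
      intro q hq
      rw [mem_symmDiff] at hq
      rcases hq with h | h
      · exact hT h.1
      · exact hT' h.1
    have hse := even_symmDiff T T' M hTe hTe'
    have h1 : ∀ U ⊆ R, Even (U ∩ M).card → ∀ ℓ ∈ P, jacobiSym (ℓ : ℤ) (∏ q ∈ U, q) = 1 := by
      intro U hU hUe ℓ hℓ
      exact sym_even hn2 hkodd hkn hp hpmin (hR ▸ hU) (hM ▸ hUe) (hP ℓ hℓ)
    have h2 : ∑ ℓ ∈ P, (1 + jacobiSym (ℓ : ℤ) (∏ q ∈ T, q) + jacobiSym (ℓ : ℤ) (∏ q ∈ T', q) +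
        jacobiSym (ℓ : ℤ) (∏ q ∈ symmDiff T T', q)) ≤
        ∑ ℓ ∈ B, (1 + jacobiSym (ℓ : ℤ) (∏ q ∈ T, q) + jacobiSym (ℓ : ℤ) (∏ q ∈ T', q) +
        jacobiSym (ℓ : ℤ) (∏ q ∈ symmDiff T T', q)) :=
      sum_le_sum_of_subset_of_nonneg hPB fun ℓ _ _ =>
        jac_nonneg (fun q hq => (hRp q (hT hq)).ne_zero) (fun q hq => (hRp q (hT' hq)).ne_zero) ℓ
    have h3 : ∑ ℓ ∈ P, (1 + jacobiSym (ℓ : ℤ) (∏ q ∈ T, q) + jacobiSym (ℓ : ℤ) (∏ q ∈ T', q) +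
        jacobiSym (ℓ : ℤ) (∏ q ∈ symmDiff T T', q)) = ∑ _ℓ ∈ P, (4 : ℤ) := by
      apply sum_congr rfl
      intro ℓ hℓ
      rw [h1 T hT hTe ℓ hℓ, h1 T' hT' hTe' ℓ hℓ, h1 _ hsub hse ℓ hℓ]
      norm_num
    rw [h3, sum_add_distrib, sum_add_distrib, sum_add_distrib, sum_const, sum_const,
      nsmul_eq_mul, nsmul_eq_mul] at h2
    have h4 : ((B.card + 3 * S : ℕ) : ℤ) ≤ ((4 * P.card : ℕ) : ℤ) := by exact_mod_cast hcard
    push_cast at h4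
    linarith
  rcases comb_abs R M hMR hMne E hE0 hstar with h | h | h
  · obtain ⟨T, hT, h1, h2⟩ := h
    refine ⟨∏ q ∈ T, q, hEx T hT h1, ∏ q ∈ R \ T, q, hEx _ sdiff_subset h2, Or.inl ?_⟩
    rw [mul_comm, prod_sdiff hT, hprod]
  · obtain ⟨p', hp', T, hT, h1, h2⟩ := h
    refine ⟨∏ q ∈ T, q, hEx T (hT.trans (erase_subset _ _)) h1, ∏ q ∈ (R.erase p') \ T, q,
      hEx _ (sdiff_subset.trans (erase_subset _ _)) h2, Or.inr (Or.inl ⟨p', hRp p' hp', ?_⟩)⟩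
    rw [mul_comm (∏ q ∈ T, q), prod_sdiff hT, mul_prod_erase R (fun q => q) hp', hprod]
  · obtain ⟨p', hp', q', hq', hne', h1⟩ := h
    have h0 := hEx ∅ (empty_subset _) hE0
    rw [prod_empty] at h0
    refine ⟨∏ q ∈ (R.erase p').erase q', q,
      hEx _ ((erase_subset _ _).trans (erase_subset _ _)) h1, 1, h0,
      Or.inr (Or.inr ⟨p', q', hRp p' hp', hRp q' hq', ?_⟩)⟩
    rw [mul_one, mul_prod_erase (R.erase p') (fun q => q) (mem_erase.mpr ⟨hne'.symm, hq'⟩),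
      mul_prod_erase R (fun q => q) hp', hprod]

end Pool.Agent.TH725.TS
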