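import Pool.Agent.TH725.TS.Lgs2
import Pool.Agent.TH725.TS.Str2
import Pool.Agent.TH725.TS.Cnt2

set_option autoImplicit false

/-! Counting for the proportion one quarter of liars. -/

namespace Pool.Agent.TH725.TS

open Finset Real Pool.Agent.W57.SW Pool.Agent.H379R2.W

open Classical in
/-- the largest index of a subgroup modulo `p` that contains a quarter of `B` -/
noncomputable def kap (B : Finset ℕ) (x p : ℕ) : ℕ := ((Icc 1 x).filter (fun K => Sm B K p)).card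

lemma kap_low {B P : Finset ℕ} {n x p : ℕ} (hn2 : 2 ≤ n) (hnx : n ≤ x) (hp : p.Prime)
    (hpn : p ∣ n) (hPB : P ⊆ B) (hPc : B.card ≤ 4 * P.card) (hP : ∀ ℓ ∈ P, Passes n ℓ) :
    (p - 1) / Nat.gcd (p - 1) (n - 1) ≤ kap B x p := by
  classical
  have : Fact p.Prime := ⟨hp⟩
  obtain ⟨h, hh⟩ : ∃ h, h = Nat.gcd (p - 1) (n - 1) := ⟨_, rfl⟩
  rw [← hh]
  have hp2 := hp.two_le
  have hh1 : 1 ≤ h := by rw [hh]; exact Nat.gcd_pos_of_pos_left _ (by omega)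
  have hpow : ∀ ℓ ∈ P, (ℓ : ZMod p) ^ h = 1 := by
    intro ℓ hℓ
    have h1 : (ℓ : ZMod p) ^ (n - 1) = 1 := pow_of_passes_dvd (hP ℓ hℓ) hpn
    have h0 : (ℓ : ZMod p) ≠ 0 := by
      intro h0
      rw [h0, zero_pow (by omega)] at h1
      exact zero_ne_one h1
    have h2 := ZMod.pow_card_sub_one_eq_one h0
    rw [hh]
    exact orderOf_dvd_iff_pow_eq_one.mp
      (Nat.dvd_gcd (orderOf_dvd_of_pow_eq_one h2) (orderOf_dvd_of_pow_eq_one h1))
  have hsub : Icc 1 ((p - 1) / h) ⊆ (Icc 1 x).filter (fun K => Sm B K p) := by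
    intro K hK
    rw [mem_Icc] at hK
    rw [mem_filter, mem_Icc]
    have h1 : h * K ≤ p - 1 := (Nat.mul_le_mul_left h hK.2).trans (Nat.mul_div_le _ _)
    have h2 : K ≤ h * K := Nat.le_mul_of_pos_left K hh1
    have hpx : p ≤ x := (Nat.le_of_dvd (by omega) hpn).trans hnx
    exact ⟨⟨hK.1, by omega⟩, hp, P, hPB, hPc, h, hh1, by omega, hpow⟩
  have := card_le_card hsub
  rw [Nat.card_Icc] at this
  unfold kap
  omega

open Classical in
lemma sum_kap {x : ℕ} (hx : 1 ≤ x) {η : ℝ} (hη : 0 < η) (hη1 : η ≤ 1) {B : Finset ℕ}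
    (H : ∀ K : ℕ, 1 ≤ K → ∀ X : ℕ, 1 ≤ X → X ≤ x →
      (((Icc 1 X).filter (Sm B K)).card : ℝ) * K ≤ (x : ℝ) ^ η * X) :
    ∑ p ∈ Icc 1 x, (kap B x p : ℝ) / p ≤
      (x : ℝ) ^ (3 * η) * (∑' k : ℕ, (k : ℝ) ^ (-(1 + η))) ^ 2 := by
  have hxr : (1 : ℝ) ≤ x := by exact_mod_cast hx
  have hxpos : (0 : ℝ) < x := by linarith
  have hsum : Summable fun k : ℕ => (k : ℝ) ^ (-(1 + η)) :=
    Real.summable_nat_rpow.mpr (by linarith)
  obtain ⟨Z, hZ⟩ : ∃ Z : ℝ, Z = ∑' k : ℕ, (k : ℝ) ^ (-(1 + η)) := ⟨_, rfl⟩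
  have hZ0 : 0 ≤ Z := by rw [hZ]; exact tsum_nonneg fun k => by positivity
  rw [← hZ]
  have h1 : ∑ p ∈ Icc 1 x, (kap B x p : ℝ) / p =
      ∑ K ∈ Icc 1 x, ∑ p ∈ (Icc 1 x).filter (Sm B K), 1 / (p : ℝ) := by
    have e : ∀ p ∈ Icc 1 x, (kap B x p : ℝ) / p =
        ∑ K ∈ Icc 1 x, if Sm B K p then 1 / (p : ℝ) else 0 := by
      intro p _
      rw [← sum_filter, sum_const, kap, nsmul_eq_mul]
      ring
    rw [sum_congr rfl e, sum_comm]
    apply sum_congr rfl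
    intro K _
    rw [sum_filter]
  rw [h1]
  have h2 : ∀ K ∈ Icc 1 x, ∑ p ∈ (Icc 1 x).filter (Sm B K), 1 / (p : ℝ) ≤
      ((x : ℝ) ^ (3 * η) * Z) * (K : ℝ) ^ (-(1 + η)) := by
    intro K hK
    rw [mem_Icc] at hK
    have hK0 : (0 : ℝ) < K := by exact_mod_cast hK.1
    obtain ⟨Q, hQ⟩ : ∃ Q, Q = (Icc 1 x).filter (Sm B K) := ⟨_, rfl⟩
    rw [← hQ]
    have hQm : ∀ p ∈ Q, 1 ≤ p ∧ p ≤ x := by
      intro p hp; rw [hQ, mem_filter, mem_Icc] at hp; exact hp.1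
    have g1 : ∀ p ∈ Q, 1 / (p : ℝ) ≤ (x : ℝ) ^ η * (p : ℝ) ^ (-(1 + η)) := by
      intro p hp
      have hp0 : (0 : ℝ) < p := by exact_mod_cast (hQm p hp).1
      have e : 1 / (p : ℝ) = (p : ℝ) ^ η * (p : ℝ) ^ (-(1 + η)) := by
        rw [← rpow_add hp0, show η + -(1 + η) = -1 by ring, rpow_neg_one, one_div]
      rw [e]
      apply mul_le_mul_of_nonneg_right _ (by positivity)
      exact rpow_le_rpow hp0.le (by exact_mod_cast (hQm p hp).2) hη.le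
    refine (sum_le_sum g1).trans ?_
    rw [← mul_sum]
    have g2 := rank_sum Q ((x : ℝ) ^ η / K) 1 (1 + η) (by positivity) one_pos (by linarith)
      (fun q hq => (hQm q hq).1) (fun q hq => by
        have e1 : Q.filter (fun m => m ≤ q) = (Icc 1 q).filter (Sm B K) := by
          ext m
          rw [hQ, mem_filter, mem_filter, mem_filter, mem_Icc, mem_Icc]
          constructor
          · rintro ⟨⟨⟨a, _⟩, b⟩, c⟩; exact ⟨⟨a, c⟩, b⟩
          · rintro ⟨⟨a, c⟩, b⟩; exact ⟨⟨⟨a, c.trans (hQm q hq).2⟩, b⟩, c⟩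
        rw [e1, rpow_one, div_mul_eq_mul_div, le_div_iff₀ hK0]
        exact H K hK.1 q (hQm q hq).1 (hQm q hq).2)
    rw [div_one, ← hZ] at g2
    have g3 : ((x : ℝ) ^ η / K) ^ (1 + η) ≤ (x : ℝ) ^ (2 * η) * (K : ℝ) ^ (-(1 + η)) := by
      rw [div_rpow (by positivity) hK0.le, rpow_neg hK0.le, ← div_eq_mul_inv]
      apply div_le_div_of_nonneg_right _ (by positivity)
      rw [← rpow_mul hxpos.le]
      apply rpow_le_rpow_of_exponent_le hxr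
      nlinarith
    calc (x : ℝ) ^ η * ∑ p ∈ Q, (p : ℝ) ^ (-(1 + η)) ≤
        (x : ℝ) ^ η * (((x : ℝ) ^ η / K) ^ (1 + η) * Z) :=
          mul_le_mul_of_nonneg_left g2 (by positivity)
      _ ≤ (x : ℝ) ^ η * (((x : ℝ) ^ (2 * η) * (K : ℝ) ^ (-(1 + η))) * Z) := by gcongr
      _ = ((x : ℝ) ^ η * (x : ℝ) ^ (2 * η) * Z) * (K : ℝ) ^ (-(1 + η)) := by ring
      _ = _ := by
          rw [← rpow_add hxpos]
          congr 3
          ring
  refine (sum_le_sum h2).trans ?_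
  rw [← mul_sum]
  have h3 : ∑ K ∈ Icc 1 x, (K : ℝ) ^ (-(1 + η)) ≤ Z := by
    rw [hZ]; exact hsum.sum_le_tsum _ fun k _ => by positivity
  calc (x : ℝ) ^ (3 * η) * Z * ∑ K ∈ Icc 1 x, (K : ℝ) ^ (-(1 + η)) ≤
      (x : ℝ) ^ (3 * η) * Z * Z := mul_le_mul_of_nonneg_left h3 (by positivity)
    _ = _ := by ring

lemma gcd_shift {n p w : ℕ} (hp : 1 ≤ p) (hw : 1 ≤ w) (hn : n = p * w) :
    Nat.gcd (p - 1) (n - 1) = Nat.gcd (p - 1) (w - 1) := by
  have e1 : n - 1 = (w - 1) + (p - 1) * w := by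
    rw [hn]
    obtain ⟨q', rfl⟩ : ∃ q', p = q' + 1 := ⟨p - 1, by omega⟩
    obtain ⟨m', rfl⟩ : ∃ m', w = m' + 1 := ⟨w - 1, by omega⟩
    simp only [Nat.add_sub_cancel]
    rw [show (q' + 1) * (m' + 1) = m' + q' * (m' + 1) + 1 by ring]
    omega
  rw [e1, Nat.gcd_add_mul_left_right]

/-- the prime `q` is controlled by the rest when the index at `p` is not small compared to that at `q` -/
lemma pair_ctrl {B P : Finset ℕ} {n x w p q : ℕ} (hn2 : 2 ≤ n) (hnx : n ≤ x) (hp : p.Prime)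
    (hq : q.Prime) (hw : 1 ≤ w) (hn : n = w * (p * q)) (hPB : P ⊆ B)
    (hPc : B.card ≤ 4 * P.card) (hP : ∀ ℓ ∈ P, Passes n ℓ)
    (hle : p * ((q - 1) / Nat.gcd (q - 1) (n - 1)) ^ 2 ≤
      q * ((p - 1) / Nat.gcd (p - 1) (n - 1)) ^ 2) :
    (1 ≤ p ∧ p ≤ x) ∧ (2 ≤ w * p ∧ w * p ≤ x) ∧ ∃ e ∈ (w * p - 1).divisors,
      ∃ t ∈ Icc 1 ⌊((x : ℝ) / w) ^ (1 / 2 : ℝ) * (kap B x p : ℝ) / p⌋₊,
        (e * t + 1) * (w * p) = n := by
  have hpn : p ∣ n := ⟨w * q, by rw [hn]; ring⟩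
  have hqn : q ∣ n := ⟨w * p, by rw [hn]; ring⟩
  have hkap := kap_low hn2 hnx hp hpn hPB hPc hP
  obtain ⟨Kp, hKp⟩ : ∃ K, K = (p - 1) / Nat.gcd (p - 1) (n - 1) := ⟨_, rfl⟩
  obtain ⟨Kq, hKq⟩ : ∃ K, K = (q - 1) / Nat.gcd (q - 1) (n - 1) := ⟨_, rfl⟩
  rw [← hKp] at hkap hle
  rw [← hKq] at hle
  have hp2 := hp.two_le
  have hq2 := hq.two_le
  have hwp2 : 2 ≤ w * p := hp2.trans (Nat.le_mul_of_pos_left p hw)
  have hwpn : w * p ≤ n := by
    rw [hn, ← mul_assoc]; exact Nat.le_mul_of_pos_right _ hq.pos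
  have hpx : p ≤ x := (Nat.le_of_dvd (by omega) hpn).trans hnx
  refine ⟨⟨by omega, hpx⟩, ⟨hwp2, hwpn.trans hnx⟩, ?_⟩
  obtain ⟨e, he⟩ : ∃ e, e = Nat.gcd (q - 1) (n - 1) := ⟨_, rfl⟩
  have heq : e = Nat.gcd (q - 1) (w * p - 1) := by
    rw [he]; exact gcd_shift (by omega) (by omega) (by rw [hn]; ring)
  have hmul : e * Kq = q - 1 := by
    rw [hKq, ← he]; exact Nat.mul_div_cancel' (by rw [he]; exact Nat.gcd_dvd_left _ _)
  refine ⟨e, Nat.mem_divisors.mpr ⟨by rw [heq]; exact Nat.gcd_dvd_right _ _, by omega⟩, Kq, ?_, ?_⟩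
  · rw [mem_Icc]
    constructor
    · rcases Nat.eq_zero_or_pos Kq with h | h
      · rw [h, mul_zero] at hmul; omega
      · exact h
    · apply Nat.le_floor
      have hp0 : (0 : ℝ) < p := by exact_mod_cast hp.pos
      have hq0 : (0 : ℝ) < q := by exact_mod_cast hq.pos
      have hw0 : (0 : ℝ) < w := by exact_mod_cast hw
      rw [le_div_iff₀ hp0]
      have h1 : (p : ℝ) * Kq ^ 2 ≤ q * Kp ^ 2 := by exact_mod_cast hle
      have h2 : (p : ℝ) * q ≤ x / w := by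
        rw [le_div_iff₀ hw0]
        have : p * q * w ≤ x := by
          have : p * q * w = n := by rw [hn]; ring
          omega
        exact_mod_cast this
      have h3 : ((Kq : ℝ) * p) ^ 2 ≤ (((x : ℝ) / w) ^ (1 / 2 : ℝ) * Kp) ^ 2 := by
        have e1 : (((x : ℝ) / w) ^ (1 / 2 : ℝ)) ^ 2 = x / w := by
          rw [← rpow_natCast, ← rpow_mul (by positivity)]; norm_num
        rw [mul_pow, mul_pow, e1]
        calc (Kq : ℝ) ^ 2 * (p : ℝ) ^ 2 = (p : ℝ) * ((p : ℝ) * (Kq : ℝ) ^ 2) := by ring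
          _ ≤ (p : ℝ) * ((q : ℝ) * (Kp : ℝ) ^ 2) := mul_le_mul_of_nonneg_left h1 hp0.le
          _ = ((p : ℝ) * q) * (Kp : ℝ) ^ 2 := by ring
          _ ≤ ((x : ℝ) / w) * (Kp : ℝ) ^ 2 := mul_le_mul_of_nonneg_right h2 (by positivity)
      have h4 := abs_le_of_sq_le_sq h3 (by positivity)
      have h5 := (le_abs_self _).trans h4
      have h6 : (Kp : ℝ) ≤ kap B x p := by exact_mod_cast hkap
      exact h5.trans (mul_le_mul_of_nonneg_left h6 (by positivity))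
  · rw [hmul, Nat.sub_add_cancel hq.pos, hn]; ring

/-- the case of one prime -/
lemma one_ctrl {n x w p : ℕ} {g η V : ℝ} (hV : 1 ≤ V) (hη : 0 ≤ g + η) (hn2 : 2 ≤ n) (hnx : n ≤ x)
    (hHL : ∀ D : ℕ, 1 ≤ D → D ∣ n → (D : ℝ) ^ (1 - g - η) ≤ (liars n D : ℝ) * V)
    (hp : p.Prime) (hw : 2 ≤ w) (hn : n = p * w) :
    ∃ e ∈ (w - 1).divisors, ∃ t ∈ range (⌊V * ((x : ℝ) / (w : ℝ)) ^ (g + η)⌋₊ + 1),
      (e * t + 1) * w = n := by
  have hV0 : 0 < V := by linarith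
  obtain ⟨e, he⟩ : ∃ e, e = Nat.gcd (p - 1) (w - 1) := ⟨_, rfl⟩
  have he1 : e ∣ p - 1 := by rw [he]; exact Nat.gcd_dvd_left _ _
  have he2 : e ∣ w - 1 := by rw [he]; exact Nat.gcd_dvd_right _ _
  obtain ⟨t, ht⟩ := he1
  have hp1 : e * t + 1 = p := by rw [← ht]; exact Nat.sub_add_cancel hp.one_lt.le
  refine ⟨e, Nat.mem_divisors.mpr ⟨he2, by omega⟩, t, ?_, by rw [hp1, hn]⟩
  rw [mem_range, Nat.lt_succ_iff]
  apply Nat.le_floor
  have hpn : p ∣ n := ⟨w, hn⟩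
  have g1 := hHL p hp.one_lt.le hpn
  have g2 := liars_prime hn2 hp (n := n)
  have g3 : Nat.gcd (p - 1) (n - 1) = e := by
    rw [he]; exact gcd_shift hp.one_lt.le (by omega) hn
  rw [g3] at g2
  have g4 : (liars n p : ℝ) ≤ e := by exact_mod_cast g2
  have hp0 : (0 : ℝ) < p := by exact_mod_cast hp.pos
  have hw0 : (0 : ℝ) < w := by exact_mod_cast (by omega : 0 < w)
  have g5 : (p : ℝ) ^ (1 - g - η) ≤ e * V := g1.trans (mul_le_mul_of_nonneg_right g4 hV0.le)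
  have g6 : (e : ℝ) * t ≤ p := by
    have : e * t ≤ p := by omega
    exact_mod_cast this
  have g7 : (p : ℝ) ^ (1 - g - η) * t ≤ p * V := by
    calc (p : ℝ) ^ (1 - g - η) * t ≤ e * V * t :=
          mul_le_mul_of_nonneg_right g5 (Nat.cast_nonneg t)
      _ = (e * t) * V := by ring
      _ ≤ p * V := mul_le_mul_of_nonneg_right g6 hV0.le
  have g8 : (p : ℝ) * V = (p : ℝ) ^ (1 - g - η) * (V * (p : ℝ) ^ (g + η)) := by
    have : (p : ℝ) ^ (1 - g - η) * (p : ℝ) ^ (g + η) = p := by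
      rw [← rpow_add hp0, show 1 - g - η + (g + η) = 1 by ring, rpow_one]
    nth_rewrite 1 [← this]
    ring
  rw [g8] at g7
  have g9 := le_of_mul_le_mul_left g7 (by positivity)
  refine g9.trans (mul_le_mul_of_nonneg_left ?_ hV0.le)
  apply rpow_le_rpow hp0.le _ hη
  rw [le_div_iff₀ hw0]
  have : p * w ≤ x := by rw [← hn]; exact hnx
  exact_mod_cast this

end Pool.Agent.TH725.TS
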