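import Pool.Agent.TH725.TS.Cnt3

set_option autoImplicit false

/-! The count for the proportion one quarter of liars. -/

namespace Pool.Agent.TH725.TS

open Finset Real Pool.Agent.W57.SW Pool.Agent.H379R2.W

lemma sum_prod2 {ι κ : Type*} (s : Finset ι) (t : Finset κ) (f : ι → ℝ) (g : κ → ℝ) :
    ∑ i ∈ s ×ˢ t, f i.1 * g i.2 = (∑ i ∈ s, f i) * ∑ j ∈ t, g j := by
  rw [sum_mul_sum, sum_product]

lemma sum_image_le' {ι : Type*} (s : Finset ι) (f : ι → ℕ) (g : ℕ → ℝ) (hg : ∀ w, 0 ≤ g w) :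
    ∑ w ∈ s.image f, g w ≤ ∑ i ∈ s, g (f i) := by
  classical
  rw [← sum_fiberwise_of_maps_to (s := s) (t := s.image f) (g := f)
    (fun i hi => mem_image_of_mem f hi) (fun i => g (f i))]
  apply sum_le_sum
  intro w hw
  rw [mem_image] at hw
  obtain ⟨i, hi, hiw⟩ := hw
  have h1 : g (f i) ≤ ∑ j ∈ s.filter (fun j => f j = w), g (f j) :=
    single_le_sum (f := fun j => g (f j)) (fun j _ => hg _) (mem_filter.mpr ⟨hi, hiw⟩)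
  rwa [hiw] at h1

/-- the numbers `d² c a b ≤ x` -/
def Ws (E : Finset ℕ) (x : ℕ) : Finset ℕ :=
  (((Icc 1 x ×ˢ ({1, 2} : Finset ℕ)) ×ˢ (E ×ˢ E)).image
    (fun i => i.1.1 ^ 2 * i.1.2 * (i.2.1 * i.2.2))).filter (fun w => w ≤ x)

lemma sum_Ws (E : Finset ℕ) (hE : ∀ m ∈ E, 1 ≤ m) (x : ℕ) {σ : ℝ} (hσ : 1 / 2 < σ) :
    ∑ w ∈ Ws E x, (w : ℝ) ^ (-σ) ≤
      2 * (∑' k : ℕ, (k : ℝ) ^ (-(2 * σ))) * (∑ m ∈ E, (m : ℝ) ^ (-σ)) ^ 2 := by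
  have hsum : Summable fun k : ℕ => (k : ℝ) ^ (-(2 * σ)) :=
    Real.summable_nat_rpow.mpr (by linarith)
  have h1 : ∑ w ∈ Ws E x, (w : ℝ) ^ (-σ) ≤
      ∑ i ∈ (Icc 1 x ×ˢ ({1, 2} : Finset ℕ)) ×ˢ (E ×ˢ E),
        (((i.1.1 ^ 2 * i.1.2 * (i.2.1 * i.2.2) : ℕ) : ℝ)) ^ (-σ) := by
    refine le_trans (sum_le_sum_of_subset_of_nonneg (filter_subset _ _)
      (fun i _ _ => by positivity)) ?_
    exact sum_image_le' _ _ (fun w => (w : ℝ) ^ (-σ)) (fun w => by positivity)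
  have h2 : ∑ i ∈ (Icc 1 x ×ˢ ({1, 2} : Finset ℕ)) ×ˢ (E ×ˢ E),
        (((i.1.1 ^ 2 * i.1.2 * (i.2.1 * i.2.2) : ℕ) : ℝ)) ^ (-σ) =
      ∑ i ∈ (Icc 1 x ×ˢ ({1, 2} : Finset ℕ)) ×ˢ (E ×ˢ E),
        ((i.1.1 : ℝ) ^ (-(2 * σ)) * (i.1.2 : ℝ) ^ (-σ)) *
          ((i.2.1 : ℝ) ^ (-σ) * (i.2.2 : ℝ) ^ (-σ)) := by
    apply sum_congr rfl
    intro i _
    push_cast
    have hd0 : (0 : ℝ) ≤ (i.1.1 : ℝ) := Nat.cast_nonneg _
    rw [mul_rpow (by positivity) (by positivity), mul_rpow (by positivity) (by positivity),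
      mul_rpow (by positivity) (by positivity), ← rpow_natCast, ← rpow_mul hd0]
    congr 3
    push_cast
    ring
  have h3 : ∑ i ∈ (Icc 1 x ×ˢ ({1, 2} : Finset ℕ)) ×ˢ (E ×ˢ E),
        ((i.1.1 : ℝ) ^ (-(2 * σ)) * (i.1.2 : ℝ) ^ (-σ)) *
          ((i.2.1 : ℝ) ^ (-σ) * (i.2.2 : ℝ) ^ (-σ)) =
      ((∑ d ∈ Icc 1 x, (d : ℝ) ^ (-(2 * σ))) * ∑ c ∈ ({1, 2} : Finset ℕ), (c : ℝ) ^ (-σ)) *
        ((∑ m ∈ E, (m : ℝ) ^ (-σ)) * ∑ m ∈ E, (m : ℝ) ^ (-σ)) := by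
    rw [sum_prod2 (Icc 1 x ×ˢ ({1, 2} : Finset ℕ)) (E ×ˢ E)
      (fun i => (i.1 : ℝ) ^ (-(2 * σ)) * (i.2 : ℝ) ^ (-σ))
      (fun j => (j.1 : ℝ) ^ (-σ) * (j.2 : ℝ) ^ (-σ))]
    rw [sum_prod2 (Icc 1 x) ({1, 2} : Finset ℕ) (fun d => (d : ℝ) ^ (-(2 * σ)))
      (fun c => (c : ℝ) ^ (-σ)), sum_prod2 E E (fun d => (d : ℝ) ^ (-σ)) (fun d => (d : ℝ) ^ (-σ))]
  have h4 : ∑ d ∈ Icc 1 x, (d : ℝ) ^ (-(2 * σ)) ≤ ∑' k : ℕ, (k : ℝ) ^ (-(2 * σ)) :=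
    hsum.sum_le_tsum _ fun k _ => by positivity
  have h5 : ∑ c ∈ ({1, 2} : Finset ℕ), (c : ℝ) ^ (-σ) ≤ 2 := by
    have g : ∀ c ∈ ({1, 2} : Finset ℕ), (c : ℝ) ^ (-σ) ≤ 1 := by
      intro c hc
      have hc1 : 1 ≤ c := by
        simp only [mem_insert, mem_singleton] at hc
        omega
      exact rpow_le_one_of_one_le_of_nonpos (by exact_mod_cast hc1) (by linarith)
    refine (sum_le_sum g).trans ?_
    rw [sum_const, card_pair (by norm_num)]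
    norm_num
  rw [h2, h3] at h1
  refine h1.trans ?_
  have hm : 0 ≤ ∑ m ∈ E, (m : ℝ) ^ (-σ) := sum_nonneg fun m _ => by positivity
  have hc0 : 0 ≤ ∑ c ∈ ({1, 2} : Finset ℕ), (c : ℝ) ^ (-σ) := sum_nonneg fun m _ => by positivity
  have ht : 0 ≤ ∑' k : ℕ, (k : ℝ) ^ (-(2 * σ)) := tsum_nonneg fun k => by positivity
  calc ((∑ d ∈ Icc 1 x, (d : ℝ) ^ (-(2 * σ))) * ∑ c ∈ ({1, 2} : Finset ℕ), (c : ℝ) ^ (-σ)) *
        ((∑ m ∈ E, (m : ℝ) ^ (-σ)) * ∑ m ∈ E, (m : ℝ) ^ (-σ)) ≤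
      ((∑' k : ℕ, (k : ℝ) ^ (-(2 * σ))) * 2) *
        ((∑ m ∈ E, (m : ℝ) ^ (-σ)) * ∑ m ∈ E, (m : ℝ) ^ (-σ)) := by
        apply mul_le_mul_of_nonneg_right _ (by positivity)
        exact mul_le_mul h4 h5 hc0 ht
    _ = _ := by ring

/-- numbers with one controlled prime -/
noncomputable def N2 (W : Finset ℕ) (x : ℕ) (V α : ℝ) : Finset ℕ :=
  (W.filter (fun w => 2 ≤ w)).biUnion (fun w => (w - 1).divisors.biUnion
    (fun e => (range (⌊V * ((x : ℝ) / (w : ℝ)) ^ α⌋₊ + 1)).image (fun t => (e * t + 1) * w)))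

/-- numbers with two controlled primes -/
noncomputable def N3 (W : Finset ℕ) (x : ℕ) (κ : ℕ → ℕ) : Finset ℕ :=
  W.biUnion (fun w => ((Icc 1 x).filter (fun p => 2 ≤ w * p ∧ w * p ≤ x)).biUnion
    (fun p => (w * p - 1).divisors.biUnion
      (fun e => (Icc 1 ⌊((x : ℝ) / w) ^ (1 / 2 : ℝ) * (κ p : ℝ) / p⌋₊).image
        (fun t => (e * t + 1) * (w * p)))))

lemma N2_bound (x : ℕ) (W : Finset ℕ) (hW : ∀ w ∈ W, 1 ≤ w ∧ w ≤ x) (Cτ η V g σ : ℝ) (hη : 0 ≤ η)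
    (hCτ : 0 < Cτ) (hV1 : 1 ≤ V)
    (hdiv : ∀ n : ℕ, 1 ≤ n → (n.divisors.card : ℝ) ≤ Cτ * (n : ℝ) ^ η) (hσ0 : 0 ≤ σ)
    (hgσ : g + η ≤ σ) :
    ((N2 W x V (g + η)).card : ℝ) ≤
      (2 * Cτ * (x : ℝ) ^ η * V * (x : ℝ) ^ σ) * ∑ w ∈ W, (w : ℝ) ^ (-σ) := by
  have e1 : ((N2 W x V (g + η)).card : ℝ) ≤ ∑ w ∈ W.filter (fun w => 2 ≤ w),
      ((w - 1).divisors.card : ℝ) * ((⌊V * ((x : ℝ) / (w : ℝ)) ^ (g + η)⌋₊ + 1 : ℕ) : ℝ) := by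
    have : (N2 W x V (g + η)).card ≤ ∑ w ∈ W.filter (fun w => 2 ≤ w),
        (w - 1).divisors.card * (⌊V * ((x : ℝ) / (w : ℝ)) ^ (g + η)⌋₊ + 1) := by
      unfold N2
      refine card_biUnion_le.trans (sum_le_sum fun w _ => ?_)
      refine card_biUnion_le.trans ?_
      have h : ∀ e ∈ (w - 1).divisors, ((range (⌊V * ((x : ℝ) / (w : ℝ)) ^ (g + η)⌋₊ + 1)).image
          (fun t => (e * t + 1) * w)).card ≤ ⌊V * ((x : ℝ) / (w : ℝ)) ^ (g + η)⌋₊ + 1 :=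
        fun e _ => card_image_le.trans (le_of_eq (card_range _))
      refine (sum_le_sum h).trans (le_of_eq ?_)
      rw [sum_const, smul_eq_mul]
    refine le_trans (Nat.cast_le.mpr this) (le_of_eq ?_)
    rw [Nat.cast_sum]
    exact sum_congr rfl fun w _ => Nat.cast_mul _ _
  have hpos : 0 ≤ 2 * Cτ * (x : ℝ) ^ η * V * (x : ℝ) ^ σ := by positivity
  refine e1.trans ?_
  rw [mul_sum]
  have e2 : ∀ w ∈ W.filter (fun w => 2 ≤ w), ((w - 1).divisors.card : ℝ) *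
      ((⌊V * ((x : ℝ) / (w : ℝ)) ^ (g + η)⌋₊ + 1 : ℕ) : ℝ) ≤
      (2 * Cτ * (x : ℝ) ^ η * V * (x : ℝ) ^ σ) * (w : ℝ) ^ (-σ) := by
    intro w hw
    rw [mem_filter] at hw
    have h1 := U2_term x w w 1 Cτ η V g σ hη hCτ hV1 (hdiv _ (by omega)) hσ0 hgσ le_rfl
      (hW w hw.1).1 hw.2 (hW w hw.1).2 (by omega)
    rw [Nat.cast_one, one_rpow, mul_one] at h1
    exact h1
  refine (sum_le_sum e2).trans ?_
  exact sum_le_sum_of_subset_of_nonneg (filter_subset _ _) fun w _ _ => by positivity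

lemma N3_bound (x : ℕ) (W : Finset ℕ) (hW : ∀ w ∈ W, 1 ≤ w ∧ w ≤ x) (κ : ℕ → ℕ) (Cτ η σ Kk : ℝ)
    (hη : 0 ≤ η) (hCτ : 0 < Cτ)
    (hdiv : ∀ n : ℕ, 1 ≤ n → (n.divisors.card : ℝ) ≤ Cτ * (n : ℝ) ^ η) (hσ : 1 / 2 ≤ σ)
    (hκ : ∑ p ∈ Icc 1 x, (κ p : ℝ) / p ≤ Kk) :
    ((N3 W x κ).card : ℝ) ≤
      (Cτ * (x : ℝ) ^ η * Kk * (x : ℝ) ^ σ) * ∑ w ∈ W, (w : ℝ) ^ (-σ) := by
  have hKk : 0 ≤ Kk := le_trans (sum_nonneg fun p _ => by positivity) hκ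
  have e1 : ((N3 W x κ).card : ℝ) ≤ ∑ w ∈ W, ∑ p ∈ (Icc 1 x).filter
      (fun p => 2 ≤ w * p ∧ w * p ≤ x), ((w * p - 1).divisors.card : ℝ) *
        ((⌊((x : ℝ) / w) ^ (1 / 2 : ℝ) * (κ p : ℝ) / p⌋₊ : ℕ) : ℝ) := by
    have : (N3 W x κ).card ≤ ∑ w ∈ W, ∑ p ∈ (Icc 1 x).filter
        (fun p => 2 ≤ w * p ∧ w * p ≤ x), (w * p - 1).divisors.card *
        ⌊((x : ℝ) / w) ^ (1 / 2 : ℝ) * (κ p : ℝ) / p⌋₊ := by
      unfold N3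
      refine card_biUnion_le.trans (sum_le_sum fun w _ => ?_)
      refine card_biUnion_le.trans (sum_le_sum fun p _ => ?_)
      refine card_biUnion_le.trans ?_
      have h : ∀ e ∈ (w * p - 1).divisors,
          ((Icc 1 ⌊((x : ℝ) / w) ^ (1 / 2 : ℝ) * (κ p : ℝ) / p⌋₊).image
          (fun t => (e * t + 1) * (w * p))).card ≤
            ⌊((x : ℝ) / w) ^ (1 / 2 : ℝ) * (κ p : ℝ) / p⌋₊ :=
        fun e _ => card_image_le.trans (by rw [Nat.card_Icc]; omega)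
      refine (sum_le_sum h).trans (le_of_eq ?_)
      rw [sum_const, smul_eq_mul]
    refine le_trans (Nat.cast_le.mpr this) (le_of_eq ?_)
    rw [Nat.cast_sum]
    refine sum_congr rfl fun w _ => ?_
    rw [Nat.cast_sum]
    exact sum_congr rfl fun w _ => Nat.cast_mul _ _
  refine e1.trans ?_
  rw [mul_sum]
  apply sum_le_sum
  intro w hw
  obtain ⟨hw1, hwx⟩ := hW w hw
  have hw0 : (0 : ℝ) < w := by exact_mod_cast hw1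
  have hxpos : (0 : ℝ) < x := by exact_mod_cast (by omega : 0 < x)
  have hxw : 1 ≤ (x : ℝ) / w := by
    rw [one_le_div hw0]; exact_mod_cast hwx
  have e2 : ∀ p ∈ (Icc 1 x).filter (fun p => 2 ≤ w * p ∧ w * p ≤ x),
      ((w * p - 1).divisors.card : ℝ) *
        ((⌊((x : ℝ) / w) ^ (1 / 2 : ℝ) * (κ p : ℝ) / p⌋₊ : ℕ) : ℝ) ≤
      (Cτ * (x : ℝ) ^ η * ((x : ℝ) / w) ^ (1 / 2 : ℝ)) * ((κ p : ℝ) / p) := by
    intro p hp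
    rw [mem_filter, mem_Icc] at hp
    obtain ⟨⟨hp1, _⟩, h2, h3⟩ := hp
    have g1 : ((w * p - 1).divisors.card : ℝ) ≤ Cτ * (x : ℝ) ^ η := by
      refine (hdiv (w * p - 1) (by omega)).trans ?_
      apply mul_le_mul_of_nonneg_left _ hCτ.le
      apply rpow_le_rpow (Nat.cast_nonneg _) _ hη
      have : w * p - 1 ≤ x := by omega
      exact_mod_cast this
    have g2 : ((⌊((x : ℝ) / w) ^ (1 / 2 : ℝ) * (κ p : ℝ) / p⌋₊ : ℕ) : ℝ) ≤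
        ((x : ℝ) / w) ^ (1 / 2 : ℝ) * (κ p : ℝ) / p := Nat.floor_le (by positivity)
    calc ((w * p - 1).divisors.card : ℝ) *
        ((⌊((x : ℝ) / w) ^ (1 / 2 : ℝ) * (κ p : ℝ) / p⌋₊ : ℕ) : ℝ) ≤
        (Cτ * (x : ℝ) ^ η) * (((x : ℝ) / w) ^ (1 / 2 : ℝ) * (κ p : ℝ) / p) :=
          mul_le_mul g1 g2 (Nat.cast_nonneg _) (by positivity)
      _ = _ := by ring
  refine (sum_le_sum e2).trans ?_
  rw [← mul_sum]
  have e3 : ∑ p ∈ (Icc 1 x).filter (fun p => 2 ≤ w * p ∧ w * p ≤ x), (κ p : ℝ) / p ≤ Kk :=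
    le_trans (sum_le_sum_of_subset_of_nonneg (filter_subset _ _) fun p _ _ => by positivity) hκ
  have e4 : ((x : ℝ) / w) ^ (1 / 2 : ℝ) ≤ (x : ℝ) ^ σ * (w : ℝ) ^ (-σ) := by
    rw [rpow_neg hw0.le, ← div_eq_mul_inv, ← div_rpow hxpos.le hw0.le]
    exact rpow_le_rpow_of_exponent_le hxw hσ
  calc (Cτ * (x : ℝ) ^ η * ((x : ℝ) / w) ^ (1 / 2 : ℝ)) *
      ∑ p ∈ (Icc 1 x).filter (fun p => 2 ≤ w * p ∧ w * p ≤ x), (κ p : ℝ) / p ≤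
      (Cτ * (x : ℝ) ^ η * ((x : ℝ) / w) ^ (1 / 2 : ℝ)) * Kk :=
        mul_le_mul_of_nonneg_left e3 (by positivity)
    _ = (Cτ * (x : ℝ) ^ η * Kk) * ((x : ℝ) / w) ^ (1 / 2 : ℝ) := by ring
    _ ≤ (Cτ * (x : ℝ) ^ η * Kk) * ((x : ℝ) ^ σ * (w : ℝ) ^ (-σ)) :=
        mul_le_mul_of_nonneg_left e4 (by positivity)
    _ = _ := by ring

lemma W_bound (x : ℕ) (W : Finset ℕ) (hW : ∀ w ∈ W, 1 ≤ w ∧ w ≤ x) (σ : ℝ) (hσ : 0 ≤ σ) :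
    ((W.card : ℕ) : ℝ) ≤ (x : ℝ) ^ σ * ∑ w ∈ W, (w : ℝ) ^ (-σ) := by
  rw [mul_sum, card_eq_sum_ones, Nat.cast_sum]
  apply sum_le_sum
  intro w hw
  obtain ⟨hw1, hwx⟩ := hW w hw
  have hw0 : (0 : ℝ) < w := by exact_mod_cast hw1
  have hxpos : (0 : ℝ) < x := by exact_mod_cast (by omega : 0 < x)
  have hxw : 1 ≤ (x : ℝ) / w := by
    rw [one_le_div hw0]; exact_mod_cast hwx
  rw [rpow_neg hw0.le, ← div_eq_mul_inv, ← div_rpow hxpos.le hw0.le, Nat.cast_one]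
  exact one_le_rpow hxw hσ

/-- `n` is composite and passes the strong test for the elements of a subset `P` of `B` with
`|B| + 3 S ≤ 4 |P|` -/
def BadQ (B : Finset ℕ) (S n : ℕ) : Prop :=
  2 ≤ n ∧ ¬ n.Prime ∧ ∃ P : Finset ℕ, P ⊆ B ∧ (∀ ℓ ∈ P, Passes n ℓ) ∧ B.card + 3 * S ≤ 4 * P.card

lemma cover3 {B : Finset ℕ} {S x n : ℕ} {g η V : ℝ} (hV : 1 ≤ V) (hη : 0 ≤ g + η)
    (hHL : ∀ D : ℕ, 1 ≤ D → D ∣ n → (D : ℝ) ^ (1 - g - η) ≤ (liars n D : ℝ) * V)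
    (hb : BadQ B S n) (hnx : n ≤ x) :
    n ∈ Ws (Ex B S x) x ∨ n ∈ N2 (Ws (Ex B S x) x) x V (g + η) ∨
      n ∈ N3 (Ws (Ex B S x) x) x (kap B x) := by
  obtain ⟨hn2, hnp, P, hPB, hP, hcard⟩ := hb
  obtain ⟨d, c, k, hn, hc, hkodd, hksq, hd⟩ := decomp (by omega : 1 ≤ n)
  have hc1 : 1 ≤ c := by rcases hc with h | h <;> omega
  have hcm : c ∈ ({1, 2} : Finset ℕ) := by
    rcases hc with h | h <;> rw [h] <;> decide
  have hkn : k ∣ n := ⟨d ^ 2 * c, by rw [hn, mul_comm]⟩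
  have hd2n : d ^ 2 ∣ n := ⟨c * k, by rw [hn, mul_assoc]⟩
  have hd2pos : 1 ≤ d ^ 2 := Nat.one_le_pow _ _ hd
  have hdx : d ≤ x := by
    have h1 : d ≤ d ^ 2 := by rw [sq]; exact Nat.le_mul_of_pos_left d hd
    exact (h1.trans (Nat.le_of_dvd (by omega) hd2n)).trans hnx
  obtain ⟨a, ha, b, hb, hcases⟩ := struct2 hn2 hnx hksq hkodd hkn hPB hP hcard
  have ha1 : 1 ≤ a := (mem_Ex.mp ha).1.1
  have hb1 : 1 ≤ b := (mem_Ex.mp hb).1.1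
  obtain ⟨w, hw⟩ : ∃ w, w = d ^ 2 * c * (a * b) := ⟨_, rfl⟩
  have hw1 : 1 ≤ w := by
    rw [hw]; exact Nat.mul_pos (Nat.mul_pos hd2pos hc1) (Nat.mul_pos ha1 hb1)
  have hwW : w ≤ n → w ∈ Ws (Ex B S x) x := by
    intro hwn
    rw [Ws, mem_filter, mem_image]
    refine ⟨⟨((d, c), (a, b)), ?_, hw.symm⟩, hwn.trans hnx⟩
    rw [mem_product, mem_product, mem_product, mem_Icc]
    exact ⟨⟨⟨hd, hdx⟩, hcm⟩, ha, hb⟩
  have hPc : B.card ≤ 4 * P.card := by omega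
  rcases hcases with h | ⟨p, hp, h⟩ | ⟨p, q, hp, hq, h⟩
  · left
    have : n = w := by rw [hn, h, hw]
    rw [this]
    exact hwW (by omega)
  · right; left
    have hnw : n = p * w := by rw [hn, h, hw]; ring
    have hw2 : 2 ≤ w := by
      by_contra hlt
      have : w = 1 := by omega
      rw [this, mul_one] at hnw
      exact hnp (hnw ▸ hp)
    have hwn : w ≤ n := by rw [hnw]; exact Nat.le_mul_of_pos_left w hp.pos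
    obtain ⟨e, he, t, ht, hf⟩ := one_ctrl hV hη hn2 hnx hHL hp hw2 hnw
    rw [N2, mem_biUnion]
    refine ⟨w, mem_filter.mpr ⟨hwW hwn, hw2⟩, ?_⟩
    rw [mem_biUnion]
    refine ⟨e, he, ?_⟩
    rw [mem_image]
    exact ⟨t, ht, hf⟩
  · right; right
    have hnw : n = w * (p * q) := by rw [hn, h, hw]; ring
    have hwn : w ≤ n := by
      rw [hnw]; exact Nat.le_mul_of_pos_right w (Nat.mul_pos hp.pos hq.pos)
    rw [N3, mem_biUnion]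
    refine ⟨w, hwW hwn, ?_⟩
    rw [mem_biUnion]
    rcases le_total (p * ((q - 1) / Nat.gcd (q - 1) (n - 1)) ^ 2)
      (q * ((p - 1) / Nat.gcd (p - 1) (n - 1)) ^ 2) with hle | hle
    · obtain ⟨h1, h2, e, he, t, ht, hf⟩ :=
        pair_ctrl hn2 hnx hp hq hw1 hnw hPB hPc hP hle
      refine ⟨p, mem_filter.mpr ⟨mem_Icc.mpr h1, h2⟩, ?_⟩
      rw [mem_biUnion]
      refine ⟨e, he, ?_⟩
      rw [mem_image]
      exact ⟨t, ht, hf⟩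
    · obtain ⟨h1, h2, e, he, t, ht, hf⟩ :=
        pair_ctrl hn2 hnx hq hp hw1 (by rw [hnw]; ring) hPB hPc hP hle
      refine ⟨q, mem_filter.mpr ⟨mem_Icc.mpr h1, h2⟩, ?_⟩
      rw [mem_biUnion]
      refine ⟨e, he, ?_⟩
      rw [mem_image]
      exact ⟨t, ht, hf⟩

end Pool.Agent.TH725.TS
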