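import Pool.Agent.TH725.TS.HB
import Pool.Agent.TH725.TS.An
import Pool.Agent.W57.SW.GroupSq

set_option autoImplicit false

/-! Counting numbers with biased symbols; lower bound for the group of liars. -/

namespace Pool.Agent.TH725.TS

open Finset Real Pool.Agent.H306R2.RZ Pool.Agent.W57.SW Pool.Agent.H379R2.W

lemma choose_low_pow {S u : ℕ} (h : 2 * u ≤ S) :
    ((S : ℝ) / 2) ^ u / (u.factorial : ℝ) ≤ (S.choose u : ℝ) := by
  have h1 := Nat.pow_le_choose u S (α := ℝ)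
  refine le_trans ?_ h1
  apply div_le_div_of_nonneg_right _ (by positivity)
  apply pow_le_pow_left₀ (by positivity)
  rw [Nat.cast_sub (by omega)]
  push_cast
  have : (2 : ℝ) * u ≤ S := by exact_mod_cast h
  linarith

lemma choose_ratio {N S u : ℕ} {δ : ℝ} (hδ : 0 < δ) (hN : 1 ≤ N) (hS : δ * N ≤ S)
    (hu : 2 * u ≤ S) :
    (N.choose u : ℝ) ≤ (S.choose u : ℝ) ^ 2 * (4 / δ ^ 2 * u / N) ^ u := by
  have hN0 : (0 : ℝ) < N := by exact_mod_cast hN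
  have hf : (0 : ℝ) < (u.factorial : ℝ) := by positivity
  have h1 : (N.choose u : ℝ) ≤ (N : ℝ) ^ u / u.factorial := Nat.choose_le_pow_div u N
  have h2 := choose_low_pow hu
  have h3 : (u.factorial : ℝ) ≤ (u : ℝ) ^ u := by exact_mod_cast Nat.factorial_le_pow u
  have h4 : (δ * N / 2) ^ u / (u.factorial : ℝ) ≤ (S.choose u : ℝ) := by
    refine le_trans ?_ h2
    apply div_le_div_of_nonneg_right _ hf.le
    apply pow_le_pow_left₀ (by positivity)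
    linarith
  have h5 : ((δ * N / 2) ^ u / (u.factorial : ℝ)) ^ 2 ≤ (S.choose u : ℝ) ^ 2 :=
    pow_le_pow_left₀ (by positivity) h4 2
  have h6 : (0 : ℝ) ≤ (4 / δ ^ 2 * u / N) ^ u := by positivity
  refine h1.trans (le_trans ?_ (mul_le_mul_of_nonneg_right h5 h6))
  have h7 : ((δ * N / 2) ^ u / (u.factorial : ℝ)) ^ 2 * (4 / δ ^ 2 * u / N) ^ u =
      ((N : ℝ) ^ u / u.factorial) * ((u : ℝ) ^ u / u.factorial) := by
    have e1 : (4 / δ ^ 2 * u / N : ℝ) * (δ * N / 2) ^ 2 = N * u := by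
      field_simp
      ring
    have e2 : (4 / δ ^ 2 * u / N : ℝ) ^ u * ((δ * N / 2) ^ u) ^ 2 = (N : ℝ) ^ u * (u : ℝ) ^ u := by
      rw [← pow_mul, mul_comm u 2, pow_mul, ← mul_pow, e1, mul_pow]
    rw [div_pow, div_mul_eq_mul_div, mul_comm (((δ * N / 2) ^ u) ^ 2), e2, div_mul_div_comm, sq]
  rw [h7]
  have h8 : 1 ≤ (u : ℝ) ^ u / u.factorial := by rw [one_le_div hf]; exact h3
  have h9 : (0 : ℝ) ≤ (N : ℝ) ^ u / u.factorial := by positivity
  nlinarith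

lemma choose_one {P u : ℕ} (hP : 1 ≤ P) (hu : 2 * u ≤ P) :
    1 ≤ (P.choose u : ℝ) * (2 * u / P) ^ u := by
  have hP0 : (0 : ℝ) < P := by exact_mod_cast hP
  have hf : (0 : ℝ) < (u.factorial : ℝ) := by positivity
  have h2 := choose_low_pow hu
  have h3 : (u.factorial : ℝ) ≤ (u : ℝ) ^ u := by exact_mod_cast Nat.factorial_le_pow u
  have h6 : (0 : ℝ) ≤ (2 * u / P : ℝ) ^ u := by positivity
  refine le_trans ?_ (mul_le_mul_of_nonneg_right h2 h6)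
  have e1 : ((P : ℝ) / 2) * (2 * u / P) = u := by field_simp
  rw [div_mul_eq_mul_div, ← mul_pow, e1, one_le_div hf]
  exact h3

/-- **Few numbers have biased symbols.** -/
theorem ex_count (A θ δ ε : ℝ) (hθ : 2 ≤ θ) (hθA : θ ≤ A) (hδ : 0 < δ) (hε : 0 < ε) :
    ∃ K L0 : ℝ, 0 < K ∧ 3 ≤ L0 ∧ ∀ L : ℝ, L0 ≤ L → ∀ B : Finset ℕ, (∀ p ∈ B, p.Prime) →
      (∀ p ∈ B, p ≤ yb A L) → L ^ θ ≤ (B.card : ℝ) * (log L) ^ (3 / 2 : ℝ) → ∀ S : ℕ,
      δ * B.card ≤ S → ∀ X : ℕ, 1 ≤ X → log X ≤ L →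
      ((Ex B S X).card : ℝ) ≤ K * L ^ (θ - 1) * (X : ℝ) ^ (1 - (θ - 1) / A + ε) := by
  have hA1 : 1 ≤ A := by linarith
  obtain ⟨C, hC, hE⟩ := ex_bound (ε / 2) (by positivity)
  obtain ⟨κ, hκ0, hκ1, hκ2⟩ : ∃ κ : ℝ, 0 < κ ∧ 8 * κ ≤ δ ^ 2 ∧ 2 * κ ≤ δ :=
    ⟨min (δ ^ 2 / 8) (δ / 2), lt_min (by positivity) (by positivity),
      by linarith [min_le_left (δ ^ 2 / 8) (δ / 2)], by linarith [min_le_right (δ ^ 2 / 8) (δ / 2)]⟩
  obtain ⟨L1, hL1, k1⟩ := an A θ (4 / δ ^ 2) (ε / 2) hA1 (by linarith) hθA (by positivity)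
    (by positivity)
  obtain ⟨L2, hL2, k2⟩ := cond A θ κ hA1 hθ hκ0
  refine ⟨C, max L1 L2, hC, hL1.trans (le_max_left _ _), ?_⟩
  intro L hL B hBp hBy hB S hS X hX hXL
  have hLL1 := (le_max_left _ _).trans hL
  have hLL2 := (le_max_right _ _).trans hL
  have h3 : 3 ≤ L := hL1.trans hLL1
  obtain ⟨u, hu⟩ : ∃ u, u = Nat.log (yb A L) X := ⟨_, rfl⟩
  obtain ⟨u1, _, _, _, _⟩ := u_facts hA1 h3 hX hXL hu
  have m1 := k1 L hLL1 X hX hXL B.card hB u hu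
  obtain ⟨m2, m3⟩ := k2 L hLL2 X hX hXL B.card hB u hu
  have hXpos : (0 : ℝ) < X := by exact_mod_cast hX
  have hN1 : 1 ≤ B.card := by
    by_contra h
    have : B.card = 0 := by omega
    rw [this] at m3
    norm_num at m3
  have huu : (u : ℝ) ≤ (u : ℝ) ^ 2 := by
    have : u ≤ u ^ 2 := by nlinarith [Nat.zero_le u]
    exact_mod_cast this
  have hN0 : (0 : ℝ) < B.card := by exact_mod_cast hN1
  have huS' : (2 : ℝ) * u ≤ S := by nlinarith
  have huS : 2 * u ≤ S := by exact_mod_cast huS'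
  have hc : 2 * B.card * u ^ 2 ≤ (S - u) ^ 2 := by
    have e1 : (2 : ℝ) * B.card * (u : ℝ) ^ 2 ≤ ((S : ℝ) - u) ^ 2 := by
      have f1 : δ * B.card / 2 ≤ (S : ℝ) - u := by linarith
      have f2 : (δ * B.card / 2) ^ 2 ≤ ((S : ℝ) - u) ^ 2 :=
        pow_le_pow_left₀ (by positivity) f1 2
      refine le_trans ?_ f2
      have f3 : 2 * (B.card : ℝ) * (u : ℝ) ^ 2 ≤ 2 * B.card * (κ * B.card) :=
        mul_le_mul_of_nonneg_left m2 (by positivity)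
      refine f3.trans ?_
      have f4 : 2 * (B.card : ℝ) * (κ * B.card) = (8 * κ) * ((B.card : ℝ) ^ 2 / 4) := by ring
      have f5 : (δ * B.card / 2) ^ 2 = δ ^ 2 * ((B.card : ℝ) ^ 2 / 4) := by ring
      rw [f4, f5]
      exact mul_le_mul_of_nonneg_right hκ1 (by positivity)
    have e2 : ((2 * B.card * u ^ 2 : ℕ) : ℝ) ≤ (((S - u) ^ 2 : ℕ) : ℝ) := by
      push_cast
      rw [Nat.cast_sub (by omega)]
      exact e1
    exact_mod_cast e2
  have h1 := hE B (yb A L) u S X hBp hBy u1 hX (by omega) hc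
  have h2 := choose_ratio hδ hN1 hS huS
  have hSu : (0 : ℝ) < (S.choose u : ℝ) ^ 2 := by
    have : 0 < S.choose u := Nat.choose_pos (by omega)
    positivity
  have h4 : (S.choose u : ℝ) ^ 2 * (Ex B S X).card ≤ (S.choose u : ℝ) ^ 2 *
      (C * (X : ℝ) ^ (1 + ε / 2) * (L ^ (θ - 1) * (X : ℝ) ^ (-((θ - 1) / A) + ε / 2))) := by
    calc (S.choose u : ℝ) ^ 2 * (Ex B S X).card = (Ex B S X).card * (S.choose u : ℝ) ^ 2 := by ring
      _ ≤ C * (X : ℝ) ^ (1 + ε / 2) * (B.card.choose u : ℝ) := h1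
      _ ≤ C * (X : ℝ) ^ (1 + ε / 2) * ((S.choose u : ℝ) ^ 2 * (4 / δ ^ 2 * u / B.card) ^ u) :=
          mul_le_mul_of_nonneg_left h2 (by positivity)
      _ ≤ C * (X : ℝ) ^ (1 + ε / 2) * ((S.choose u : ℝ) ^ 2 *
          (L ^ (θ - 1) * (X : ℝ) ^ (-((θ - 1) / A) + ε / 2))) :=
          mul_le_mul_of_nonneg_left (mul_le_mul_of_nonneg_left m1 hSu.le) (by positivity)
      _ = _ := by ring
  have h5 := le_of_mul_le_mul_left h4 hSu
  refine h5.trans (le_of_eq ?_)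
  have e6 : (X : ℝ) ^ (1 - (θ - 1) / A + ε) =
      (X : ℝ) ^ (1 + ε / 2) * (X : ℝ) ^ (-((θ - 1) / A) + ε / 2) := by
    rw [← rpow_add hXpos]; congr 1; ring
  rw [e6]
  ring

/-- **Many liars.** -/
theorem liars_low (A θ ε : ℝ) (hθ : 2 ≤ θ) (hθA : θ ≤ A) (hε : 0 < ε) :
    ∃ L0 : ℝ, 3 ≤ L0 ∧ ∀ L : ℝ, L0 ≤ L → ∀ P : Finset ℕ, (∀ p ∈ P, p.Prime) →
      (∀ p ∈ P, p ≤ yb A L) → L ^ θ ≤ 4 * (P.card : ℝ) * (log L) ^ (3 / 2 : ℝ) →
      ∀ n : ℕ, (∀ p ∈ P, Passes n p) → ∀ D : ℕ, 1 ≤ D → D ∣ n → log D ≤ L →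
      (D : ℝ) ^ ((θ - 1) / A - ε) ≤ (liars n D : ℝ) * L ^ (θ - 1) := by
  have hA1 : 1 ≤ A := by linarith
  obtain ⟨L1, hL1, k1⟩ := an A θ 8 ε hA1 (by linarith) hθA (by norm_num) hε
  obtain ⟨L2, hL2, k2⟩ := cond A θ (1 / 8) hA1 hθ (by norm_num)
  refine ⟨max L1 L2, hL1.trans (le_max_left _ _), ?_⟩
  intro L hL P hPp hPy hP n hn D hD hDn hDL
  have hLL1 := (le_max_left _ _).trans hL
  have hLL2 := (le_max_right _ _).trans hL
  have h3 : 3 ≤ L := hL1.trans hLL1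
  have hL0 : 0 < L := by linarith
  obtain ⟨u, hu⟩ : ∃ u, u = Nat.log (yb A L) D := ⟨_, rfl⟩
  obtain ⟨u1, _, _, _, _⟩ := u_facts hA1 h3 hD hDL hu
  have m1 := k1 L hLL1 D hD hDL (4 * P.card) hP u hu
  obtain ⟨m2, m3⟩ := k2 L hLL2 D hD hDL (4 * P.card) hP u hu
  have hDpos : (0 : ℝ) < D := by exact_mod_cast hD
  have : NeZero D := ⟨by omega⟩
  have hN1 : 1 ≤ P.card := by
    by_contra h
    have : P.card = 0 := by omega
    rw [this] at m3
    norm_num at m3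
  have huu : (u : ℝ) ≤ (u : ℝ) ^ 2 := by
    have : u ≤ u ^ 2 := by nlinarith [Nat.zero_le u]
    exact_mod_cast this
  have huP' : (2 : ℝ) * u ≤ P.card := by nlinarith
  have huP : 2 * u ≤ P.card := by exact_mod_cast huP'
  have hc := choose_one hN1 huP
  have hmem : ∀ s ∈ prods P u, 1 ≤ s ∧ s ≤ D ∧ (s : ZMod D) ^ (n - 1) = 1 := by
    intro s hs
    obtain ⟨g3, g4, g5, g6, _⟩ := prods_spec hPp hPy hs
    refine ⟨g3, g4.trans u1, pow_eq_one_of_primes s g3 fun p hp hps => ?_⟩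
    have h7 : p ∈ P := g5 (Nat.mem_primeFactors.mpr ⟨hp, hps, by omega⟩)
    exact pow_of_passes_dvd (hn p h7) hDn
  have hcard : (prods P u).card ≤ liars n D := by
    unfold liars
    have hinj : Function.Injective (fun s : prods P u => (⟨((s : ℕ) : ZMod D), (hmem s s.2).2.2⟩ :
        {z : ZMod D // z ^ (n - 1) = 1})) := by
      intro s s' hss
      have h1 : ((s : ℕ) : ZMod D) = ((s' : ℕ) : ZMod D) := congrArg Subtype.val hss
      rw [ZMod.natCast_eq_natCast_iff] at h1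
      obtain ⟨a1, a2, _⟩ := hmem s s.2
      obtain ⟨b1, b2, _⟩ := hmem s' s'.2
      apply Subtype.ext
      have h2 : ((s : ℕ) - 1) ≡ ((s' : ℕ) - 1) [MOD D] := by
        have e1 : (s : ℕ) = ((s : ℕ) - 1) + 1 := by omega
        have e2 : (s' : ℕ) = ((s' : ℕ) - 1) + 1 := by omega
        rw [e1, e2] at h1
        exact Nat.ModEq.add_right_cancel' 1 h1
      have h3 := Nat.ModEq.eq_of_lt_of_lt h2 (by omega) (by omega)
      omega
    have h1 := Nat.card_le_card_of_injective _ hinj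
    rw [Nat.card_eq_fintype_card, Fintype.card_coe] at h1
    exact h1
  rw [card_prods hPp] at hcard
  have hcard' : (P.card.choose u : ℝ) ≤ liars n D := by exact_mod_cast hcard
  have e1 : (8 * u / (4 * P.card) : ℝ) = 2 * u / P.card := by
    have : (0 : ℝ) < P.card := by exact_mod_cast hN1
    field_simp
    ring
  rw [e1] at m1
  have h5 : 1 ≤ (liars n D : ℝ) * (L ^ (θ - 1) * (D : ℝ) ^ (-((θ - 1) / A) + ε)) := by
    refine hc.trans ?_
    apply mul_le_mul hcard' m1 (by positivity) (by positivity)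
  have h6 : (D : ℝ) ^ ((θ - 1) / A - ε) * (D : ℝ) ^ (-((θ - 1) / A) + ε) = 1 := by
    rw [← rpow_add hDpos]
    rw [show (θ - 1) / A - ε + (-((θ - 1) / A) + ε) = 0 by ring, rpow_zero]
  have h7 : 0 < (D : ℝ) ^ (-((θ - 1) / A) + ε) := by positivity
  have h8 : (D : ℝ) ^ ((θ - 1) / A - ε) * (D : ℝ) ^ (-((θ - 1) / A) + ε) ≤
      (liars n D : ℝ) * L ^ (θ - 1) * (D : ℝ) ^ (-((θ - 1) / A) + ε) := by
    rw [h6]
    calc (1 : ℝ) ≤ _ := h5
      _ = _ := by ring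
  exact le_of_mul_le_mul_right h8 h7

end Pool.Agent.TH725.TS
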