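import Pool.Agent.TH725.TS.Cnt2

set_option autoImplicit false

/-! From counting in a fixed test set to the final statements. -/

namespace Pool.Agent.TH725.TS

open Finset Real Pool.Agent.W57.SW Pool.Agent.H379R2.W

/-- `n` is composite and passes the strong test for at least the proportion `ρ` of the elements of `B` -/
def BadR (B : Finset ℕ) (ρ : ℝ) (n : ℕ) : Prop :=
  2 ≤ n ∧ ¬ n.Prime ∧ ∃ P : Finset ℕ, P ⊆ B ∧ (∀ ℓ ∈ P, Passes n ℓ) ∧ ρ * B.card ≤ P.card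

open Classical in
/-- at most `K x^β` composite `n ≤ x` pass the strong test for the proportion `ρ` of the elements of `B`, for every
large enough set `B` of small primes -/
def CountR (A θ ρ β : ℝ) : Prop :=
  ∃ K : ℝ, 0 < K ∧ ∀ x : ℕ, 3 ≤ x → ∀ B : Finset ℕ, (∀ p ∈ B, p.Prime) →
    (∀ p ∈ B, (p : ℝ) ≤ 2 * (log x) ^ A) →
    (log (x : ℝ)) ^ θ ≤ (B.card : ℝ) * (log (log x)) ^ (3 / 2 : ℝ) →
    (((Icc 1 x).filter (BadR B ρ)).card : ℝ) ≤ K * (x : ℝ) ^ β

/-- the size of the test set -/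
lemma card_low {θ L N : ℝ} (hθ : 2 ≤ θ) (hL : 3 ≤ L) (h : L ^ θ ≤ N * (log L) ^ (3 / 2 : ℝ)) :
    L ^ (1 / 2 : ℝ) ≤ N := by
  have hL0 : 0 < L := by linarith
  have h1 : 1 ≤ log L := by
    rw [le_log_iff_exp_le hL0]; linarith [exp_one_lt_d9]
  have h2 : log L ≤ L := (log_le_sub_one_of_pos hL0).trans (by linarith)
  have h3 : (log L) ^ (3 / 2 : ℝ) ≤ L ^ (3 / 2 : ℝ) :=
    rpow_le_rpow (by linarith) h2 (by norm_num)
  have hN : 0 ≤ N := by
    by_contra hN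
    push Not at hN
    have h4 : 0 < (log L) ^ (3 / 2 : ℝ) := by positivity
    have h5 : N * (log L) ^ (3 / 2 : ℝ) < 0 := mul_neg_of_neg_of_pos hN h4
    have h6 : 0 < L ^ θ := by positivity
    linarith
  have h4 : L ^ (2 : ℝ) ≤ N * L ^ (3 / 2 : ℝ) :=
    (rpow_le_rpow_of_exponent_le (by linarith) hθ).trans
      (h.trans (mul_le_mul_of_nonneg_left h3 hN))
  have h5 : L ^ (2 : ℝ) = L ^ (1 / 2 : ℝ) * L ^ (3 / 2 : ℝ) := by
    rw [← rpow_add hL0]; norm_num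
  rw [h5] at h4
  exact le_of_mul_le_mul_right h4 (by positivity)

theorem countR_half (A θ ρ ε : ℝ) (hθ : 2 ≤ θ) (hθA : θ ≤ A) (hρ : 1 / 2 < ρ) (hε : 0 < ε) :
    CountR A θ ρ (1 - (θ - 1) / A + ε) := by
  classical
  have hA0 : 0 < A := by linarith
  obtain ⟨δ, hδ⟩ : ∃ δ : ℝ, δ = ρ - 1 / 2 := ⟨_, rfl⟩
  have hδ0 : 0 < δ := by rw [hδ]; linarith
  obtain ⟨K, L0, hK, hL0, hmain⟩ := main_count A θ δ ε hθ hθA hδ0 hε
  obtain ⟨L1, hL1⟩ : ∃ L1 : ℝ, L1 = max L0 ((1 / δ) ^ 2) := ⟨_, rfl⟩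
  have hβ : 0 ≤ 1 - (θ - 1) / A + ε := by
    have : (θ - 1) / A ≤ 1 := by rw [div_le_one hA0]; linarith
    linarith
  refine ⟨K + exp L1, by positivity, ?_⟩
  intro x hx B hBp hBy hB
  have hx1 : (1 : ℝ) ≤ x := by exact_mod_cast (by omega : 1 ≤ x)
  have hxpos : (0 : ℝ) < x := by linarith
  have hxβ : 1 ≤ (x : ℝ) ^ (1 - (θ - 1) / A + ε) := one_le_rpow hx1 hβ
  rcases lt_or_ge (log (x : ℝ)) L1 with hs | hl
  · have h1 : (((Icc 1 x).filter (BadR B ρ)).card : ℝ) ≤ x := by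
      have : ((Icc 1 x).filter (BadR B ρ)).card ≤ x :=
        (card_filter_le _ _).trans (by rw [Nat.card_Icc]; omega)
      exact_mod_cast this
    have h2 : (x : ℝ) ≤ exp L1 := by
      rw [← exp_log hxpos]; exact exp_le_exp.mpr hs.le
    calc (((Icc 1 x).filter (BadR B ρ)).card : ℝ) ≤ exp L1 * 1 := by linarith
      _ ≤ exp L1 * (x : ℝ) ^ (1 - (θ - 1) / A + ε) :=
          mul_le_mul_of_nonneg_left hxβ (exp_pos _).le
      _ ≤ _ := mul_le_mul_of_nonneg_right (by linarith) (by positivity)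
  · have hl0 : L0 ≤ log (x : ℝ) := by rw [hL1] at hl; exact (le_max_left _ _).trans hl
    have hl1 : (1 / δ) ^ 2 ≤ log (x : ℝ) := by rw [hL1] at hl; exact (le_max_right _ _).trans hl
    have hl3 : 3 ≤ log (x : ℝ) := hL0.trans hl0
    have hcard := card_low hθ hl3 hB
    have hδB : 1 ≤ δ * B.card := by
      have h1 : 1 / δ ≤ (log (x : ℝ)) ^ (1 / 2 : ℝ) := by
        have h2 := rpow_le_rpow (by positivity) hl1 (show (0 : ℝ) ≤ 1 / 2 by norm_num)
        rw [← rpow_natCast, ← rpow_mul (by positivity)] at h2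
        norm_num at h2
        rw [one_div]
        convert h2 using 2
      have h2 : 1 / δ ≤ B.card := h1.trans hcard
      rw [div_le_iff₀ hδ0] at h2
      linarith
    have hy : ∀ p ∈ B, p ≤ yb A (log x) := fun p hp => Nat.le_floor (hBy p hp)
    have h1 := hmain x hl0 B hBp hy hB ⌈δ * B.card⌉₊ (Nat.le_ceil _)
    have hsub : (Icc 1 x).filter (BadR B ρ) ⊆ (Icc 1 x).filter (BadS B ⌈δ * B.card⌉₊) := by
      intro n hn
      rw [mem_filter] at hn ⊢
      obtain ⟨hn1, hn2, hnp, P, hPB, hP, hc⟩ := hn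
      refine ⟨hn1, hn2, hnp, P, hPB, hP, ?_⟩
      have h2 : ((⌈δ * B.card⌉₊ : ℕ) : ℝ) < δ * B.card + 1 := Nat.ceil_lt_add_one (by positivity)
      have h3 : ((B.card + ⌈δ * B.card⌉₊ : ℕ) : ℝ) ≤ ((2 * P.card : ℕ) : ℝ) := by
        push_cast
        have : ρ * B.card = 1 / 2 * B.card + δ * B.card := by rw [hδ]; ring
        rw [this] at hc
        linarith
      exact_mod_cast h3
    have h2 : (((Icc 1 x).filter (BadR B ρ)).card : ℝ) ≤
        ((Icc 1 x).filter (BadS B ⌈δ * B.card⌉₊)).card := by exact_mod_cast card_le_card hsub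
    refine h2.trans (h1.trans ?_)
    exact mul_le_mul_of_nonneg_right (by linarith [exp_pos L1]) (by positivity)

end Pool.Agent.TH725.TS
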