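import Pool.Agent.TH725.TS.Fin1

set_option autoImplicit false

/-! The test set of all primes up to `2 (log n)^A`. -/

namespace Pool.Agent.TH725.TS

open Finset Real Pool.Agent.W57.SW Pool.Agent.H379R2.W

open Classical in
/-- `n` is composite and less than the proportion `κ` of the primes at most `2 (log n)^A` are witnesses -/
def FewAt (A κ : ℝ) (n : ℕ) : Prop :=
  2 ≤ n ∧ ¬ n.Prime ∧
    (((pr (yb A (log n))).filter (fun ℓ => ¬ Passes n ℓ)).card : ℝ) < κ * (pr (yb A (log n))).card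

/-- many primes -/
lemma ev_primes (A : ℝ) (hA : 2 ≤ A) : ∃ L0 : ℝ, 3 ≤ L0 ∧ ∀ L : ℝ, L0 ≤ L →
    L ^ A ≤ ((pr (yb A L)).card : ℝ) * (log L) ^ (3 / 2 : ℝ) := by
  have hev : ∀ᶠ y : ℝ in Filter.atTop, log y ≤ 1 / 6 * y := by
    have h := (isLittleO_log_id_atTop).def (show (0 : ℝ) < 1 / 6 by norm_num)
    filter_upwards [h, Filter.eventually_ge_atTop 1] with y h1 h2
    rwa [norm_of_nonneg (log_nonneg h2), id, norm_of_nonneg (by linarith)] at h1
  obtain ⟨Y0, hY0⟩ := Filter.eventually_atTop.mp hev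
  have hev2 : ∀ᶠ L : ℝ in Filter.atTop, (3 * (1 + A)) ^ 2 ≤ log L :=
    tendsto_log_atTop.eventually (Filter.eventually_ge_atTop _)
  obtain ⟨L2, hL2⟩ := Filter.eventually_atTop.mp hev2
  refine ⟨max 6 (max Y0 L2), le_trans (by norm_num) (le_max_left _ _), ?_⟩
  intro L hL
  have h6 : 6 ≤ L := (le_max_left _ _).trans hL
  have hLY : Y0 ≤ L := (le_max_left _ _).trans ((le_max_right _ _).trans hL)
  have hLL : L2 ≤ L := (le_max_right _ _).trans ((le_max_right _ _).trans hL)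
  obtain ⟨y1, y2, y3, y4, y5, y6⟩ := yb_facts (show 1 ≤ A by linarith) (show 3 ≤ L by linarith)
  have hL0 : 0 < L := by linarith
  obtain ⟨y, hy⟩ : ∃ y, y = yb A L := ⟨_, rfl⟩
  rw [← hy] at y1 y2 y3 y4 y5 y6 ⊢
  have hLA : L ≤ L ^ A := by
    have := rpow_le_rpow_of_exponent_le (by linarith : 1 ≤ L) (show 1 ≤ A by linarith)
    rwa [rpow_one] at this
  have hyL : L ≤ y := hLA.trans y2
  have h1 := primeCounting_low (y := y)
  rw [← card_pr] at h1
  have hy0 : (0 : ℝ) < y := by linarith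
  have h2 : log ((y : ℝ) + 1) ≤ y / 3 := by
    have a1 : log ((y : ℝ) + 1) ≤ log (2 * y) := log_le_log (by positivity) (by linarith)
    rw [log_mul (by norm_num) hy0.ne'] at a1
    have a2 := hY0 y (hLY.trans hyL)
    have a3 := log_two_lt_d9
    linarith
  have h3 : (y : ℝ) / 3 ≤ ((pr y).card : ℝ) * log y := by
    have := log_two_gt_d9
    nlinarith
  have hlL : 1 ≤ log L := by
    rw [le_log_iff_exp_le hL0]; linarith [exp_one_lt_d9]
  have h4 : 3 * log y ≤ (log L) ^ (3 / 2 : ℝ) := by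
    have b1 := hL2 L hLL
    have b2 : 3 * (1 + A) ≤ (log L) ^ (1 / 2 : ℝ) := by
      have h2 := rpow_le_rpow (by positivity) b1 (show (0 : ℝ) ≤ 1 / 2 by norm_num)
      rw [← rpow_natCast, ← rpow_mul (by positivity)] at h2
      norm_num at h2
      convert h2 using 2
    have b3 : (log L) ^ (3 / 2 : ℝ) = (log L) ^ (1 / 2 : ℝ) * log L := by
      nth_rewrite 3 [← rpow_one (log L)]
      rw [← rpow_add (by linarith)]; norm_num
    rw [b3]
    have b4 : 3 * log y ≤ 3 * (1 + A) * log L := by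
      have := log_two_lt_d9
      nlinarith
    exact b4.trans (mul_le_mul_of_nonneg_right b2 (by linarith))
  have hpr : (0 : ℝ) ≤ (pr y).card := Nat.cast_nonneg _
  calc L ^ A ≤ y := y2
    _ = 3 * (y / 3) := by ring
    _ ≤ 3 * (((pr y).card : ℝ) * log y) := by linarith
    _ = ((pr y).card : ℝ) * (3 * log y) := by ring
    _ ≤ _ := mul_le_mul_of_nonneg_left h4 hpr

lemma pow_diff {A L l : ℝ} (hA : 1 ≤ A) (hL : 1 ≤ L) (hl : L - 1 ≤ l) (hl0 : 0 ≤ l) :
    L ^ A - l ^ A ≤ A * L ^ (A - 1) := by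
  have hL0 : 0 < L := by linarith
  have h1 : (L - 1) ^ A ≤ l ^ A := rpow_le_rpow (by linarith) hl (by linarith)
  have h2 : 1 + A * (-(1 / L)) ≤ (1 + -(1 / L)) ^ A := by
    apply one_add_mul_self_le_rpow_one_add _ hA
    have : 1 / L ≤ 1 := by rw [div_le_one hL0]; exact hL
    linarith
  have h3 : L ^ A * (1 + -(1 / L)) ^ A = (L - 1) ^ A := by
    rw [← mul_rpow hL0.le]
    · congr 1
      field_simp
      ring
    · have : 1 / L ≤ 1 := by rw [div_le_one hL0]; exact hL
      linarith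
  have h4 : L ^ A * (1 + A * (-(1 / L))) ≤ (L - 1) ^ A := by
    rw [← h3]; exact mul_le_mul_of_nonneg_left h2 (by positivity)
  have h5 : L ^ A * (1 / L) = L ^ (A - 1) := by
    rw [rpow_sub_one hL0.ne']; ring
  have h6 : L ^ A * (1 + A * (-(1 / L))) = L ^ A - A * (L ^ A * (1 / L)) := by ring
  rw [h6, h5] at h4
  linarith

open Classical in
lemma few_top (A κ ρ β : ℝ) (hA : 2 ≤ A) (hκ : 0 ≤ κ) (hκρ : κ + ρ < 1) (hβ : 0 ≤ β)
    (H : CountR A A ρ β) : ∃ K : ℝ, 0 < K ∧ ∀ x : ℕ, 1 ≤ x →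
      (((Icc 1 x).filter (fun n => FewAt A κ n ∧ x < 2 * n)).card : ℝ) ≤ K * (x : ℝ) ^ β := by
  obtain ⟨K, hK, hcount⟩ := H
  obtain ⟨L1, hL1, hprimes⟩ := ev_primes A hA
  obtain ⟨γ, hγ⟩ : ∃ γ : ℝ, γ = 1 - κ - ρ := ⟨_, rfl⟩
  have hγ0 : 0 < γ := by rw [hγ]; linarith
  obtain ⟨L2, hL2⟩ := ev_log ((2 * A + 1) / γ) 1 (3 / 2) one_pos
  obtain ⟨L0, hL0⟩ : ∃ L0 : ℝ, L0 = max L1 L2 := ⟨_, rfl⟩
  refine ⟨K + exp L0, by positivity, ?_⟩
  intro x hx
  have hx1 : (1 : ℝ) ≤ x := by exact_mod_cast hx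
  have hxpos : (0 : ℝ) < x := by linarith
  have hxβ : 1 ≤ (x : ℝ) ^ β := one_le_rpow hx1 hβ
  rcases lt_or_ge (log (x : ℝ)) L0 with hs | hl
  · have h1 : (((Icc 1 x).filter (fun n => FewAt A κ n ∧ x < 2 * n)).card : ℝ) ≤ x := by
      have : ((Icc 1 x).filter (fun n => FewAt A κ n ∧ x < 2 * n)).card ≤ x :=
        (card_filter_le _ _).trans (by rw [Nat.card_Icc]; omega)
      exact_mod_cast this
    have h2 : (x : ℝ) ≤ exp L0 := by
      rw [← exp_log hxpos]; exact exp_le_exp.mpr hs.le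
    calc (((Icc 1 x).filter (fun n => FewAt A κ n ∧ x < 2 * n)).card : ℝ) ≤ exp L0 * 1 := by
          linarith
      _ ≤ exp L0 * (x : ℝ) ^ β := mul_le_mul_of_nonneg_left hxβ (exp_pos _).le
      _ ≤ _ := mul_le_mul_of_nonneg_right (by linarith) (by positivity)
  · obtain ⟨L, hL⟩ : ∃ L : ℝ, L = log x := ⟨_, rfl⟩
    rw [← hL] at hl
    have c1 : L1 ≤ L := by rw [hL0] at hl; exact (le_max_left _ _).trans hl
    have c2 : L2 ≤ L := by rw [hL0] at hl; exact (le_max_right _ _).trans hl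
    have h3 : 3 ≤ L := hL1.trans c1
    have hLpos : 0 < L := by linarith
    have hx3 : 3 ≤ x := by
      by_contra hlt
      have : (x : ℝ) ≤ 2 := by exact_mod_cast (by omega : x ≤ 2)
      have h4 : L ≤ log 2 := by rw [hL]; exact log_le_log hxpos this
      linarith [log_two_lt_d9]
    obtain ⟨B, hB⟩ : ∃ B, B = pr (yb A L) := ⟨_, rfl⟩
    have hBp : ∀ p ∈ B, p.Prime := fun p hp => (mem_pr.mp (hB ▸ hp)).1
    have hyle : (yb A L : ℝ) ≤ 2 * L ^ A := (yb_facts (by linarith) h3).2.2.1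
    have hBy : ∀ p ∈ B, (p : ℝ) ≤ 2 * (log x) ^ A := by
      intro p hp
      have h1 := (mem_pr.mp (hB ▸ hp)).2
      have h2 : (p : ℝ) ≤ yb A L := by exact_mod_cast h1
      rw [← hL]
      exact h2.trans hyle
    have hBc := hprimes L c1
    rw [← hB] at hBc
    have h1 := hcount x hx3 B hBp hBy (by rw [← hL]; exact hBc)
    have hsub : (Icc 1 x).filter (fun n => FewAt A κ n ∧ x < 2 * n) ⊆
        (Icc 1 x).filter (BadR B ρ) := by
      intro n hn
      rw [mem_filter, mem_Icc] at hn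
      rw [mem_filter, mem_Icc]
      obtain ⟨⟨hn1, hnx⟩, ⟨hn2, hnp, hfew⟩, hnx2⟩ := hn
      refine ⟨⟨hn1, hnx⟩, hn2, hnp, B.filter (Passes n), filter_subset _ _,
        fun ℓ hℓ => (mem_filter.mp hℓ).2, ?_⟩
      have hn0 : (0 : ℝ) < n := by exact_mod_cast (by omega : 0 < n)
      obtain ⟨l, hl'⟩ : ∃ l : ℝ, l = log n := ⟨_, rfl⟩
      have hlL : l ≤ L := by
        rw [hl', hL]; exact log_le_log hn0 (by exact_mod_cast hnx)
      have hlL' : L - 1 ≤ l := by
        have e1 : (x : ℝ) ≤ 2 * n := by exact_mod_cast hnx2.le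
        have e2 : log (x : ℝ) ≤ log (2 * n) := log_le_log hxpos e1
        rw [log_mul (by norm_num) hn0.ne', ← hL, ← hl'] at e2
        linarith [log_two_lt_d9]
      have hl0 : 0 ≤ l := by linarith
      rw [← hl'] at hfew
      have hybm : yb A l ≤ yb A L := by
        unfold yb
        apply Nat.floor_le_floor
        have := rpow_le_rpow hl0 hlL (show 0 ≤ A by linarith)
        linarith
      have hprm : pr (yb A l) ⊆ B := by
        intro p hp
        rw [hB, mem_pr]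
        rw [mem_pr] at hp
        exact ⟨hp.1, hp.2.trans hybm⟩
      have hW : B.filter (fun ℓ => ¬ Passes n ℓ) ⊆
          (pr (yb A l)).filter (fun ℓ => ¬ Passes n ℓ) ∪ Ioc (yb A l) (yb A L) := by
        intro ℓ hℓ
        rw [mem_filter] at hℓ
        rw [mem_union, mem_filter, mem_pr, mem_Ioc]
        have h2 := mem_pr.mp (hB ▸ hℓ.1)
        rcases le_or_gt ℓ (yb A l) with h | h
        · exact Or.inl ⟨⟨h2.1, h⟩, hℓ.2⟩
        · exact Or.inr ⟨h, h2.2⟩
      have hWc := (card_le_card hW).trans (card_union_le _ _)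
      rw [Nat.card_Ioc] at hWc
      have hdiff : ((yb A L - yb A l : ℕ) : ℝ) ≤ 2 * A * L ^ (A - 1) + 1 := by
        rw [Nat.cast_sub hybm]
        have e1 : 2 * l ^ A < (yb A l : ℝ) + 1 := Nat.lt_floor_add_one _
        have e2 := pow_diff (show 1 ≤ A by linarith) (by linarith) hlL' hl0
        linarith
      have hWr : ((B.filter (fun ℓ => ¬ Passes n ℓ)).card : ℝ) ≤
          κ * B.card + (2 * A * L ^ (A - 1) + 1) := by
        have e1 : ((B.filter (fun ℓ => ¬ Passes n ℓ)).card : ℝ) ≤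
            (((pr (yb A l)).filter (fun ℓ => ¬ Passes n ℓ)).card : ℝ) +
              ((yb A L - yb A l : ℕ) : ℝ) := by exact_mod_cast hWc
        have e2 : ((pr (yb A l)).card : ℝ) ≤ B.card := by exact_mod_cast card_le_card hprm
        have e3 := mul_le_mul_of_nonneg_left e2 hκ
        linarith
      have hsum : ((B.filter (Passes n)).card : ℝ) +
          ((B.filter (fun ℓ => ¬ Passes n ℓ)).card : ℝ) = B.card := by
        exact_mod_cast card_filter_add_card_filter_not (s := B) (Passes n)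
      have hsmall : 2 * A * L ^ (A - 1) + 1 ≤ γ * B.card := by
        have e1 := hL2 L c2
        rw [rpow_one] at e1
        have e2 : 1 ≤ L ^ (A - 1) := one_le_rpow (by linarith) (by linarith)
        have e3 : 0 < (log L) ^ (3 / 2 : ℝ) := by
          have : 0 < log L := log_pos (by linarith)
          positivity
        have e4 : (2 * A + 1) * (log L) ^ (3 / 2 : ℝ) ≤ γ * L := by
          have : (2 * A + 1) / γ * (log L) ^ (3 / 2 : ℝ) =
            ((2 * A + 1) * (log L) ^ (3 / 2 : ℝ)) / γ := by ring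
          rw [this, div_le_iff₀ hγ0] at e1
          linarith
        have e5 : L ^ (A - 1) * L = L ^ A := by
          nth_rewrite 2 [← rpow_one L]
          rw [← rpow_add hLpos]; congr 1; ring
        have e6 : (2 * A * L ^ (A - 1) + 1) * (log L) ^ (3 / 2 : ℝ) ≤
            (γ * B.card) * (log L) ^ (3 / 2 : ℝ) := by
          calc (2 * A * L ^ (A - 1) + 1) * (log L) ^ (3 / 2 : ℝ) ≤
              (2 * A * L ^ (A - 1) + L ^ (A - 1)) * (log L) ^ (3 / 2 : ℝ) :=
                mul_le_mul_of_nonneg_right (by linarith) e3.le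
            _ = L ^ (A - 1) * ((2 * A + 1) * (log L) ^ (3 / 2 : ℝ)) := by ring
            _ ≤ L ^ (A - 1) * (γ * L) := mul_le_mul_of_nonneg_left e4 (by positivity)
            _ = γ * L ^ A := by rw [← e5]; ring
            _ ≤ γ * ((B.card : ℝ) * (log L) ^ (3 / 2 : ℝ)) := mul_le_mul_of_nonneg_left hBc hγ0.le
            _ = _ := by ring
        exact le_of_mul_le_mul_right e6 e3
      have hρ : ρ = 1 - κ - γ := by rw [hγ]; ring
      rw [hρ]
      linarith
    have h2 : (((Icc 1 x).filter (fun n => FewAt A κ n ∧ x < 2 * n)).card : ℝ) ≤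
        ((Icc 1 x).filter (BadR B ρ)).card := by exact_mod_cast card_le_card hsub
    refine h2.trans (h1.trans ?_)
    exact mul_le_mul_of_nonneg_right (by linarith [exp_pos L0]) (by positivity)

open Classical in
theorem few_count (A κ ρ β : ℝ) (hA : 2 ≤ A) (hκ : 0 ≤ κ) (hκρ : κ + ρ < 1) (hβ : 0 < β)
    (H : CountR A A ρ β) : ∃ K : ℝ, 0 < K ∧ ∀ x : ℕ, 1 ≤ x →
      (((Icc 1 x).filter (FewAt A κ)).card : ℝ) ≤ K * (x : ℝ) ^ β := by
  obtain ⟨K, hK, hKx⟩ := few_top A κ ρ β hA hκ hκρ hβ.le H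
  obtain ⟨r, hr⟩ : ∃ r : ℝ, r = (1 / 2 : ℝ) ^ β := ⟨_, rfl⟩
  have hr1 : r < 1 := by rw [hr]; exact rpow_lt_one (by norm_num) (by norm_num) hβ
  have hr0 : 0 < r := by rw [hr]; positivity
  refine ⟨K / (1 - r), div_pos hK (by linarith), ?_⟩
  intro x
  induction x using Nat.strong_induction_on with
  | _ x ih =>
  intro hx
  have hx1 : (1 : ℝ) ≤ x := by exact_mod_cast hx
  have hxpos : (0 : ℝ) < x := by linarith
  have hpow : (0 : ℝ) ≤ (x : ℝ) ^ β := by positivity
  rcases Nat.lt_or_ge x 2 with h2 | h2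
  · have hx' : x = 1 := by omega
    have h1 : (Icc 1 x).filter (FewAt A κ) = ∅ := by
      rw [filter_eq_empty_iff]
      intro n hn hb
      rw [mem_Icc] at hn
      have := hb.1
      omega
    rw [h1]
    simp only [card_empty, Nat.cast_zero]
    have : 0 < 1 - r := by linarith
    positivity
  · have hcov : (Icc 1 x).filter (FewAt A κ) ⊆
        (Icc 1 x).filter (fun n => FewAt A κ n ∧ x < 2 * n) ∪ (Icc 1 (x / 2)).filter (FewAt A κ) := by
      intro n hn
      rw [mem_filter, mem_Icc] at hn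
      rw [mem_union, mem_filter, mem_filter, mem_Icc, mem_Icc]
      rcases lt_or_ge x (2 * n) with h | h
      · exact Or.inl ⟨hn.1, hn.2, h⟩
      · right
        exact ⟨⟨hn.1.1, by omega⟩, hn.2⟩
    have h3 := (card_le_card hcov).trans (card_union_le _ _)
    have h4 : (((Icc 1 x).filter (FewAt A κ)).card : ℝ) ≤
        (((Icc 1 x).filter (fun n => FewAt A κ n ∧ x < 2 * n)).card : ℝ) +
        (((Icc 1 (x / 2)).filter (FewAt A κ)).card : ℝ) := by exact_mod_cast h3
    have h5 := hKx x hx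
    have h6 := ih (x / 2) (by omega) (by omega)
    have h7 : ((x / 2 : ℕ) : ℝ) ^ β ≤ r * (x : ℝ) ^ β := by
      have a1 : ((x / 2 : ℕ) : ℝ) ≤ 1 / 2 * x := by
        have := Nat.cast_div_le (α := ℝ) (m := x) (n := 2)
        push_cast at this
        linarith
      refine (rpow_le_rpow (Nat.cast_nonneg _) a1 hβ.le).trans (le_of_eq ?_)
      rw [mul_rpow (by norm_num) hxpos.le, hr]
    have h8 : K / (1 - r) * ((x / 2 : ℕ) : ℝ) ^ β ≤ K / (1 - r) * (r * (x : ℝ) ^ β) :=
      mul_le_mul_of_nonneg_left h7 (div_pos hK (by linarith)).le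
    have h9 : K * (x : ℝ) ^ β + K / (1 - r) * (r * (x : ℝ) ^ β) = K / (1 - r) * (x : ℝ) ^ β := by
      have : (1 - r) ≠ 0 := by linarith
      field_simp
      ring
    linarith

end Pool.Agent.TH725.TS
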