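import Pool.Agent.TH725.TS.Str2

set_option autoImplicit false

/-! Greedy decomposition of the odd squarefree part into parts with biased symbols and few primes. -/

namespace Pool.Agent.TH725.TS.G

open Finset Real Pool.Agent.W57.SW Pool.Agent.H379R2.W Pool.Agent.TH725.TS

lemma ev_sum (D : Finset ℕ) (f : ℕ → ℤ) (e : ℕ → ℕ) :
    2 * ∑ U ∈ D.powerset.filter (fun U => Even (∑ g ∈ U, e g)), ∏ g ∈ U, f g =
      ∏ g ∈ D, (1 + f g) + ∏ g ∈ D, (1 + (-1) ^ (e g) * f g) := by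
  rw [prod_one_add, prod_one_add, ← sum_add_distrib, mul_sum, sum_filter]
  apply sum_congr rfl
  intro U _
  rw [prod_mul_distrib, prod_pow_eq_pow_sum]
  split_ifs with h
  · rw [h.neg_one_pow]; ring
  · rw [Nat.not_even_iff_odd] at h
    rw [h.neg_one_pow]; ring

lemma ev_nonneg (D : Finset ℕ) (f : ℕ → ℤ) (hf : ∀ g, f g = 0 ∨ f g = 1 ∨ f g = -1) (e : ℕ → ℕ) :
    0 ≤ ∑ U ∈ D.powerset.filter (fun U => Even (∑ g ∈ U, e g)), ∏ g ∈ U, f g := by
  have h := ev_sum D f e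
  have h1 : 0 ≤ ∏ g ∈ D, (1 + f g) := by
    apply prod_nonneg
    intro g _
    rcases hf g with h | h | h <;> rw [h] <;> norm_num
  have h2 : 0 ≤ ∏ g ∈ D, (1 + (-1) ^ (e g) * f g) := by
    apply prod_nonneg
    intro g _
    rcases neg_one_pow_eq_or ℤ (e g) with h' | h' <;> rw [h'] <;>
      rcases hf g with h | h | h <;> rw [h] <;> norm_num
  linarith

lemma ev_card (D : Finset ℕ) (e : ℕ → ℕ) {j : ℕ} (hD : j + 1 ≤ D.card) :
    2 ^ j ≤ (D.powerset.filter (fun U => Even (∑ g ∈ U, e g))).card := by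
  have h := ev_sum D (fun _ => 1) e
  have h2 : 0 ≤ ∏ g ∈ D, (1 + (-1 : ℤ) ^ (e g) * 1) := by
    apply prod_nonneg
    intro g _
    rcases neg_one_pow_eq_or ℤ (e g) with h' | h' <;> rw [h'] <;> norm_num
  simp only [prod_const, one_pow, sum_const, nsmul_eq_mul, mul_one] at h h2
  have h3 : (2 : ℤ) ^ (j + 1) ≤ (1 + 1) ^ D.card := by
    norm_num
    exact pow_le_pow_right₀ (by norm_num) hD
  have h4 : (2 : ℤ) * 2 ^ j ≤
      2 * ((D.powerset.filter (fun U => Even (∑ g ∈ U, e g))).card : ℤ) := by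
    rw [h]
    rw [pow_succ] at h3
    linarith
  have h5 : (2 : ℤ) ^ j ≤ ((D.powerset.filter (fun U => Even (∑ g ∈ U, e g))).card : ℤ) := by
    linarith
  exact_mod_cast h5

theorem block (D B P : Finset ℕ) (χ : ℕ → ℕ → ℤ)
    (hχ : ∀ ℓ g, χ ℓ g = 0 ∨ χ ℓ g = 1 ∨ χ ℓ g = -1) (e : ℕ → ℕ) (s : ℕ → ℤ)
    (hs : ∀ ℓ ∈ P, s ℓ = 1 ∨ s ℓ = -1) (hPχ : ∀ ℓ ∈ P, ∀ g ∈ D, χ ℓ g = s ℓ ^ e g) (hPB : P ⊆ B)
    {j S : ℕ} (hS : 1 ≤ S) (hcard : B.card + 2 ^ j * S ≤ 2 ^ j * P.card) (hD : j + 1 ≤ D.card) :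
    ∃ U ⊆ D, U.Nonempty ∧ (S : ℤ) ≤ ∑ ℓ ∈ B, ∏ g ∈ U, χ ℓ g := by
  by_contra hcon
  push Not at hcon
  obtain ⟨ev, hev⟩ : ∃ ev, ev = D.powerset.filter (fun U => Even (∑ g ∈ U, e g)) := ⟨_, rfl⟩
  have hN := ev_card D e hD
  rw [← hev] at hN
  have h0 : ∅ ∈ ev := by
    rw [hev, mem_filter, mem_powerset]
    exact ⟨empty_subset _, by simp⟩
  have h1 : ∑ U ∈ ev, ∑ ℓ ∈ B, ∏ g ∈ U, χ ℓ g ≤ (B.card : ℤ) + ((ev.card : ℤ) - 1) * S := by
    rw [← add_sum_erase ev _ h0]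
    have e1 : ∑ ℓ ∈ B, ∏ g ∈ (∅ : Finset ℕ), χ ℓ g = (B.card : ℤ) := by simp
    rw [e1]
    have e2 : ∑ U ∈ ev.erase ∅, ∑ ℓ ∈ B, ∏ g ∈ U, χ ℓ g ≤ ∑ _U ∈ ev.erase ∅, (S : ℤ) := by
      apply sum_le_sum
      intro U hU
      rw [mem_erase, hev, mem_filter, mem_powerset] at hU
      exact (hcon U hU.2.1 (nonempty_iff_ne_empty.mpr hU.1)).le
    rw [sum_const, card_erase_of_mem h0, nsmul_eq_mul] at e2
    have e3 : ((ev.card - 1 : ℕ) : ℤ) = (ev.card : ℤ) - 1 := by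
      have : 1 ≤ ev.card := card_pos.mpr ⟨∅, h0⟩
      push_cast [this]
      ring
    rw [e3] at e2
    linarith
  have h2 : (ev.card : ℤ) * P.card ≤ ∑ U ∈ ev, ∑ ℓ ∈ B, ∏ g ∈ U, χ ℓ g := by
    rw [sum_comm]
    have e1 : ∑ ℓ ∈ P, ∑ U ∈ ev, ∏ g ∈ U, χ ℓ g ≤ ∑ ℓ ∈ B, ∑ U ∈ ev, ∏ g ∈ U, χ ℓ g := by
      apply sum_le_sum_of_subset_of_nonneg hPB
      intro ℓ _ _
      rw [hev]
      exact ev_nonneg D (χ ℓ) (hχ ℓ) e
    refine le_trans (le_of_eq ?_) e1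
    have e2 : ∀ ℓ ∈ P, ∑ U ∈ ev, ∏ g ∈ U, χ ℓ g = (ev.card : ℤ) := by
      intro ℓ hℓ
      have e3 : ∀ U ∈ ev, ∏ g ∈ U, χ ℓ g = 1 := by
        intro U hU
        rw [hev, mem_filter, mem_powerset] at hU
        rw [prod_congr rfl fun g hg => hPχ ℓ hℓ g (hU.1 hg), prod_pow_eq_pow_sum]
        rcases hs ℓ hℓ with h | h
        · rw [h, one_pow]
        · rw [h]; exact hU.2.neg_one_pow
      rw [sum_congr rfl e3]
      simp
    rw [sum_congr rfl e2, sum_const, nsmul_eq_mul]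
    ring
  have h3 : ((B.card + 2 ^ j * S : ℕ) : ℤ) ≤ ((2 ^ j * P.card : ℕ) : ℤ) := by exact_mod_cast hcard
  push_cast at h3
  have hNz : (2 : ℤ) ^ j ≤ (ev.card : ℤ) := by exact_mod_cast hN
  have hSz : (1 : ℤ) ≤ S := by exact_mod_cast hS
  have hBz : (0 : ℤ) ≤ B.card := by positivity
  have h2j : (1 : ℤ) ≤ 2 ^ j := one_le_pow₀ (by norm_num)
  have hN0 : (0 : ℤ) ≤ ev.card := by linarith
  have h4 := mul_le_mul_of_nonneg_left h3 hN0
  have h5 := mul_le_mul_of_nonneg_left (h2.trans h1) (show (0 : ℤ) ≤ 2 ^ j by linarith)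
  have h6 : ((ev.card : ℤ) - 2 ^ j) * B.card + 2 ^ j * S ≤ 0 := by linarith
  have h7 : 0 ≤ ((ev.card : ℤ) - 2 ^ j) * B.card := mul_nonneg (by linarith) hBz
  have h8 : 0 < (2 : ℤ) ^ j * S := by positivity
  linarith

/-- symbols of liars modulo divisors of `k` -/
lemma sym_pow {n k p : ℕ} (hksq : Squarefree k) (hkodd : Odd k) (hkn : k ∣ n)
    (hp : p ∈ k.primeFactors) (hpmin : ∀ q ∈ k.primeFactors, v2 p ≤ v2 q) {g : ℕ} (hg : g ∣ k)
    {ℓ : ℕ} (hℓ : Passes n ℓ) : jacobiSym (ℓ : ℤ) g =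
      jacobiSym (ℓ : ℤ) p ^ (g.primeFactors.filter (fun q => v2 q = v2 p)).card := by
  have hfac : ∀ q ∈ k.primeFactors, q.Prime ∧ q ∣ n ∧ q ≠ 2 := by
    intro q hq
    rw [Nat.mem_primeFactors] at hq
    refine ⟨hq.1, hq.2.1.trans hkn, ?_⟩
    rintro rfl
    rw [← Nat.not_even_iff_odd, even_iff_two_dvd] at hkodd
    exact hkodd hq.2.1
  obtain ⟨hpp, hpn, hp2⟩ := hfac p hp
  have hgsq : Squarefree g := hksq.squarefree_of_dvd hg
  have hsub : g.primeFactors ⊆ k.primeFactors := Nat.primeFactors_mono hg hksq.ne_zero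
  conv_lhs => rw [← Nat.prod_primeFactors_of_squarefree hgsq]
  rw [jacobi_prod _ _ (fun q hq => (Nat.prime_of_mem_primeFactors hq).ne_zero)]
  have e2 : ∀ q ∈ g.primeFactors, jacobiSym (ℓ : ℤ) q =
      if v2 q = v2 p then jacobiSym (ℓ : ℤ) p else 1 := by
    intro q hq
    obtain ⟨a1, a2, a4⟩ := hfac q (hsub hq)
    have hmin := hpmin q (hsub hq)
    split_ifs with h
    · exact same_symbol hℓ a1 hpp a4 hp2 a2 hpn h
    · exact symbol_one hℓ a1 hpp a4 hp2 a2 hpn (by omega)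
  rw [prod_congr rfl e2, ← prod_filter, prod_const]

theorem block_k {n k x j S : ℕ} {B P : Finset ℕ} (hn2 : 2 ≤ n) (hnx : n ≤ x) (hksq : Squarefree k)
    (hkodd : Odd k) (hkn : k ∣ n) (hPB : P ⊆ B) (hP : ∀ ℓ ∈ P, Passes n ℓ) (hS : 1 ≤ S)
    (hcard : B.card + 2 ^ j * S ≤ 2 ^ j * P.card) {D : Finset ℕ} (hD2 : ∀ g ∈ D, 2 ≤ g)
    (hDk : ∏ g ∈ D, g ∣ k) (hD : j + 1 ≤ D.card) :
    ∃ U ⊆ D, U.Nonempty ∧ (∏ g ∈ U, g) ∈ Ex B S x := by
  classical
  have hk0 : k ≠ 0 := hksq.ne_zero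
  have hkx : k ≤ x := (Nat.le_of_dvd (by omega) hkn).trans hnx
  obtain ⟨g0, hg0⟩ : D.Nonempty := card_pos.mp (by omega)
  have hdvd : ∀ g ∈ D, g ∣ k := fun g hg => (dvd_prod_of_mem (fun g => g) hg).trans hDk
  have hk1 : k ≠ 1 := by
    intro h
    have h1 := hD2 g0 hg0
    have h2 := hdvd g0 hg0
    rw [h, Nat.dvd_one] at h2
    omega
  have hne : k.primeFactors.Nonempty := Nat.nonempty_primeFactors.mpr (by omega)
  obtain ⟨p, hp, hpmin⟩ := exists_min_image k.primeFactors v2 hne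
  have hpm : ∀ ℓ ∈ P, jacobiSym (ℓ : ℤ) p = 1 ∨ jacobiSym (ℓ : ℤ) p = -1 := by
    intro ℓ hℓ
    have hpp := Nat.prime_of_mem_primeFactors hp
    have hpn : p ∣ n := (Nat.dvd_of_mem_primeFactors hp).trans hkn
    have h1 := not_dvd_of_passes hn2 hpp hpn (hP ℓ hℓ)
    have hco : Nat.Coprime ℓ p := ((Nat.Prime.coprime_iff_not_dvd hpp).mpr h1).symm
    have : NeZero p := ⟨hpp.ne_zero⟩
    rcases jacobiSym.trichotomy (ℓ : ℤ) p with h | h | h
    · exfalso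
      rw [jacobiSym.eq_zero_iff_not_coprime, Int.gcd_natCast_natCast] at h
      exact h hco
    · exact Or.inl h
    · exact Or.inr h
  obtain ⟨U, hU, hUne, hsum⟩ := block D B P (fun ℓ g => jacobiSym (ℓ : ℤ) g)
    (fun ℓ g => jacobiSym.trichotomy (ℓ : ℤ) g)
    (fun g => (g.primeFactors.filter (fun q => v2 q = v2 p)).card)
    (fun ℓ => jacobiSym (ℓ : ℤ) p) hpm
    (fun ℓ hℓ g hg => sym_pow hksq hkodd hkn hp hpmin (hdvd g hg) (hP ℓ hℓ)) hPB hS hcard hD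
  refine ⟨U, hU, hUne, ?_⟩
  have hUk : (∏ g ∈ U, g) ∣ k := (prod_dvd_prod_of_subset _ _ _ hU).trans hDk
  have h0 : 0 < ∏ g ∈ U, g := Nat.pos_of_dvd_of_pos hUk (Nat.pos_of_ne_zero hk0)
  have e1 : ∀ ℓ ∈ B, ∏ g ∈ U, jacobiSym (ℓ : ℤ) g = jacobiSym (ℓ : ℤ) (∏ g ∈ U, g) := by
    intro ℓ _
    rw [jacobi_prod _ _ (fun g hg => by have := hD2 g (hU hg); omega)]
  rw [sum_congr rfl e1, jac_sum] at hsum
  rw [mem_Ex]
  refine ⟨⟨h0, (Nat.le_of_dvd (Nat.pos_of_ne_zero hk0) hUk).trans hkx⟩,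
    Odd.of_dvd_nat hkodd hUk, hksq.squarefree_of_dvd hUk, ?_⟩
  omega

/-- grouping of small primes -/
lemma grouping {Y : ℕ} (hY : 2 ≤ Y) : ∀ r s : ℕ, Squarefree s → (∀ q : ℕ, q.Prime → q ∣ s → q < Y) →
    Y ^ (2 * r) ≤ s → ∃ D : Finset ℕ, D.card = r ∧ (∀ g ∈ D, Y ≤ g) ∧ ∏ g ∈ D, g ∣ s := by
  classical
  intro r
  induction r with
  | zero => intro s _ _ _; exact ⟨∅, rfl, by simp, by simp⟩
  | succ r ih =>
    intro s hsq hsm hs
    have hY1 : 1 ≤ Y ^ (2 * r) := Nat.one_le_pow _ _ (by omega)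
    have hYs : Y ≤ s := by
      calc Y ≤ Y ^ (2 * (r + 1)) := Nat.le_self_pow (by omega) Y
        _ ≤ s := hs
    have hex : ∃ g, g ∣ s ∧ Y ≤ g := ⟨s, dvd_rfl, hYs⟩
    obtain ⟨g, hg⟩ : ∃ g, g = Nat.find hex := ⟨_, rfl⟩
    have hgs : g ∣ s ∧ Y ≤ g := by rw [hg]; exact Nat.find_spec hex
    have hmin : ∀ g' < g, ¬ (g' ∣ s ∧ Y ≤ g') := by
      intro g' hg'
      rw [hg] at hg'
      exact Nat.find_min hex hg'
    have hg1 : g ≠ 1 := by omega
    have hq := Nat.minFac_prime hg1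
    obtain ⟨g', hg'⟩ := Nat.minFac_dvd g
    have hg'0 : 0 < g' := by
      rcases Nat.eq_zero_or_pos g' with h | h
      · rw [h, mul_zero] at hg'; omega
      · exact h
    have hlt : g' < g := by
      calc g' < g.minFac * g' := by
            have := hq.two_le
            nlinarith
        _ = g := hg'.symm
    have hg's : g' ∣ s := (Dvd.intro_left _ hg'.symm).trans hgs.1
    have hg'Y : g' < Y := by
      by_contra h
      exact hmin g' hlt ⟨hg's, by omega⟩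
    have hqY := hsm g.minFac hq ((Nat.minFac_dvd g).trans hgs.1)
    have hgY : g < Y * Y := by
      rw [hg']
      exact Nat.mul_lt_mul'' hqY hg'Y
    obtain ⟨s', hs'⟩ := hgs.1
    have hs'dvd : s' ∣ s := Dvd.intro_left _ hs'.symm
    have hs'big : Y ^ (2 * r) ≤ s' := by
      by_contra h
      push Not at h
      have h1 : g * s' < Y * Y * Y ^ (2 * r) := Nat.mul_lt_mul'' hgY h
      have h2 : Y * Y * Y ^ (2 * r) = Y ^ (2 * (r + 1)) := by ring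
      omega
    obtain ⟨D, hDc, hDY, hDs⟩ := ih s' (hsq.squarefree_of_dvd hs'dvd)
      (fun q hq hqs => hsm q hq (hqs.trans hs'dvd)) hs'big
    have hgD : g ∉ D := by
      intro h
      have h1 : g ∣ s' := (dvd_prod_of_mem (fun g => g) h).trans hDs
      have h2 : g * g ∣ s := by rw [hs']; exact Nat.mul_dvd_mul_left g h1
      have := hsq g h2
      rw [Nat.isUnit_iff] at this
      exact hg1 this
    refine ⟨insert g D, by rw [card_insert_of_notMem hgD, hDc], ?_, ?_⟩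
    · intro a ha
      rw [mem_insert] at ha
      rcases ha with rfl | ha
      · exact hgs.2
      · exact hDY a ha
    · rw [prod_insert hgD, hs']
      exact Nat.mul_dvd_mul_left g hDs

/-- **The greedy decomposition.** -/
theorem greedy {n k x j S Y : ℕ} {B P : Finset ℕ} (hn2 : 2 ≤ n) (hnx : n ≤ x) (hksq : Squarefree k)
    (hkodd : Odd k) (hkn : k ∣ n) (hPB : P ⊆ B) (hP : ∀ ℓ ∈ P, Passes n ℓ) (hS : 1 ≤ S)
    (hcard : B.card + 2 ^ j * S ≤ 2 ^ j * P.card) (hY : 2 ≤ Y) :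
    ∀ m : ℕ, m ∣ k → ∃ (Q F : Finset ℕ) (f : ℕ), (∀ a ∈ Q, a ∈ Ex B S x ∧ Y ≤ a) ∧
      (∀ q ∈ F, q.Prime) ∧ F.card ≤ j ∧ 1 ≤ f ∧ f ≤ Y ^ (2 * (j + 1)) ∧
      m = f * (∏ a ∈ Q, a) * ∏ q ∈ F, q := by
  classical
  intro m
  induction m using Nat.strong_induction_on with
  | _ m ih =>
  intro hmk
  have hk0 : k ≠ 0 := hksq.ne_zero
  have hm0 : m ≠ 0 := fun h => hk0 (by rw [h, zero_dvd_iff] at hmk; exact hmk)
  have hmsq : Squarefree m := hksq.squarefree_of_dvd hmk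
  by_cases hex : ∃ D : Finset ℕ, j + 1 ≤ D.card ∧ (∀ g ∈ D, Y ≤ g) ∧ ∏ g ∈ D, g ∣ m
  · obtain ⟨D, hDc, hDY, hDm⟩ := hex
    obtain ⟨U, hU, hUne, hUE⟩ := block_k hn2 hnx hksq hkodd hkn hPB hP hS hcard
      (fun g hg => hY.trans (hDY g hg)) (hDm.trans hmk) hDc
    obtain ⟨a, ha⟩ : ∃ a, a = ∏ g ∈ U, g := ⟨_, rfl⟩
    rw [← ha] at hUE
    have ham : a ∣ m := by rw [ha]; exact (prod_dvd_prod_of_subset _ _ _ hU).trans hDm
    have haY : Y ≤ a := by
      obtain ⟨g, hg⟩ := hUne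
      have h1 : g ∣ a := by rw [ha]; exact dvd_prod_of_mem (fun g => g) hg
      have h2 : 0 < a := Nat.pos_of_dvd_of_pos ham (Nat.pos_of_ne_zero hm0)
      exact (hDY g (hU hg)).trans (Nat.le_of_dvd h2 h1)
    obtain ⟨m', hm'⟩ := ham
    have hm'0 : 0 < m' := by
      rcases Nat.eq_zero_or_pos m' with h | h
      · rw [h, mul_zero] at hm'; omega
      · exact h
    have hlt : m' < m := by
      rw [hm']
      have : 2 ≤ a := hY.trans haY
      nlinarith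
    have hm'm : m' ∣ m := Dvd.intro_left _ hm'.symm
    obtain ⟨Q, F, f, h1, h2, h3, h4, h5, h6⟩ := ih m' hlt (hm'm.trans hmk)
    have haQ : a ∉ Q := by
      intro h
      have e1 : a ∣ m' := by
        rw [h6]
        exact ((dvd_prod_of_mem (fun g => g) h).mul_left f).mul_right _
      have e2 : a * a ∣ m := by rw [hm']; exact Nat.mul_dvd_mul_left a e1
      have := hmsq a e2
      rw [Nat.isUnit_iff] at this
      omega
    refine ⟨insert a Q, F, f, ?_, h2, h3, h4, h5, ?_⟩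
    · intro b hb
      rw [mem_insert] at hb
      rcases hb with rfl | hb
      · exact ⟨hUE, haY⟩
      · exact h1 b hb
    · rw [prod_insert haQ, hm', h6]
      ring
  · push Not at hex
    obtain ⟨F, hF⟩ : ∃ F, F = m.primeFactors.filter (fun q => Y ≤ q) := ⟨_, rfl⟩
    obtain ⟨f, hf⟩ : ∃ f, f = ∏ q ∈ m.primeFactors.filter (fun q => ¬ Y ≤ q), q := ⟨_, rfl⟩
    have hprod : ∏ q ∈ m.primeFactors, q = m := Nat.prod_primeFactors_of_squarefree hmsq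
    have hmul : (∏ q ∈ F, q) * f = m := by
      rw [hF, hf, prod_filter_mul_prod_filter_not, hprod]
    have hFm : ∏ q ∈ F, q ∣ m := Dvd.intro _ hmul
    have hfm : f ∣ m := Dvd.intro_left _ hmul
    have hf0 : 0 < f := Nat.pos_of_dvd_of_pos hfm (Nat.pos_of_ne_zero hm0)
    refine ⟨∅, F, f, by simp, ?_, ?_, hf0, ?_, ?_⟩
    · intro q hq
      rw [hF, mem_filter] at hq
      exact Nat.prime_of_mem_primeFactors hq.1
    · by_contra h
      push Not at h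
      refine hex F h (fun g hg => ?_) hFm
      rw [hF, mem_filter] at hg
      exact hg.2
    · by_contra h
      push Not at h
      obtain ⟨D, hDc, hDY, hDf⟩ := grouping hY (j + 1) f (hmsq.squarefree_of_dvd hfm)
        (fun q hq hqf => by
          rw [hf] at hqf
          obtain ⟨q', hq', hqq'⟩ := (Prime.dvd_finsetProd_iff hq.prime _).mp hqf
          rw [mem_filter] at hq'
          have hq'p := Nat.prime_of_mem_primeFactors hq'.1
          have : q = q' := (Nat.prime_dvd_prime_iff_eq hq hq'p).mp hqq'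
          rw [this]
          omega) h.le
      exact hex D (by omega) hDY (hDf.trans hfm)
    · rw [prod_empty, mul_one, mul_comm]
      exact hmul.symm

end Pool.Agent.TH725.TS.G
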