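import Pool.Agent.TH725.TS.GL2
import Pool.Agent.TH725.TS.GB
import Pool.Agent.TH725.TS.Cnt3

set_option autoImplicit false

/-! Control of several primes. -/

namespace Pool.Agent.TH725.TS.G

open Finset Real Pool.Agent.W57.SW Pool.Agent.H379R2.W Pool.Agent.TH725.TS

open Classical in
/-- the largest index of a subgroup modulo `p` that contains the proportion `1 / c` of `B` -/
noncomputable def kap (c : ℕ) (B : Finset ℕ) (x p : ℕ) : ℕ :=
  ((Icc 1 x).filter (fun K => Sm c B K p)).card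

lemma kap_low {c : ℕ} {B P : Finset ℕ} {n x p : ℕ} (hn2 : 2 ≤ n) (hnx : n ≤ x) (hp : p.Prime)
    (hpn : p ∣ n) (hPB : P ⊆ B) (hPc : B.card ≤ c * P.card) (hP : ∀ ℓ ∈ P, Passes n ℓ) :
    (p - 1) / Nat.gcd (p - 1) (n - 1) ≤ kap c B x p := by
  classical
  have : Fact p.Prime := ⟨hp⟩
  obtain ⟨h, hh⟩ : ∃ h, h = Nat.gcd (p - 1) (n - 1) := ⟨_, rfl⟩
  rw [← hh]
  have hp2 := hp.two_le
  have hh1 : 1 ≤ h := by rw [hh]; exact Nat.gcd_pos_of_pos_left _ (by omega)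
  have hpow : ∀ ℓ ∈ P, (ℓ : ZMod p) ^ h = 1 := by
    intro ℓ hℓ
    have h1 : (ℓ : ZMod p) ^ (n - 1) = 1 := pow_of_passes_dvd (hP ℓ hℓ) hpn
    have h0 : (ℓ : ZMod p) ≠ 0 := by
      intro h0
      rw [h0, zero_pow (by omega)] at h1
      exact zero_ne_one h1
    have h2 := ZMod.pow_card_sub_one_eq_one h0
    rw [hh]
    exact orderOf_dvd_iff_pow_eq_one.mp
      (Nat.dvd_gcd (orderOf_dvd_of_pow_eq_one h2) (orderOf_dvd_of_pow_eq_one h1))
  have hsub : Icc 1 ((p - 1) / h) ⊆ (Icc 1 x).filter (fun K => Sm c B K p) := by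
    intro K hK
    rw [mem_Icc] at hK
    rw [mem_filter, mem_Icc]
    have h1 : h * K ≤ p - 1 := (Nat.mul_le_mul_left h hK.2).trans (Nat.mul_div_le _ _)
    have h2 : K ≤ h * K := Nat.le_mul_of_pos_left K hh1
    have hpx : p ≤ x := (Nat.le_of_dvd (by omega) hpn).trans hnx
    exact ⟨⟨hK.1, by omega⟩, hp, P, hPB, hPc, h, hh1, by omega, hpow⟩
  have := card_le_card hsub
  rw [Nat.card_Icc] at this
  unfold kap
  omega

open Classical in
lemma sum_kap {c x : ℕ} (hx : 1 ≤ x) {η : ℝ} (hη : 0 < η) (hη1 : η ≤ 1) {B : Finset ℕ}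
    (H : ∀ K : ℕ, 1 ≤ K → ∀ X : ℕ, 1 ≤ X → X ≤ x →
      (((Icc 1 X).filter (Sm c B K)).card : ℝ) * K ≤ (x : ℝ) ^ η * X) :
    ∑ p ∈ Icc 1 x, (kap c B x p : ℝ) / p ≤
      (x : ℝ) ^ (3 * η) * (∑' k : ℕ, (k : ℝ) ^ (-(1 + η))) ^ 2 := by
  have hxr : (1 : ℝ) ≤ x := by exact_mod_cast hx
  have hxpos : (0 : ℝ) < x := by linarith
  have hsum : Summable fun k : ℕ => (k : ℝ) ^ (-(1 + η)) :=
    Real.summable_nat_rpow.mpr (by linarith)
  obtain ⟨Z, hZ⟩ : ∃ Z : ℝ, Z = ∑' k : ℕ, (k : ℝ) ^ (-(1 + η)) := ⟨_, rfl⟩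
  have hZ0 : 0 ≤ Z := by rw [hZ]; exact tsum_nonneg fun k => by positivity
  rw [← hZ]
  have h1 : ∑ p ∈ Icc 1 x, (kap c B x p : ℝ) / p =
      ∑ K ∈ Icc 1 x, ∑ p ∈ (Icc 1 x).filter (Sm c B K), 1 / (p : ℝ) := by
    have e : ∀ p ∈ Icc 1 x, (kap c B x p : ℝ) / p =
        ∑ K ∈ Icc 1 x, if Sm c B K p then 1 / (p : ℝ) else 0 := by
      intro p _
      rw [← sum_filter, sum_const, kap, nsmul_eq_mul]
      ring
    rw [sum_congr rfl e, sum_comm]
    apply sum_congr rfl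
    intro K _
    rw [sum_filter]
  rw [h1]
  have h2 : ∀ K ∈ Icc 1 x, ∑ p ∈ (Icc 1 x).filter (Sm c B K), 1 / (p : ℝ) ≤
      ((x : ℝ) ^ (3 * η) * Z) * (K : ℝ) ^ (-(1 + η)) := by
    intro K hK
    rw [mem_Icc] at hK
    have hK0 : (0 : ℝ) < K := by exact_mod_cast hK.1
    obtain ⟨Q, hQ⟩ : ∃ Q, Q = (Icc 1 x).filter (Sm c B K) := ⟨_, rfl⟩
    rw [← hQ]
    have hQm : ∀ p ∈ Q, 1 ≤ p ∧ p ≤ x := by
      intro p hp; rw [hQ, mem_filter, mem_Icc] at hp; exact hp.1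
    have g1 : ∀ p ∈ Q, 1 / (p : ℝ) ≤ (x : ℝ) ^ η * (p : ℝ) ^ (-(1 + η)) := by
      intro p hp
      have hp0 : (0 : ℝ) < p := by exact_mod_cast (hQm p hp).1
      have e : 1 / (p : ℝ) = (p : ℝ) ^ η * (p : ℝ) ^ (-(1 + η)) := by
        rw [← rpow_add hp0, show η + -(1 + η) = -1 by ring, rpow_neg_one, one_div]
      rw [e]
      apply mul_le_mul_of_nonneg_right _ (by positivity)
      exact rpow_le_rpow hp0.le (by exact_mod_cast (hQm p hp).2) hη.le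
    refine (sum_le_sum g1).trans ?_
    rw [← mul_sum]
    have g2 := rank_sum Q ((x : ℝ) ^ η / K) 1 (1 + η) (by positivity) one_pos (by linarith)
      (fun q hq => (hQm q hq).1) (fun q hq => by
        have e1 : Q.filter (fun m => m ≤ q) = (Icc 1 q).filter (Sm c B K) := by
          ext m
          rw [hQ, mem_filter, mem_filter, mem_filter, mem_Icc, mem_Icc]
          constructor
          · rintro ⟨⟨⟨a, _⟩, b⟩, c⟩; exact ⟨⟨a, c⟩, b⟩
          · rintro ⟨⟨a, c⟩, b⟩; exact ⟨⟨⟨a, c.trans (hQm q hq).2⟩, b⟩, c⟩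
        rw [e1, rpow_one, div_mul_eq_mul_div, le_div_iff₀ hK0]
        exact H K hK.1 q (hQm q hq).1 (hQm q hq).2)
    rw [div_one, ← hZ] at g2
    have g3 : ((x : ℝ) ^ η / K) ^ (1 + η) ≤ (x : ℝ) ^ (2 * η) * (K : ℝ) ^ (-(1 + η)) := by
      rw [div_rpow (by positivity) hK0.le, rpow_neg hK0.le, ← div_eq_mul_inv]
      apply div_le_div_of_nonneg_right _ (by positivity)
      rw [← rpow_mul hxpos.le]
      apply rpow_le_rpow_of_exponent_le hxr
      nlinarith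
    calc (x : ℝ) ^ η * ∑ p ∈ Q, (p : ℝ) ^ (-(1 + η)) ≤
        (x : ℝ) ^ η * (((x : ℝ) ^ η / K) ^ (1 + η) * Z) :=
          mul_le_mul_of_nonneg_left g2 (by positivity)
      _ ≤ (x : ℝ) ^ η * (((x : ℝ) ^ (2 * η) * (K : ℝ) ^ (-(1 + η))) * Z) := by gcongr
      _ = ((x : ℝ) ^ η * (x : ℝ) ^ (2 * η) * Z) * (K : ℝ) ^ (-(1 + η)) := by ring
      _ = _ := by
          rw [← rpow_add hxpos]
          congr 3
          ring
  refine (sum_le_sum h2).trans ?_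
  rw [← mul_sum]
  have h3 : ∑ K ∈ Icc 1 x, (K : ℝ) ^ (-(1 + η)) ≤ Z := by
    rw [hZ]; exact hsum.sum_le_tsum _ fun k _ => by positivity
  calc (x : ℝ) ^ (3 * η) * Z * ∑ K ∈ Icc 1 x, (K : ℝ) ^ (-(1 + η)) ≤
      (x : ℝ) ^ (3 * η) * Z * Z := mul_le_mul_of_nonneg_left h3 (by positivity)
    _ = _ := by ring

/-- elementary symmetric sums -/
lemma esum_le (S : Finset ℕ) (f : ℕ → ℝ) (hf : ∀ q, 0 ≤ f q) : ∀ m : ℕ,
    ∑ U ∈ powersetCard m S, ∏ q ∈ U, f q ≤ (∑ q ∈ S, f q) ^ m := by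
  classical
  induction S using Finset.induction_on with
  | empty =>
    intro m
    rcases Nat.eq_zero_or_pos m with rfl | hm
    · simp
    · rw [powersetCard_eq_empty.mpr (by simpa using hm)]
      simp only [sum_empty]
      positivity
  | insert a S ha ih =>
    intro m
    have hs0 : 0 ≤ ∑ q ∈ S, f q := sum_nonneg fun q _ => hf q
    rcases Nat.eq_zero_or_pos m with rfl | hm
    · simp
    · obtain ⟨m', rfl⟩ : ∃ m', m = m' + 1 := ⟨m - 1, by omega⟩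
      rw [powersetCard_succ_insert ha]
      have hdisj : Disjoint (powersetCard (m' + 1) S) ((powersetCard m' S).image (insert a)) := by
        rw [Finset.disjoint_left]
        intro U hU hU'
        rw [mem_powersetCard] at hU
        rw [mem_image] at hU'
        obtain ⟨U', _, rfl⟩ := hU'
        exact ha (hU.1 (mem_insert_self _ _))
      rw [sum_union hdisj, sum_image]
      · have e : ∑ U ∈ powersetCard m' S, ∏ q ∈ insert a U, f q =
            f a * ∑ U ∈ powersetCard m' S, ∏ q ∈ U, f q := by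
          rw [mul_sum]
          apply sum_congr rfl
          intro U hU
          rw [mem_powersetCard] at hU
          rw [prod_insert fun h => ha (hU.1 h)]
        rw [e, sum_insert ha]
        have h1 := ih (m' + 1)
        have h2 := mul_le_mul_of_nonneg_left (ih m') (hf a)
        have h3 : (∑ q ∈ S, f q) ^ m' ≤ (f a + ∑ q ∈ S, f q) ^ m' :=
          pow_le_pow_left₀ hs0 (by linarith [hf a]) m'
        calc ∑ U ∈ powersetCard (m' + 1) S, ∏ q ∈ U, f q +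
            f a * ∑ U ∈ powersetCard m' S, ∏ q ∈ U, f q ≤
            (∑ q ∈ S, f q) ^ (m' + 1) + f a * (∑ q ∈ S, f q) ^ m' := add_le_add h1 h2
          _ = (f a + ∑ q ∈ S, f q) * (∑ q ∈ S, f q) ^ m' := by ring
          _ ≤ (f a + ∑ q ∈ S, f q) * (f a + ∑ q ∈ S, f q) ^ m' :=
              mul_le_mul_of_nonneg_left h3 (by linarith [hf a])
          _ = _ := by ring
      · intro U hU U' hU' h
        rw [mem_coe, mem_powersetCard] at hU hU'
        have h1 : (insert a U).erase a = U := erase_insert fun h => ha (hU.1 h)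
        have h2 : (insert a U').erase a = U' := erase_insert fun h => ha (hU'.1 h)
        rw [← h1, ← h2, h]

/-- one of several primes is controlled by the rest -/
lemma multi_ctrl {c j : ℕ} {B P : Finset ℕ} {n x w : ℕ} {F : Finset ℕ} {σ V : ℝ} (hV : 1 ≤ V)
    (hn2 : 2 ≤ n) (hnx : n ≤ x) (hFp : ∀ q ∈ F, q.Prime) (hF2 : 2 ≤ F.card) (hFj : F.card ≤ j)
    (hw : 1 ≤ w) (hn : n = w * ∏ q ∈ F, q) (hPB : P ⊆ B) (hPc : B.card ≤ c * P.card)
    (hP : ∀ ℓ ∈ P, Passes n ℓ) (hσ : 1 - 1 / (j : ℝ) ≤ σ) :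
    ∃ U ∈ powersetCard (F.card - 1) (Icc 1 x), (2 ≤ w * ∏ q ∈ U, q ∧ w * ∏ q ∈ U, q ≤ x) ∧
      ∃ e ∈ (w * (∏ q ∈ U, q) - 1).divisors,
      ∃ t ∈ Icc 1 ⌊V * ((x : ℝ) / w) ^ σ * ∏ q ∈ U, ((kap c B x q : ℝ) / q)⌋₊,
        (e * t + 1) * (w * ∏ q ∈ U, q) = n := by
  classical
  obtain ⟨kk, hkk⟩ : ∃ kk : ℕ → ℕ, ∀ q, kk q = (q - 1) / Nat.gcd (q - 1) (n - 1) :=
    ⟨_, fun _ => rfl⟩
  have hFne : F.Nonempty := card_pos.mp (by omega)
  have hqn : ∀ q ∈ F, q ∣ n := fun q hq => by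
    rw [hn]; exact (dvd_prod_of_mem (fun q => q) hq).mul_left w
  have hkk1 : ∀ q ∈ F, 1 ≤ kk q ∧ Nat.gcd (q - 1) (n - 1) * kk q = q - 1 := by
    intro q hq
    have h2 := (hFp q hq).two_le
    have hmul : Nat.gcd (q - 1) (n - 1) * kk q = q - 1 := by
      rw [hkk]; exact Nat.mul_div_cancel' (Nat.gcd_dvd_left _ _)
    refine ⟨?_, hmul⟩
    rcases Nat.eq_zero_or_pos (kk q) with h | h
    · rw [h, mul_zero] at hmul; omega
    · exact h
  have hkap : ∀ q ∈ F, (kk q : ℝ) ≤ kap c B x q := by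
    intro q hq
    have := kap_low hn2 hnx (hFp q hq) (hqn q hq) hPB hPc hP
    rw [← hkk] at this
    exact_mod_cast this
  have hq0 : ∀ q ∈ F, (0 : ℝ) < q := fun q hq => by exact_mod_cast (hFp q hq).pos
  have hk0 : ∀ q ∈ F, (0 : ℝ) < kk q := fun q hq => by exact_mod_cast (hkk1 q hq).1
  have hk1r : ∀ q ∈ F, (1 : ℝ) ≤ kk q := fun q hq => by exact_mod_cast (hkk1 q hq).1
  obtain ⟨i, hi, hmin⟩ := exists_min_image F (fun q => (kk q : ℝ) ^ 2 / q) hFne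
  obtain ⟨U, hU⟩ : ∃ U, U = F.erase i := ⟨_, rfl⟩
  have hUF : U ⊆ F := by rw [hU]; exact erase_subset _ _
  have hUc : U.card = F.card - 1 := by rw [hU, card_erase_of_mem hi]
  have hip := hFp i hi
  have hprodF : ∏ q ∈ F, q = i * ∏ q ∈ U, q := by
    rw [hU]; exact (mul_prod_erase F (fun q => q) hi).symm
  have hw0 : (0 : ℝ) < w := by exact_mod_cast hw
  have hU1 : 1 ≤ ∏ q ∈ U, q := Nat.pos_of_ne_zero (prod_ne_zero_iff.mpr fun q hq =>
    (hFp q (hUF hq)).ne_zero)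
  have hU2 : 2 ≤ ∏ q ∈ U, q := by
    have : 0 < U.card := by omega
    obtain ⟨q, hq⟩ := card_pos.mp this
    exact (hFp q (hUF hq)).two_le.trans (Nat.le_of_dvd hU1 (dvd_prod_of_mem (fun q => q) hq))
  have hnw : n = i * (w * ∏ q ∈ U, q) := by rw [hn, hprodF]; ring
  have hwU2 : 2 ≤ w * ∏ q ∈ U, q := hU2.trans (Nat.le_mul_of_pos_left _ hw)
  have hwUn : w * ∏ q ∈ U, q ≤ n := by rw [hnw]; exact Nat.le_mul_of_pos_left _ hip.pos
  refine ⟨U, ?_, ⟨hwU2, hwUn.trans hnx⟩, ?_⟩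
  · rw [mem_powersetCard]
    refine ⟨fun q hq => ?_, hUc⟩
    rw [mem_Icc]
    exact ⟨(hFp q (hUF hq)).one_lt.le, (Nat.le_of_dvd (by omega) (hqn q (hUF hq))).trans hnx⟩
  obtain ⟨e, he⟩ : ∃ e, e = Nat.gcd (i - 1) (n - 1) := ⟨_, rfl⟩
  have heq : e = Nat.gcd (i - 1) (w * (∏ q ∈ U, q) - 1) := by
    rw [he]; exact gcd_shift hip.one_lt.le (by omega) hnw
  refine ⟨e, Nat.mem_divisors.mpr ⟨by rw [heq]; exact Nat.gcd_dvd_right _ _, by omega⟩, kk i, ?_, ?_⟩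
  · rw [mem_Icc]
    refine ⟨(hkk1 i hi).1, ?_⟩
    apply Nat.le_floor
    -- the inequality
    obtain ⟨s, hs⟩ : ∃ s, s = F.card := ⟨_, rfl⟩
    obtain ⟨pu, hpu⟩ : ∃ pu : ℝ, pu = ∏ q ∈ F, ((q : ℝ) / kk q) := ⟨_, rfl⟩
    obtain ⟨Q, hQ⟩ : ∃ Q : ℝ, Q = ∏ q ∈ F, (q : ℝ) := ⟨_, rfl⟩
    have hpu0 : 0 < pu := by
      rw [hpu]; exact prod_pos fun q hq => div_pos (hq0 q hq) (hk0 q hq)
    have hQ0 : 0 < Q := by rw [hQ]; exact prod_pos fun q hq => hq0 q hq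
    have hpuQ : pu ≤ Q := by
      rw [hpu, hQ]
      exact prod_le_prod (fun q hq => (div_pos (hq0 q hq) (hk0 q hq)).le)
        fun q hq => div_le_self (hq0 q hq).le (hk1r q hq)
    obtain ⟨ρ, hρ⟩ : ∃ ρ : ℝ, ρ = (kk i : ℝ) ^ 2 / i := ⟨_, rfl⟩
    have hρ0 : 0 < ρ := by
      rw [hρ]; have := hk0 i hi; have := hq0 i hi; positivity
    have hρs : ρ ^ s ≤ ∏ q ∈ F, ((kk q : ℝ) ^ 2 / q) := by
      rw [hs, ← prod_const]
      exact prod_le_prod (fun q _ => hρ0.le) fun q hq => by rw [hρ]; exact hmin q hq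
    have hρprod : (∏ q ∈ F, ((kk q : ℝ) ^ 2 / q)) * pu ^ 2 = Q := by
      rw [hpu, hQ, ← prod_pow, ← prod_mul_distrib]
      apply prod_congr rfl
      intro q hq
      have h1 := (hk0 q hq).ne'
      have h2 := (hq0 q hq).ne'
      field_simp
    obtain ⟨T, hT⟩ : ∃ T : ℝ, T = ρ * pu := ⟨_, rfl⟩
    have hT0 : 0 ≤ T := by rw [hT]; positivity
    have hTs : T ^ s ≤ Q ^ (s - 1) := by
      have hs2 : s = (s - 2) + 2 := by omega
      calc T ^ s = ρ ^ s * pu ^ s := by rw [hT, mul_pow]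
        _ ≤ (∏ q ∈ F, ((kk q : ℝ) ^ 2 / q)) * pu ^ s :=
            mul_le_mul_of_nonneg_right hρs (by positivity)
        _ = (∏ q ∈ F, ((kk q : ℝ) ^ 2 / q)) * pu ^ 2 * pu ^ (s - 2) := by
            nth_rewrite 1 [hs2]
            rw [pow_add]; ring
        _ = Q * pu ^ (s - 2) := by rw [hρprod]
        _ ≤ Q * Q ^ (s - 2) := mul_le_mul_of_nonneg_left
            (pow_le_pow_left₀ hpu0.le hpuQ _) hQ0.le
        _ = Q ^ (s - 1) := by
            rw [← pow_succ']; congr 1; omega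
    have hQx : Q ≤ (x : ℝ) / w := by
      rw [le_div_iff₀ hw0]
      have h1 : (∏ q ∈ F, q) * w ≤ x := by
        rw [mul_comm, ← hn]; exact hnx
      have h2 : Q = ((∏ q ∈ F, q : ℕ) : ℝ) := by rw [hQ]; push_cast; rfl
      rw [h2]
      exact_mod_cast h1
    obtain ⟨y, hy⟩ : ∃ y : ℝ, y = (x : ℝ) / w := ⟨_, rfl⟩
    rw [← hy] at hQx ⊢
    have hQ1 : 1 ≤ Q := by
      rw [hQ]
      calc (1 : ℝ) = ∏ _q ∈ F, (1 : ℝ) := by rw [prod_const_one]
        _ ≤ ∏ q ∈ F, (q : ℝ) := prod_le_prod (fun _ _ => zero_le_one) fun q hq => by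
            exact_mod_cast (hFp q hq).one_lt.le
    have hy1 : 1 ≤ y := hQ1.trans hQx
    have hs0 : (0 : ℝ) < s := by
      have : 0 < s := by omega
      exact_mod_cast this
    have hTy : T ≤ y ^ (1 - 1 / (s : ℝ)) := by
      have h1 : (y ^ (1 - 1 / (s : ℝ))) ^ s = y ^ (s - 1) := by
        rw [← rpow_natCast, ← rpow_mul (by linarith), ← rpow_natCast]
        congr 1
        rw [Nat.cast_sub (by omega), Nat.cast_one]
        field_simp
      have h2 : T ^ s ≤ (y ^ (1 - 1 / (s : ℝ))) ^ s := by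
        rw [h1]
        exact hTs.trans (pow_le_pow_left₀ hQ0.le hQx _)
      exact (pow_le_pow_iff_left₀ hT0 (by positivity) (by omega)).mp h2
    have hTσ : T ≤ y ^ σ := by
      refine hTy.trans (rpow_le_rpow_of_exponent_le hy1 (le_trans ?_ hσ))
      have h1 : (s : ℝ) ≤ j := by rw [hs]; exact_mod_cast hFj
      have h2 : 1 / (j : ℝ) ≤ 1 / s := one_div_le_one_div_of_le hs0 h1
      linarith
    have hprodU : (kk i : ℝ) * ∏ q ∈ U, ((q : ℝ) / kk q) = T := by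
      rw [hT, hρ, hpu, ← mul_prod_erase F (fun q => (q : ℝ) / kk q) hi, ← hU]
      have h1 := (hk0 i hi).ne'
      have h2 := (hq0 i hi).ne'
      field_simp
    have hone : (∏ q ∈ U, ((q : ℝ) / kk q)) * ∏ q ∈ U, ((kk q : ℝ) / q) = 1 := by
      rw [← prod_mul_distrib]
      apply prod_eq_one
      intro q hq
      have h1 := (hk0 q (hUF hq)).ne'
      have h2 := (hq0 q (hUF hq)).ne'
      field_simp
    have hle1 : ∏ q ∈ U, ((kk q : ℝ) / q) ≤ ∏ q ∈ U, ((kap c B x q : ℝ) / q) :=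
      prod_le_prod (fun q _ => by positivity) fun q hq =>
        div_le_div_of_nonneg_right (hkap q (hUF hq)) (hq0 q (hUF hq)).le
    have hp0 : 0 ≤ ∏ q ∈ U, ((kk q : ℝ) / q) := prod_nonneg fun q _ => by positivity
    have hp0' : 0 ≤ ∏ q ∈ U, ((kap c B x q : ℝ) / q) := prod_nonneg fun q _ => by positivity
    have hyσ : 0 ≤ y ^ σ := by positivity
    calc (kk i : ℝ) = (kk i : ℝ) * ((∏ q ∈ U, ((q : ℝ) / kk q)) * ∏ q ∈ U, ((kk q : ℝ) / q)) := by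
          rw [hone, mul_one]
      _ = T * ∏ q ∈ U, ((kk q : ℝ) / q) := by rw [← hprodU]; ring
      _ ≤ y ^ σ * ∏ q ∈ U, ((kap c B x q : ℝ) / q) := mul_le_mul hTσ hle1 hp0 hyσ
      _ = 1 * (y ^ σ * ∏ q ∈ U, ((kap c B x q : ℝ) / q)) := by rw [one_mul]
      _ ≤ V * (y ^ σ * ∏ q ∈ U, ((kap c B x q : ℝ) / q)) :=
          mul_le_mul_of_nonneg_right hV (mul_nonneg hyσ hp0')
      _ = _ := by ring
  · rw [he, (hkk1 i hi).2, Nat.sub_add_cancel hip.pos, ← hnw]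

end Pool.Agent.TH725.TS.G
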