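import Pool.Agent.TH725.TS.GK
import Pool.Agent.TH725.TS.Cnt4

set_option autoImplicit false

/-! Weighted counting for the greedy decomposition. -/

namespace Pool.Agent.TH725.TS.G

open Finset Real Pool.Agent.W57.SW Pool.Agent.H379R2.W Pool.Agent.TH725.TS

/-- the numbers `d² c f ∏ a ≤ x` -/
def Wg (E : Finset ℕ) (Yf x : ℕ) : Finset ℕ :=
  (((Icc 1 x ×ˢ ({1, 2} : Finset ℕ)) ×ˢ (Icc 1 Yf ×ˢ E.powerset)).image
    (fun i => i.1.1 ^ 2 * i.1.2 * (i.2.1 * ∏ a ∈ i.2.2, a))).filter (fun w => w ≤ x)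

lemma sum_Wg (E : Finset ℕ) (Yf x : ℕ) {σ : ℝ} (hσ : 1 / 2 < σ) :
    ∑ w ∈ Wg E Yf x, (w : ℝ) ^ (-σ) ≤
      2 * (∑' k : ℕ, (k : ℝ) ^ (-(2 * σ))) * Yf * exp (∑ m ∈ E, (m : ℝ) ^ (-σ)) := by
  have hsum : Summable fun k : ℕ => (k : ℝ) ^ (-(2 * σ)) :=
    Real.summable_nat_rpow.mpr (by linarith)
  have h1 : ∑ w ∈ Wg E Yf x, (w : ℝ) ^ (-σ) ≤
      ∑ i ∈ (Icc 1 x ×ˢ ({1, 2} : Finset ℕ)) ×ˢ (Icc 1 Yf ×ˢ E.powerset),
        (((i.1.1 ^ 2 * i.1.2 * (i.2.1 * ∏ a ∈ i.2.2, a) : ℕ) : ℝ)) ^ (-σ) := by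
    refine le_trans (sum_le_sum_of_subset_of_nonneg (filter_subset _ _)
      (fun i _ _ => by positivity)) ?_
    exact sum_image_le' _ _ (fun w => (w : ℝ) ^ (-σ)) (fun w => by positivity)
  have h2 : ∑ i ∈ (Icc 1 x ×ˢ ({1, 2} : Finset ℕ)) ×ˢ (Icc 1 Yf ×ˢ E.powerset),
        (((i.1.1 ^ 2 * i.1.2 * (i.2.1 * ∏ a ∈ i.2.2, a) : ℕ) : ℝ)) ^ (-σ) =
      ∑ i ∈ (Icc 1 x ×ˢ ({1, 2} : Finset ℕ)) ×ˢ (Icc 1 Yf ×ˢ E.powerset),
        ((i.1.1 : ℝ) ^ (-(2 * σ)) * (i.1.2 : ℝ) ^ (-σ)) *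
          ((i.2.1 : ℝ) ^ (-σ) * ∏ a ∈ i.2.2, (a : ℝ) ^ (-σ)) := by
    apply sum_congr rfl
    intro i _
    push_cast
    have hd0 : (0 : ℝ) ≤ (i.1.1 : ℝ) := Nat.cast_nonneg _
    have hp0 : (0 : ℝ) ≤ ∏ a ∈ i.2.2, (a : ℝ) := prod_nonneg fun a _ => Nat.cast_nonneg a
    rw [mul_rpow (by positivity) (by positivity), mul_rpow (by positivity) (by positivity),
      mul_rpow (by positivity) hp0, ← rpow_natCast, ← rpow_mul hd0,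
      Real.finset_prod_rpow _ _ (fun a _ => Nat.cast_nonneg a)]
    congr 3
    push_cast
    ring
  have h3 : ∑ i ∈ (Icc 1 x ×ˢ ({1, 2} : Finset ℕ)) ×ˢ (Icc 1 Yf ×ˢ E.powerset),
        ((i.1.1 : ℝ) ^ (-(2 * σ)) * (i.1.2 : ℝ) ^ (-σ)) *
          ((i.2.1 : ℝ) ^ (-σ) * ∏ a ∈ i.2.2, (a : ℝ) ^ (-σ)) =
      ((∑ d ∈ Icc 1 x, (d : ℝ) ^ (-(2 * σ))) * ∑ c ∈ ({1, 2} : Finset ℕ), (c : ℝ) ^ (-σ)) *
        ((∑ m ∈ Icc 1 Yf, (m : ℝ) ^ (-σ)) * ∑ Q ∈ E.powerset, ∏ a ∈ Q, (a : ℝ) ^ (-σ)) := by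
    rw [sum_prod2 (Icc 1 x ×ˢ ({1, 2} : Finset ℕ)) (Icc 1 Yf ×ˢ E.powerset)
      (fun i => (i.1 : ℝ) ^ (-(2 * σ)) * (i.2 : ℝ) ^ (-σ))
      (fun j => (j.1 : ℝ) ^ (-σ) * ∏ a ∈ j.2, (a : ℝ) ^ (-σ))]
    rw [sum_prod2 (Icc 1 x) ({1, 2} : Finset ℕ) (fun d => (d : ℝ) ^ (-(2 * σ)))
      (fun c => (c : ℝ) ^ (-σ)), sum_prod2 (Icc 1 Yf) E.powerset (fun d => (d : ℝ) ^ (-σ))
      (fun Q => ∏ a ∈ Q, (a : ℝ) ^ (-σ))]
  have h4 : ∑ d ∈ Icc 1 x, (d : ℝ) ^ (-(2 * σ)) ≤ ∑' k : ℕ, (k : ℝ) ^ (-(2 * σ)) :=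
    hsum.sum_le_tsum _ fun k _ => by positivity
  have h5 : ∑ c ∈ ({1, 2} : Finset ℕ), (c : ℝ) ^ (-σ) ≤ 2 := by
    have g : ∀ c ∈ ({1, 2} : Finset ℕ), (c : ℝ) ^ (-σ) ≤ 1 := by
      intro c hc
      have hc1 : 1 ≤ c := by
        simp only [mem_insert, mem_singleton] at hc
        omega
      exact rpow_le_one_of_one_le_of_nonpos (by exact_mod_cast hc1) (by linarith)
    refine (sum_le_sum g).trans ?_
    rw [sum_const, card_pair (by norm_num)]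
    norm_num
  have h6 : ∑ m ∈ Icc 1 Yf, (m : ℝ) ^ (-σ) ≤ Yf := by
    have g : ∀ m ∈ Icc 1 Yf, (m : ℝ) ^ (-σ) ≤ 1 := by
      intro m hm
      rw [mem_Icc] at hm
      exact rpow_le_one_of_one_le_of_nonpos (by exact_mod_cast hm.1) (by linarith)
    refine (sum_le_sum g).trans ?_
    rw [sum_const, Nat.card_Icc]
    simp
  have h7 : ∑ Q ∈ E.powerset, ∏ a ∈ Q, (a : ℝ) ^ (-σ) ≤ exp (∑ m ∈ E, (m : ℝ) ^ (-σ)) := by
    rw [← prod_one_add, exp_sum]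
    apply prod_le_prod
    · intro a _
      positivity
    · intro a _
      have := add_one_le_exp ((a : ℝ) ^ (-σ))
      linarith
  rw [h2, h3] at h1
  refine h1.trans ?_
  have hm0 : 0 ≤ ∑ m ∈ Icc 1 Yf, (m : ℝ) ^ (-σ) := sum_nonneg fun m _ => by positivity
  have hQ0 : 0 ≤ ∑ Q ∈ E.powerset, ∏ a ∈ Q, (a : ℝ) ^ (-σ) :=
    sum_nonneg fun Q _ => prod_nonneg fun a _ => by positivity
  have hc0 : 0 ≤ ∑ c ∈ ({1, 2} : Finset ℕ), (c : ℝ) ^ (-σ) := sum_nonneg fun m _ => by positivity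
  have ht : 0 ≤ ∑' k : ℕ, (k : ℝ) ^ (-(2 * σ)) := tsum_nonneg fun k => by positivity
  have hE0 : 0 ≤ exp (∑ m ∈ E, (m : ℝ) ^ (-σ)) := (exp_pos _).le
  calc ((∑ d ∈ Icc 1 x, (d : ℝ) ^ (-(2 * σ))) * ∑ c ∈ ({1, 2} : Finset ℕ), (c : ℝ) ^ (-σ)) *
        ((∑ m ∈ Icc 1 Yf, (m : ℝ) ^ (-σ)) * ∑ Q ∈ E.powerset, ∏ a ∈ Q, (a : ℝ) ^ (-σ)) ≤
      ((∑' k : ℕ, (k : ℝ) ^ (-(2 * σ))) * 2) *
        ((Yf : ℝ) * exp (∑ m ∈ E, (m : ℝ) ^ (-σ))) := by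
        apply mul_le_mul
        · exact mul_le_mul h4 h5 hc0 ht
        · exact mul_le_mul h6 h7 hQ0 (Nat.cast_nonneg _)
        · exact mul_nonneg hm0 hQ0
        · positivity
    _ = _ := by ring

/-- numbers with at most `j` controlled primes -/
noncomputable def NN (W : Finset ℕ) (x j : ℕ) (κ : ℕ → ℕ) (V σ : ℝ) : Finset ℕ :=
  (range j).biUnion fun m => W.biUnion fun w =>
    ((powersetCard m (Icc 1 x)).filter (fun U => 2 ≤ w * ∏ q ∈ U, q ∧ w * ∏ q ∈ U, q ≤ x)).biUnion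
    fun U => (w * (∏ q ∈ U, q) - 1).divisors.biUnion
      fun e => (Icc 1 ⌊V * ((x : ℝ) / w) ^ σ * ∏ q ∈ U, ((κ q : ℝ) / q)⌋₊).image
        fun t => (e * t + 1) * (w * ∏ q ∈ U, q)

lemma NN_bound (x j : ℕ) (W : Finset ℕ) (hW : ∀ w ∈ W, 1 ≤ w ∧ w ≤ x) (κ : ℕ → ℕ)
    (Cτ η V σ Kk : ℝ) (hη : 0 ≤ η) (hCτ : 0 < Cτ) (hV1 : 1 ≤ V)
    (hdiv : ∀ n : ℕ, 1 ≤ n → (n.divisors.card : ℝ) ≤ Cτ * (n : ℝ) ^ η)
    (hK1 : 1 ≤ Kk) (hκ : ∑ p ∈ Icc 1 x, (κ p : ℝ) / p ≤ Kk) :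
    ((NN W x j κ V σ).card : ℝ) ≤
      (j * Cτ * (x : ℝ) ^ η * V * Kk ^ j * (x : ℝ) ^ σ) * ∑ w ∈ W, (w : ℝ) ^ (-σ) := by
  have hV0 : 0 < V := by linarith
  have e1 : ((NN W x j κ V σ).card : ℝ) ≤ ∑ m ∈ range j, ∑ w ∈ W,
      ∑ U ∈ (powersetCard m (Icc 1 x)).filter (fun U => 2 ≤ w * ∏ q ∈ U, q ∧ w * ∏ q ∈ U, q ≤ x),
      ((w * (∏ q ∈ U, q) - 1).divisors.card : ℝ) *
        ((⌊V * ((x : ℝ) / w) ^ σ * ∏ q ∈ U, ((κ q : ℝ) / q)⌋₊ : ℕ) : ℝ) := by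
    have : (NN W x j κ V σ).card ≤ ∑ m ∈ range j, ∑ w ∈ W,
        ∑ U ∈ (powersetCard m (Icc 1 x)).filter (fun U => 2 ≤ w * ∏ q ∈ U, q ∧ w * ∏ q ∈ U, q ≤ x),
        (w * (∏ q ∈ U, q) - 1).divisors.card *
        ⌊V * ((x : ℝ) / w) ^ σ * ∏ q ∈ U, ((κ q : ℝ) / q)⌋₊ := by
      unfold NN
      refine card_biUnion_le.trans (sum_le_sum fun m _ => ?_)
      refine card_biUnion_le.trans (sum_le_sum fun w _ => ?_)
      refine card_biUnion_le.trans (sum_le_sum fun U _ => ?_)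
      refine card_biUnion_le.trans ?_
      have h : ∀ e ∈ (w * (∏ q ∈ U, q) - 1).divisors,
          ((Icc 1 ⌊V * ((x : ℝ) / w) ^ σ * ∏ q ∈ U, ((κ q : ℝ) / q)⌋₊).image
          (fun t => (e * t + 1) * (w * ∏ q ∈ U, q))).card ≤
            ⌊V * ((x : ℝ) / w) ^ σ * ∏ q ∈ U, ((κ q : ℝ) / q)⌋₊ :=
        fun e _ => card_image_le.trans (by rw [Nat.card_Icc]; omega)
      refine (sum_le_sum h).trans (le_of_eq ?_)
      rw [sum_const, smul_eq_mul]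
    refine le_trans (Nat.cast_le.mpr this) (le_of_eq ?_)
    rw [Nat.cast_sum]
    refine sum_congr rfl fun m _ => ?_
    rw [Nat.cast_sum]
    refine sum_congr rfl fun w _ => ?_
    rw [Nat.cast_sum]
    exact sum_congr rfl fun U _ => Nat.cast_mul _ _
  refine e1.trans ?_
  have e2 : ∀ m ∈ range j, ∑ w ∈ W,
      ∑ U ∈ (powersetCard m (Icc 1 x)).filter (fun U => 2 ≤ w * ∏ q ∈ U, q ∧ w * ∏ q ∈ U, q ≤ x),
      ((w * (∏ q ∈ U, q) - 1).divisors.card : ℝ) *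
        ((⌊V * ((x : ℝ) / w) ^ σ * ∏ q ∈ U, ((κ q : ℝ) / q)⌋₊ : ℕ) : ℝ) ≤
      (Cτ * (x : ℝ) ^ η * V * Kk ^ j * (x : ℝ) ^ σ) * ∑ w ∈ W, (w : ℝ) ^ (-σ) := by
    intro m hm
    rw [mem_range] at hm
    rw [mul_sum]
    apply sum_le_sum
    intro w hw
    obtain ⟨hw1, hwx⟩ := hW w hw
    have hw0 : (0 : ℝ) < w := by exact_mod_cast hw1
    have hxpos : (0 : ℝ) < x := by exact_mod_cast (by omega : 0 < x)
    have g0 : ∀ U ∈ (powersetCard m (Icc 1 x)).filter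
        (fun U => 2 ≤ w * ∏ q ∈ U, q ∧ w * ∏ q ∈ U, q ≤ x),
        ((w * (∏ q ∈ U, q) - 1).divisors.card : ℝ) *
        ((⌊V * ((x : ℝ) / w) ^ σ * ∏ q ∈ U, ((κ q : ℝ) / q)⌋₊ : ℕ) : ℝ) ≤
        (Cτ * (x : ℝ) ^ η * V * ((x : ℝ) / w) ^ σ) * ∏ q ∈ U, ((κ q : ℝ) / q) := by
      intro U hU
      rw [mem_filter] at hU
      obtain ⟨_, h2, h3⟩ := hU
      have hp0 : 0 ≤ ∏ q ∈ U, ((κ q : ℝ) / q) := prod_nonneg fun q _ => by positivity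
      have g1 : ((w * (∏ q ∈ U, q) - 1).divisors.card : ℝ) ≤ Cτ * (x : ℝ) ^ η := by
        refine (hdiv (w * (∏ q ∈ U, q) - 1) (by omega)).trans ?_
        apply mul_le_mul_of_nonneg_left _ hCτ.le
        apply rpow_le_rpow (Nat.cast_nonneg _) _ hη
        have : w * (∏ q ∈ U, q) - 1 ≤ x := by omega
        exact_mod_cast this
      have g2 : ((⌊V * ((x : ℝ) / w) ^ σ * ∏ q ∈ U, ((κ q : ℝ) / q)⌋₊ : ℕ) : ℝ) ≤
          V * ((x : ℝ) / w) ^ σ * ∏ q ∈ U, ((κ q : ℝ) / q) := Nat.floor_le (by positivity)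
      calc _ ≤ (Cτ * (x : ℝ) ^ η) * (V * ((x : ℝ) / w) ^ σ * ∏ q ∈ U, ((κ q : ℝ) / q)) :=
            mul_le_mul g1 g2 (Nat.cast_nonneg _) (by positivity)
        _ = _ := by ring
    refine (sum_le_sum g0).trans ?_
    rw [← mul_sum]
    have g3 : ∑ U ∈ (powersetCard m (Icc 1 x)).filter
        (fun U => 2 ≤ w * ∏ q ∈ U, q ∧ w * ∏ q ∈ U, q ≤ x), ∏ q ∈ U, ((κ q : ℝ) / q) ≤ Kk ^ j := by
      refine le_trans (sum_le_sum_of_subset_of_nonneg (filter_subset _ _)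
        fun U _ _ => prod_nonneg fun q _ => by positivity) ?_
      refine (esum_le (Icc 1 x) (fun q => (κ q : ℝ) / q) (fun q => by positivity) m).trans ?_
      have h0 : 0 ≤ ∑ p ∈ Icc 1 x, (κ p : ℝ) / p := sum_nonneg fun p _ => by positivity
      exact (pow_le_pow_left₀ h0 hκ m).trans (pow_le_pow_right₀ hK1 hm.le)
    have g4 : ((x : ℝ) / w) ^ σ = (x : ℝ) ^ σ * (w : ℝ) ^ (-σ) := by
      rw [rpow_neg hw0.le, ← div_eq_mul_inv, ← div_rpow hxpos.le hw0.le]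
    calc _ ≤ (Cτ * (x : ℝ) ^ η * V * ((x : ℝ) / w) ^ σ) * Kk ^ j :=
          mul_le_mul_of_nonneg_left g3 (by positivity)
      _ = _ := by rw [g4]; ring
  refine (sum_le_sum e2).trans (le_of_eq ?_)
  rw [sum_const, card_range, nsmul_eq_mul]
  ring

/-- `n` is composite and passes the strong test for the elements of a subset `P` of `B` with
`|B| + 2 ^ j S ≤ 2 ^ j |P|` -/
def BadJ (j : ℕ) (B : Finset ℕ) (S n : ℕ) : Prop :=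
  2 ≤ n ∧ ¬ n.Prime ∧ ∃ P : Finset ℕ, P ⊆ B ∧ (∀ ℓ ∈ P, Passes n ℓ) ∧
    B.card + 2 ^ j * S ≤ 2 ^ j * P.card

lemma coverJ {B : Finset ℕ} {j S x n Y : ℕ} {g η σ V : ℝ} (hV : 1 ≤ V) (hη : 0 ≤ g + η)
    (hgσ : g + η ≤ σ) (hσ : 1 - 1 / (j : ℝ) ≤ σ) (hj : 1 ≤ j)
    (hHL : ∀ D : ℕ, 1 ≤ D → D ∣ n → (D : ℝ) ^ (1 - g - η) ≤ (liars n D : ℝ) * V)
    (hS : 1 ≤ S) (hY : 2 ≤ Y) (hb : BadJ j B S n) (hnx : n ≤ x) :
    n ∈ Wg ((Ex B S x).filter (fun a => Y ≤ a)) (Y ^ (2 * (j + 1))) x ∨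
      n ∈ NN (Wg ((Ex B S x).filter (fun a => Y ≤ a)) (Y ^ (2 * (j + 1))) x) x j
        (kap (2 ^ j) B x) V σ := by
  classical
  obtain ⟨hn2, hnp, P, hPB, hP, hcard⟩ := hb
  obtain ⟨d, c, k, hn, hc, hkodd, hksq, hd⟩ := decomp (by omega : 1 ≤ n)
  have hc1 : 1 ≤ c := by rcases hc with h | h <;> omega
  have hcm : c ∈ ({1, 2} : Finset ℕ) := by
    rcases hc with h | h <;> rw [h] <;> decide
  have hkn : k ∣ n := ⟨d ^ 2 * c, by rw [hn, mul_comm]⟩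
  have hd2n : d ^ 2 ∣ n := ⟨c * k, by rw [hn, mul_assoc]⟩
  have hd2pos : 1 ≤ d ^ 2 := Nat.one_le_pow _ _ hd
  have hdx : d ≤ x := by
    have h1 : d ≤ d ^ 2 := by rw [sq]; exact Nat.le_mul_of_pos_left d hd
    exact (h1.trans (Nat.le_of_dvd (by omega) hd2n)).trans hnx
  obtain ⟨Q, F, f, hQ, hFp, hFj, hf1, hfY, hk⟩ :=
    greedy hn2 hnx hksq hkodd hkn hPB hP hS hcard hY k dvd_rfl
  have hPc : B.card ≤ 2 ^ j * P.card := by omega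
  obtain ⟨w, hw⟩ : ∃ w, w = d ^ 2 * c * (f * ∏ a ∈ Q, a) := ⟨_, rfl⟩
  have hQ1 : 1 ≤ ∏ a ∈ Q, a := Nat.pos_of_ne_zero (prod_ne_zero_iff.mpr fun a ha => by
    have := (hQ a ha).2; omega)
  have hw1 : 1 ≤ w := by
    rw [hw]; exact Nat.mul_pos (Nat.mul_pos hd2pos hc1) (Nat.mul_pos hf1 hQ1)
  have hnw : n = w * ∏ q ∈ F, q := by rw [hn, hk, hw]; ring
  have hF1 : 1 ≤ ∏ q ∈ F, q := Nat.pos_of_ne_zero (prod_ne_zero_iff.mpr fun q hq =>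
    (hFp q hq).ne_zero)
  have hwn : w ≤ n := by rw [hnw]; exact Nat.le_mul_of_pos_right w hF1
  obtain ⟨W, hW⟩ : ∃ W, W = Wg ((Ex B S x).filter (fun a => Y ≤ a)) (Y ^ (2 * (j + 1))) x :=
    ⟨_, rfl⟩
  have hwW : w ∈ W := by
    rw [hW, Wg, mem_filter, mem_image]
    refine ⟨⟨((d, c), (f, Q)), ?_, hw.symm⟩, hwn.trans hnx⟩
    rw [mem_product, mem_product, mem_product, mem_Icc, mem_Icc, mem_powerset]
    refine ⟨⟨⟨hd, hdx⟩, hcm⟩, ⟨hf1, hfY⟩, ?_⟩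
    intro a ha
    rw [mem_filter]
    exact hQ a ha
  rw [← hW]
  rcases Nat.lt_or_ge F.card 2 with hs | hs
  · rcases Nat.eq_zero_or_pos F.card with h0 | h0
    · left
      rw [card_eq_zero] at h0
      rw [h0, prod_empty, mul_one] at hnw
      rw [hnw]; exact hwW
    · right
      have h1 : F.card = 1 := by omega
      obtain ⟨p, hp⟩ := card_eq_one.mp h1
      have hpp : p.Prime := hFp p (by rw [hp]; exact mem_singleton_self p)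
      rw [hp, prod_singleton] at hnw
      have hw2 : 2 ≤ w := by
        by_contra hlt
        have : w = 1 := by omega
        rw [this, one_mul] at hnw
        exact hnp (hnw ▸ hpp)
      have hnw' : n = p * w := by rw [hnw, mul_comm]
      obtain ⟨e, he, t, ht, hf⟩ := one_ctrl hV hη hn2 hnx hHL hpp hw2 hnw'
      rw [NN, mem_biUnion]
      refine ⟨0, mem_range.mpr (by omega), ?_⟩
      rw [mem_biUnion]
      refine ⟨w, hwW, ?_⟩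
      rw [mem_biUnion]
      refine ⟨∅, ?_, ?_⟩
      · rw [mem_filter, prod_empty, mul_one]
        exact ⟨by simp, hw2, hwn.trans hnx⟩
      · rw [mem_biUnion, prod_empty, prod_empty, mul_one]
        refine ⟨e, he, ?_⟩
        rw [mem_image]
        refine ⟨t, ?_, hf⟩
        rw [mem_Icc, mul_one]
        constructor
        · rcases Nat.eq_zero_or_pos t with h | h
          · exfalso
            rw [h, mul_zero, zero_add, one_mul] at hf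
            rw [← hf] at hnw'
            have := hpp.two_le
            nlinarith
          · exact h
        · rw [mem_range, Nat.lt_succ_iff] at ht
          refine ht.trans (Nat.floor_le_floor ?_)
          have hw0 : (0 : ℝ) < w := by exact_mod_cast hw1
          have hxw : 1 ≤ (x : ℝ) / w := by
            rw [one_le_div hw0]; exact_mod_cast hwn.trans hnx
          exact mul_le_mul_of_nonneg_left (rpow_le_rpow_of_exponent_le hxw hgσ) (by linarith)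
  · right
    obtain ⟨U, hU, hU2, e, he, t, ht, hf⟩ :=
      multi_ctrl (c := 2 ^ j) hV hn2 hnx hFp hs hFj hw1 hnw hPB hPc hP hσ
    rw [NN, mem_biUnion]
    refine ⟨F.card - 1, mem_range.mpr (by omega), ?_⟩
    rw [mem_biUnion]
    refine ⟨w, hwW, ?_⟩
    rw [mem_biUnion]
    refine ⟨U, mem_filter.mpr ⟨hU, hU2⟩, ?_⟩
    rw [mem_biUnion]
    refine ⟨e, he, ?_⟩
    rw [mem_image]
    exact ⟨t, ht, hf⟩

end Pool.Agent.TH725.TS.G
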