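import Pool.Agent.TH725.TS.Kraw
import Pool.Agent.W57.SW.Rank

set_option autoImplicit false

/-! Odd squarefree numbers with biased symbols at an arbitrary set of primes: Heath-Brown's large sieve. -/

namespace Pool.Agent.TH725.TS

open Finset Real Pool.Agent.H306R2.RZ Pool.Agent.W57.SW

open Classical in
/-- odd squarefree `m ≤ X` with at least `S` more symbols `1` than symbols `-1` at the elements of `B` -/
noncomputable def Ex (B : Finset ℕ) (S X : ℕ) : Finset ℕ :=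
  (Icc 1 X).filter (fun m => Odd m ∧ Squarefree m ∧
    (B.filter fun ℓ : ℕ => jacobiSym (ℓ : ℤ) m = -1).card + S ≤
      (B.filter fun ℓ : ℕ => jacobiSym (ℓ : ℤ) m = 1).card)

lemma mem_Ex {B : Finset ℕ} {S X m : ℕ} : m ∈ Ex B S X ↔ (1 ≤ m ∧ m ≤ X) ∧ Odd m ∧ Squarefree m ∧
    (B.filter fun ℓ : ℕ => jacobiSym (ℓ : ℤ) m = -1).card + S ≤
      (B.filter fun ℓ : ℕ => jacobiSym (ℓ : ℤ) m = 1).card := by
  rw [Ex, mem_filter, mem_Icc]

lemma Ex_filter {B : Finset ℕ} {S x X : ℕ} (h : X ≤ x) :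
    (Ex B S x).filter (fun m => m ≤ X) = Ex B S X := by
  ext m
  rw [mem_filter, mem_Ex, mem_Ex]
  constructor
  · rintro ⟨⟨⟨a, _⟩, b⟩, c⟩; exact ⟨⟨a, c⟩, b⟩
  · rintro ⟨⟨a, c⟩, b⟩; exact ⟨⟨⟨a, c.trans h⟩, b⟩, c⟩

lemma jacobi_prod_left (m : ℕ) (T : Finset ℕ) :
    jacobiSym ((∏ x ∈ T, x : ℕ) : ℤ) m = ∏ x ∈ T, jacobiSym (x : ℤ) m := by
  classical
  induction T using Finset.induction_on with
  | empty => simp
  | insert x T hx ih =>
    rw [prod_insert hx, prod_insert hx]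
    push_cast at ih ⊢
    rw [jacobiSym.mul_left, ih]

lemma sum_prods {B : Finset ℕ} (hB : ∀ p ∈ B, p.Prime) (u : ℕ) (g : ℕ → ℤ) :
    ∑ s ∈ prods B u, g s = ∑ T ∈ powersetCard u B, g (∏ x ∈ T, x) := by
  classical
  rw [prods, sum_image]
  intro T hT T' hT' h
  rw [mem_coe, mem_powersetCard] at hT hT'
  have h1 := Nat.primeFactors_prod (s := T) fun p hp => hB p (hT.1 hp)
  have h2 := Nat.primeFactors_prod (s := T') fun p hp => hB p (hT'.1 hp)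
  simp only at h
  rw [← h1, ← h2, h]

theorem ex_bound (ε : ℝ) (hε : 0 < ε) : ∃ C : ℝ, 0 < C ∧ ∀ (B : Finset ℕ) (y u S X : ℕ),
    (∀ p ∈ B, p.Prime) → (∀ p ∈ B, p ≤ y) → y ^ u ≤ X → 1 ≤ X → u ≤ S →
    2 * B.card * u ^ 2 ≤ (S - u) ^ 2 →
    ((Ex B S X).card : ℝ) * (S.choose u : ℝ) ^ 2 ≤
      C * (X : ℝ) ^ (1 + ε) * (B.card.choose u : ℝ) := by
  classical
  obtain ⟨C, hC, hLS⟩ := Pool.Agent.H423R2.RZL.HBLSn.HBLS (ε / 2) (by positivity)
  refine ⟨8 * C, by positivity, ?_⟩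
  intro B y u S X hBp hBy hyX hX huS hcond
  have hXr : (1 : ℝ) ≤ X := by exact_mod_cast hX
  have hXpos : (0 : ℝ) < X := by linarith
  obtain ⟨T, hT⟩ : ∃ T : Finset ℕ, T = Ex B S X := ⟨_, rfl⟩
  rw [← hT]
  have hTm : ∀ m ∈ T, (1 ≤ m ∧ m ≤ X) ∧ Odd m ∧ Squarefree m ∧
    (B.filter fun ℓ : ℕ => jacobiSym (ℓ : ℤ) m = -1).card + S ≤
      (B.filter fun ℓ : ℕ => jacobiSym (ℓ : ℤ) m = 1).card := by
    intro m hm
    rw [hT] at hm
    exact mem_Ex.mp hm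
  have hTosf : T ⊆ osf X := by
    intro m hm
    obtain ⟨⟨a1, a2⟩, a3, a4, _⟩ := hTm m hm
    rw [osf, mem_filter, mem_Icc]
    exact ⟨⟨a1, a2⟩, a3, a4⟩
  have hSsqf : prods B u ⊆ sqf X := by
    intro s hs
    obtain ⟨h3, h4, h5, h6, _⟩ := prods_spec hBp hBy hs
    rw [sqf, mem_filter, mem_Icc]
    exact ⟨⟨h3, h4.trans hyX⟩, h6⟩
  -- lower bound for the double sum
  obtain ⟨a, ha⟩ : ∃ a : ℕ → ℝ, ∀ s, a s = ∑ n ∈ T, js s n := ⟨_, fun _ => rfl⟩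
  have hlow : (T.card : ℝ) * (S.choose u : ℝ) ≤ 2 * ∑ s ∈ prods B u, a s := by
    have e1 : ∑ s ∈ prods B u, a s = ∑ n ∈ T, ∑ s ∈ prods B u, js s n := by
      rw [sum_congr rfl fun s _ => ha s, sum_comm]
    rw [e1, mul_sum, ← nsmul_eq_mul, ← sum_const]
    apply sum_le_sum
    intro n hn
    obtain ⟨_, _, _, hn4⟩ := hTm n hn
    have h1 := esymm_low B (fun ℓ => jacobiSym (ℓ : ℤ) n) (fun ℓ _ => by
      rcases jacobiSym.trichotomy (ℓ : ℤ) n with h | h | h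
      · exact Or.inr (Or.inl h)
      · exact Or.inl h
      · exact Or.inr (Or.inr h)) hn4 huS hcond
    have h2 : ∑ T ∈ powersetCard u B, ∏ x ∈ T, jacobiSym (x : ℤ) n =
        ∑ s ∈ prods B u, jacobiSym (s : ℤ) n := by
      rw [sum_prods hBp]
      apply sum_congr rfl
      intro T _
      exact (jacobi_prod_left n T).symm
    rw [h2] at h1
    have h3 : ((S.choose u : ℤ) : ℝ) ≤ ((2 * ∑ s ∈ prods B u, jacobiSym (s : ℤ) n : ℤ) : ℝ) := by
      exact_mod_cast h1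
    push_cast at h3
    exact h3
  -- upper bound
  have h1 := hLS X X hX hX (fun n => if n ∈ T then 1 else 0)
  have hup : ∑ s ∈ prods B u, a s ^ 2 ≤
      ∑ m ∈ sqf X, ‖∑ n ∈ osf X, (if n ∈ T then (1 : ℂ) else 0) * (js m n : ℂ)‖ ^ 2 := by
    refine le_trans (sum_le_sum fun s hs => ?_)
      (sum_le_sum_of_subset_of_nonneg hSsqf fun _ _ _ => by positivity)
    have e1 : ∑ n ∈ osf X, (if n ∈ T then (1 : ℂ) else 0) * (js s n : ℂ) = ((a s : ℝ) : ℂ) := by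
      have e2 : ∀ n ∈ osf X, (if n ∈ T then (1 : ℂ) else 0) * (js s n : ℂ) =
          if n ∈ T then (js s n : ℂ) else 0 := by
        intro n _
        split_ifs with h <;> simp
      rw [sum_congr rfl e2, sum_ite_mem, inter_eq_right.mpr hTosf, ha]
      push_cast
      rfl
    rw [e1, Complex.norm_real, norm_eq_abs, sq_abs]
  have hR : ∑ n ∈ osf X, ‖(if n ∈ T then (1 : ℂ) else 0)‖ ^ 2 = T.card := by
    have e2 : ∀ n ∈ osf X, ‖(if n ∈ T then (1 : ℂ) else 0)‖ ^ 2 =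
          if n ∈ T then (1 : ℝ) else 0 := by
      intro n _
      split_ifs with h <;> simp
    rw [sum_congr rfl e2, sum_ite_mem, inter_eq_right.mpr hTosf]
    simp
  have h2 := hup.trans h1
  rw [hR] at h2
  have h3 : (∑ s ∈ prods B u, a s) ^ 2 ≤ (prods B u).card * ∑ s ∈ prods B u, a s ^ 2 :=
    sq_sum_le_card_mul_sum_sq
  rw [card_prods hBp] at h3
  have e5 : C * ((X : ℝ) * X) ^ (ε / 2) * (X + X) = 2 * C * (X : ℝ) ^ (1 + ε) := by
    rw [mul_rpow hXpos.le hXpos.le, ← rpow_add hXpos, rpow_add hXpos 1, rpow_one,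
      show ε / 2 + ε / 2 = ε by ring]
    ring
  rw [e5] at h2
  have hCu : (0 : ℝ) ≤ (B.card.choose u : ℝ) := Nat.cast_nonneg _
  have h4 : (∑ s ∈ prods B u, a s) ^ 2 ≤
      (B.card.choose u : ℝ) * (2 * C * (X : ℝ) ^ (1 + ε) * T.card) :=
    h3.trans (mul_le_mul_of_nonneg_left h2 hCu)
  have h5 : ((T.card : ℝ) * (S.choose u : ℝ)) ^ 2 ≤ (2 * ∑ s ∈ prods B u, a s) ^ 2 :=
    pow_le_pow_left₀ (by positivity) hlow 2
  rcases Nat.eq_zero_or_pos T.card with h0 | h0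
  · rw [h0]
    push_cast
    rw [zero_mul]
    positivity
  · have h0' : (0 : ℝ) < T.card := by exact_mod_cast h0
    have h6 : (T.card : ℝ) * (T.card * (S.choose u : ℝ) ^ 2) ≤
        T.card * (8 * C * (X : ℝ) ^ (1 + ε) * (B.card.choose u : ℝ)) := by
      calc (T.card : ℝ) * (T.card * (S.choose u : ℝ) ^ 2) =
          ((T.card : ℝ) * (S.choose u : ℝ)) ^ 2 := by ring
        _ ≤ (2 * ∑ s ∈ prods B u, a s) ^ 2 := h5
        _ = 4 * (∑ s ∈ prods B u, a s) ^ 2 := by ring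
        _ ≤ 4 * ((B.card.choose u : ℝ) * (2 * C * (X : ℝ) ^ (1 + ε) * T.card)) :=
            mul_le_mul_of_nonneg_left h4 (by norm_num)
        _ = _ := by ring
    exact le_of_mul_le_mul_left h6 h0'

end Pool.Agent.TH725.TS
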