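import Mathlib

set_option autoImplicit false

/-! Elementary symmetric sums of signs: positivity. -/

namespace Pool.Agent.TH725.TS

open Finset Polynomial

/-- coefficients of `(1 - X^2)^j (1 + X)^r` -/
noncomputable def Fc (r j v : ℕ) : ℤ := (((1 : ℤ[X]) - X ^ 2) ^ j * (1 + X) ^ r).coeff v

lemma Fc_zero (r v : ℕ) : Fc r 0 v = r.choose v := by
  unfold Fc
  rw [pow_zero, one_mul, add_comm, Polynomial.coeff_X_add_one_pow]

lemma Fc_succ (r j v : ℕ) : Fc r (j + 1) v = Fc r j v - if 2 ≤ v then Fc r j (v - 2) else 0 := by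
  unfold Fc
  have h : ((1 : ℤ[X]) - X ^ 2) ^ (j + 1) * (1 + X) ^ r =
      (1 - X ^ 2) ^ j * (1 + X) ^ r - X ^ 2 * ((1 - X ^ 2) ^ j * (1 + X) ^ r) := by ring
  rw [h, coeff_sub, coeff_X_pow_mul']

/-- two steps down in a row of Pascal's triangle -/
lemma choose_two {r u q v : ℕ} (hu : u ≤ r) (h : 2 * q * u ^ 2 ≤ (r - u) ^ 2) (hv2 : 2 ≤ v)
    (hvu : v ≤ u) : 2 * q * r.choose (v - 2) ≤ r.choose v := by
  obtain ⟨w, rfl⟩ : ∃ w, v = w + 2 := ⟨v - 2, by omega⟩
  rw [show w + 2 - 2 = w by omega]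
  have h1 := Nat.choose_succ_right_eq r w
  have h2 := Nat.choose_succ_right_eq r (w + 1)
  have h3 : r.choose (w + 2) * ((w + 2) * (w + 1)) = r.choose w * ((r - w) * (r - (w + 1))) := by
    calc r.choose (w + 2) * ((w + 2) * (w + 1)) = (r.choose (w + 1 + 1) * (w + 1 + 1)) * (w + 1) := by
          ring
      _ = (r.choose (w + 1) * (w + 1)) * (r - (w + 1)) := by rw [h2]; ring
      _ = _ := by rw [h1]; ring
  have h4 : (r - u) ^ 2 ≤ (r - w) * (r - (w + 1)) := by
    rw [sq]; exact Nat.mul_le_mul (by omega) (by omega)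
  have h5 : (w + 2) * (w + 1) ≤ u ^ 2 := by
    rw [sq]; exact Nat.mul_le_mul (by omega) (by omega)
  have h6 : 2 * q * r.choose w * ((w + 2) * (w + 1)) ≤ r.choose (w + 2) * ((w + 2) * (w + 1)) := by
    rw [h3]
    calc 2 * q * r.choose w * ((w + 2) * (w + 1)) ≤ 2 * q * r.choose w * u ^ 2 :=
          Nat.mul_le_mul_left _ h5
      _ = r.choose w * (2 * q * u ^ 2) := by ring
      _ ≤ r.choose w * ((r - w) * (r - (w + 1))) := Nat.mul_le_mul_left _ (h.trans h4)
  exact Nat.le_of_mul_le_mul_right h6 (by positivity)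

lemma Fc_bounds {r u q : ℕ} (hu : u ≤ r) (h : 2 * q * u ^ 2 ≤ (r - u) ^ 2) :
    ∀ j, j ≤ q → ∀ v, v ≤ u → Fc r j v ≤ r.choose v ∧
      (r.choose v : ℤ) - (j : ℤ) * (if 2 ≤ v then (r.choose (v - 2) : ℤ) else 0) ≤ Fc r j v := by
  intro j
  induction j with
  | zero =>
    intro _ v _
    rw [Fc_zero]
    simp
  | succ j ih =>
    intro hj v hv
    obtain ⟨a1, a2⟩ := ih (by omega) v hv
    rw [Fc_succ]
    by_cases hv2 : 2 ≤ v
    · simp only [hv2, if_true] at a2 ⊢
      obtain ⟨b1, b2⟩ := ih (by omega) (v - 2) (by omega)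
      have hnn : 0 ≤ Fc r j (v - 2) := by
        refine le_trans ?_ b2
        by_cases hv4 : 2 ≤ v - 2
        · simp only [hv4, if_true]
          have h1 := choose_two hu h hv4 (by omega : v - 2 ≤ u)
          have h2 : (2 * q * r.choose (v - 2 - 2) : ℤ) ≤ r.choose (v - 2) := by exact_mod_cast h1
          have h3 : (j : ℤ) ≤ q := by exact_mod_cast (by omega : j ≤ q)
          have h4 : (0 : ℤ) ≤ r.choose (v - 2 - 2) := by positivity
          nlinarith
        · simp [hv4]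
      constructor
      · linarith
      · push_cast
        linarith
    · simp only [hv2, if_false] at a2 ⊢
      push_cast at a2 ⊢
      constructor
      · linarith
      · linarith

lemma Fc_low {r u q : ℕ} (hu : u ≤ r) (h : 2 * q * u ^ 2 ≤ (r - u) ^ 2) :
    (r.choose u : ℤ) ≤ 2 * Fc r q u := by
  obtain ⟨_, h2⟩ := Fc_bounds hu h q le_rfl u le_rfl
  by_cases hv2 : 2 ≤ u
  · simp only [hv2, if_true] at h2
    have h1 : (2 * q * r.choose (u - 2) : ℤ) ≤ r.choose u := by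
      exact_mod_cast choose_two hu h hv2 le_rfl
    linarith
  · simp only [hv2, if_false] at h2
    have : (0 : ℤ) ≤ r.choose u := by positivity
    linarith

/-- the elementary symmetric sum as a coefficient -/
lemma esymm_coeff (B : Finset ℕ) (f : ℕ → ℤ) (u : ℕ) :
    (∏ x ∈ B, ((1 : ℤ[X]) + C (f x) * X)).coeff u = ∑ T ∈ powersetCard u B, ∏ x ∈ T, f x := by
  rw [Finset.prod_one_add]
  rw [Polynomial.finsetSum_coeff]
  have h : ∀ T ∈ B.powerset, (∏ x ∈ T, (C (f x) * X : ℤ[X])).coeff u =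
      if T.card = u then ∏ x ∈ T, f x else 0 := by
    intro T _
    rw [prod_mul_distrib, prod_const, ← map_prod (C : ℤ →+* ℤ[X]), coeff_C_mul, coeff_X_pow]
    by_cases h : u = T.card
    · simp [h]
    · rw [if_neg h, if_neg (fun h' => h h'.symm), mul_zero]
  rw [sum_congr rfl h, ← sum_filter]
  apply sum_congr _ fun _ _ => rfl
  ext T
  rw [mem_filter, mem_powerset, mem_powersetCard]

/-- **Positivity of the elementary symmetric sums.** If `f` has values `1, 0, -1` and there are at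
least `S` more values `1` than values `-1`, and `2 |B| u^2 ≤ (S - u)^2`, then twice the `u`-th
elementary symmetric sum is at least `S.choose u`. -/
theorem esymm_low (B : Finset ℕ) (f : ℕ → ℤ) (hf : ∀ x ∈ B, f x = 1 ∨ f x = 0 ∨ f x = -1)
    {S u : ℕ} (hS : (B.filter fun x => f x = -1).card + S ≤ (B.filter fun x => f x = 1).card)
    (huS : u ≤ S) (h : 2 * B.card * u ^ 2 ≤ (S - u) ^ 2) :
    (S.choose u : ℤ) ≤ 2 * ∑ T ∈ powersetCard u B, ∏ x ∈ T, f x := by
  obtain ⟨p, hp⟩ : ∃ p, p = (B.filter fun x => f x = 1).card := ⟨_, rfl⟩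
  obtain ⟨q, hq⟩ : ∃ q, q = (B.filter fun x => f x = -1).card := ⟨_, rfl⟩
  rw [← hp, ← hq] at hS
  obtain ⟨r, hr⟩ : ∃ r, p = q + r := ⟨p - q, by omega⟩
  have hSr : S ≤ r := by omega
  have hprod : ∏ x ∈ B, ((1 : ℤ[X]) + C (f x) * X) = (1 - X ^ 2) ^ q * (1 + X) ^ r := by
    have h1 : ∀ x ∈ B, ((1 : ℤ[X]) + C (f x) * X) =
        (if f x = 1 then 1 + X else 1) * (if f x = -1 then 1 - X else 1) := by
      intro x hx
      rcases hf x hx with h | h | h
      · rw [h]; simp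
      · rw [h]; simp
      · rw [h]; simp; ring
    rw [prod_congr rfl h1, prod_mul_distrib, prod_ite, prod_ite]
    simp only [prod_const, one_pow, mul_one]
    rw [← hp, ← hq, hr]
    have h5 : (1 : ℤ[X]) - X ^ 2 = (1 - X) * (1 + X) := by ring
    rw [h5, mul_pow, pow_add]
    ring
  rw [← esymm_coeff, hprod]
  have h2 : 2 * q * u ^ 2 ≤ (r - u) ^ 2 := by
    have h3 : q ≤ B.card := by rw [hq]; exact card_filter_le _ _
    calc 2 * q * u ^ 2 ≤ 2 * B.card * u ^ 2 := by gcongr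
      _ ≤ (S - u) ^ 2 := h
      _ ≤ (r - u) ^ 2 := Nat.pow_le_pow_left (by omega) 2
  have h3 := Fc_low (by omega : u ≤ r) h2
  have h4 : (S.choose u : ℤ) ≤ r.choose u := by exact_mod_cast Nat.choose_le_choose u hSr
  unfold Fc at h3
  linarith

end Pool.Agent.TH725.TS
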