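import Pool.Agent.TH725.TS.Ex

set_option autoImplicit false

/-! A larger sieve for the primes modulo which many small primes lie in a subgroup of large index. -/

namespace Pool.Agent.TH725.TS

open Finset Real Pool.Agent.W57.SW

/-- `p` is a prime modulo which a quarter of `B` satisfies `ℓ ^ h = 1`, where `h K ≤ p` -/
def Sm (B : Finset ℕ) (K p : ℕ) : Prop :=
  p.Prime ∧ ∃ P : Finset ℕ, P ⊆ B ∧ B.card ≤ 4 * P.card ∧ ∃ h : ℕ, 1 ≤ h ∧ h * K ≤ p ∧
    ∀ ℓ ∈ P, (ℓ : ZMod p) ^ h = 1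

lemma Sm.anti {B : Finset ℕ} {K K' p : ℕ} (h : Sm B K p) (hK : K' ≤ K) : Sm B K' p := by
  obtain ⟨h1, P, h2, h3, g, h4, h5, h6⟩ := h
  exact ⟨h1, P, h2, h3, g, h4, (Nat.mul_le_mul_left _ hK).trans h5, h6⟩

open Classical in
/-- pairs of congruent elements -/
noncomputable def Pairs (S : Finset ℕ) (p : ℕ) : Finset (ℕ × ℕ) :=
  (S ×ˢ S).filter (fun w => (w.1 : ZMod p) = (w.2 : ZMod p))

lemma prods_mono {P B : Finset ℕ} (h : P ⊆ B) (u : ℕ) : prods P u ⊆ prods B u := by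
  unfold prods
  exact image_subset_image (powersetCard_mono h)

lemma pairs_low {B P : Finset ℕ} (hBp : ∀ p ∈ B, p.Prime) (hPB : P ⊆ B) {p h u : ℕ}
    (hp : p.Prime) (hh : 1 ≤ h) (hP : ∀ ℓ ∈ P, (ℓ : ZMod p) ^ h = 1) :
    (P.card.choose u) ^ 2 ≤ h * (Pairs (prods B u) p).card := by
  classical
  have : Fact p.Prime := ⟨hp⟩
  obtain ⟨SP, hSP⟩ : ∃ SP, SP = prods P u := ⟨_, rfl⟩
  have hcard : SP.card = P.card.choose u := by
    rw [hSP]; exact card_prods (fun q hq => hBp q (hPB hq)) u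
  obtain ⟨U, hU⟩ : ∃ U : Finset (ZMod p), U = (Polynomial.nthRoots h (1 : ZMod p)).toFinset :=
    ⟨_, rfl⟩
  have hUc : U.card ≤ h := by
    rw [hU]
    exact (Multiset.toFinset_card_le _).trans (Polynomial.card_nthRoots h 1)
  have hmem : ∀ s ∈ SP, (s : ZMod p) ∈ U := by
    intro s hs
    rw [hU, Multiset.mem_toFinset, Polynomial.mem_nthRoots (by omega)]
    rw [hSP, prods, mem_image] at hs
    obtain ⟨T, hT, rfl⟩ := hs
    rw [mem_powersetCard] at hT
    push_cast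
    rw [← prod_pow]
    exact prod_eq_one fun ℓ hℓ => hP ℓ (hT.1 hℓ)
  have h1 : SP.card = ∑ z ∈ U, (SP.filter (fun s : ℕ => (s : ZMod p) = z)).card :=
    card_eq_sum_card_fiberwise hmem
  have h2 : (∑ z ∈ U, (SP.filter (fun s : ℕ => (s : ZMod p) = z)).card) ^ 2 ≤
      U.card * ∑ z ∈ U, (SP.filter (fun s : ℕ => (s : ZMod p) = z)).card ^ 2 :=
    sq_sum_le_card_mul_sum_sq
  have h3 : ∑ z ∈ U, (SP.filter (fun s : ℕ => (s : ZMod p) = z)).card ^ 2 ≤
      (Pairs SP p).card := by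
    have g1 : (Pairs SP p).card = ∑ z ∈ U, ((Pairs SP p).filter
        (fun w => (w.1 : ZMod p) = z)).card := by
      apply card_eq_sum_card_fiberwise
      intro w hw
      rw [mem_coe, Pairs, mem_filter, mem_product] at hw
      exact hmem _ hw.1.1
    rw [g1]
    apply sum_le_sum
    intro z _
    rw [sq, ← card_product]
    apply card_le_card
    intro w hw
    rw [mem_product, mem_filter, mem_filter] at hw
    rw [mem_filter, Pairs, mem_filter, mem_product]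
    exact ⟨⟨⟨hw.1.1, hw.2.1⟩, by rw [hw.1.2, hw.2.2]⟩, hw.1.2⟩
  have h4 : (Pairs SP p).card ≤ (Pairs (prods B u) p).card := by
    apply card_le_card
    intro w hw
    rw [Pairs, mem_filter, mem_product] at hw ⊢
    have := prods_mono hPB u
    rw [hSP] at hw
    exact ⟨⟨this hw.1.1, this hw.1.2⟩, hw.2⟩
  rw [← hcard]
  calc SP.card ^ 2 = (∑ z ∈ U, (SP.filter (fun s : ℕ => (s : ZMod p) = z)).card) ^ 2 := by rw [← h1]
    _ ≤ U.card * ∑ z ∈ U, (SP.filter (fun s : ℕ => (s : ZMod p) = z)).card ^ 2 := h2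
    _ ≤ h * (Pairs (prods B u) p).card := Nat.mul_le_mul hUc (h3.trans h4)

lemma card_pf {m T : ℕ} (hm : m ≠ 0) (hT : m ≤ 2 ^ T) : m.primeFactors.card ≤ T := by
  have h1 : 2 ^ m.primeFactors.card ≤ m := by
    calc 2 ^ m.primeFactors.card = ∏ _p ∈ m.primeFactors, 2 := by rw [prod_const]
      _ ≤ ∏ p ∈ m.primeFactors, p :=
          prod_le_prod' fun p hp => (Nat.prime_of_mem_primeFactors hp).two_le
      _ ≤ m := Nat.le_of_dvd (Nat.pos_of_ne_zero hm) (Nat.prod_primeFactors_dvd m)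
  exact (Nat.pow_le_pow_iff_right (by norm_num)).mp (h1.trans hT)

lemma pairs_up (Q S : Finset ℕ) (hQ : ∀ p ∈ Q, p.Prime) {T : ℕ} (hS : ∀ s ∈ S, s ≤ 2 ^ T) :
    ∑ p ∈ Q, (Pairs S p).card ≤ Q.card * S.card + T * S.card ^ 2 := by
  classical
  have h1 : ∑ p ∈ Q, (Pairs S p).card =
      ∑ w ∈ S ×ˢ S, (Q.filter (fun p : ℕ => (w.1 : ZMod p) = (w.2 : ZMod p))).card := by
    have e : ∀ p ∈ Q, (Pairs S p).card =
        ∑ w ∈ S ×ˢ S, if (w.1 : ZMod p) = (w.2 : ZMod p) then 1 else 0 := by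
      intro p _
      rw [Pairs, card_filter]
    rw [sum_congr rfl e, sum_comm]
    apply sum_congr rfl
    intro w _
    rw [card_filter]
  rw [h1]
  have h2 : ∀ w ∈ S ×ˢ S, (Q.filter (fun p : ℕ => (w.1 : ZMod p) = (w.2 : ZMod p))).card ≤
      (if w.1 = w.2 then Q.card else 0) + T := by
    intro w hw
    rw [mem_product] at hw
    split_ifs with h
    · exact (card_filter_le _ _).trans (by omega)
    · rw [zero_add]
      obtain ⟨m, hm⟩ : ∃ m, m = (w.1 - w.2) + (w.2 - w.1) := ⟨_, rfl⟩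
      have hm0 : m ≠ 0 := by omega
      have a1 := hS _ hw.1
      have a2 := hS _ hw.2
      have hmT : m ≤ 2 ^ T := by omega
      refine le_trans (card_le_card ?_) (card_pf hm0 hmT)
      intro p hp
      rw [mem_filter] at hp
      rw [Nat.mem_primeFactors]
      refine ⟨hQ p hp.1, ?_, hm0⟩
      have h3 := hp.2
      rw [ZMod.natCast_eq_natCast_iff] at h3
      rcases le_total w.1 w.2 with h4 | h4
      · have : m = w.2 - w.1 := by omega
        rw [this]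
        exact (Nat.modEq_iff_dvd' h4).mp h3
      · have : m = w.1 - w.2 := by omega
        rw [this]
        exact (Nat.modEq_iff_dvd' h4).mp h3.symm
  refine (sum_le_sum h2).trans (le_of_eq ?_)
  rw [sum_add_distrib, sum_const, card_product, smul_eq_mul]
  have h3 : ∑ w ∈ S ×ˢ S, (if w.1 = w.2 then Q.card else 0) = Q.card * S.card := by
    rw [sum_product]
    have : ∀ s ∈ S, ∑ s' ∈ S, (if ((s, s') : ℕ × ℕ).1 = ((s, s') : ℕ × ℕ).2 then Q.card else 0) =
        Q.card := by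
      intro s hs
      show ∑ s' ∈ S, (if s = s' then Q.card else 0) = Q.card
      rw [sum_ite_eq, if_pos hs]
    rw [sum_congr rfl this, sum_const, smul_eq_mul, mul_comm]
  rw [h3]
  ring

open Classical in
theorem lgs_finite (B : Finset ℕ) (hBp : ∀ p ∈ B, p.Prime) {y u X K T : ℕ}
    (hBy : ∀ p ∈ B, p ≤ y) (hK : 1 ≤ K) (hT : y ^ u ≤ 2 ^ T) (hu : 8 * u ≤ B.card)
    (hZ : 2 * 64 ^ u * X ≤ B.card.choose u) :
    ((Icc 1 X).filter (Sm B K)).card * K ≤ 2 * 64 ^ u * X * T := by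
  obtain ⟨Q, hQ⟩ : ∃ Q, Q = (Icc 1 X).filter (Sm B K) := ⟨_, rfl⟩
  rw [← hQ]
  obtain ⟨Z, hZZ⟩ : ∃ Z, Z = B.card.choose u := ⟨_, rfl⟩
  obtain ⟨S, hS⟩ : ∃ S, S = prods B u := ⟨_, rfl⟩
  have hSc : S.card = Z := by rw [hS, hZZ]; exact card_prods hBp u
  have hQm : ∀ p ∈ Q, p ≤ X ∧ Sm B K p := by
    intro p hp
    rw [hQ, mem_filter, mem_Icc] at hp
    exact ⟨hp.1.2, hp.2⟩
  have hZ0 : 0 < Z := by
    rw [hZZ]; exact Nat.choose_pos (by omega)
  have h1 : ∀ p ∈ Q, Z ^ 2 * K ≤ 64 ^ u * X * (Pairs S p).card := by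
    intro p hp
    obtain ⟨hpX, hpp, P, hPB, hPc, h, hh, hhK, hP⟩ := hQm p hp
    have g1 := pairs_low hBp hPB (u := u) hpp hh hP
    rw [← hS] at g1
    have g2 : 2 * u ≤ P.card := by omega
    have g3 := choose_low_pow g2
    have g4 : (Z : ℝ) ≤ (B.card : ℝ) ^ u / u.factorial := by
      rw [hZZ]; exact Nat.choose_le_pow_div u B.card
    have g5 : (B.card : ℝ) ^ u / u.factorial ≤ 8 ^ u * (((P.card : ℝ) / 2) ^ u / u.factorial) := by
      rw [← mul_div_assoc, ← mul_pow]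
      apply div_le_div_of_nonneg_right _ (by positivity)
      apply pow_le_pow_left₀ (by positivity)
      have : (B.card : ℝ) ≤ 4 * P.card := by exact_mod_cast hPc
      linarith
    have g6 : (Z : ℝ) ≤ 8 ^ u * (P.card.choose u : ℝ) :=
      g4.trans (g5.trans (mul_le_mul_of_nonneg_left g3 (by positivity)))
    have g7 : Z ≤ 8 ^ u * P.card.choose u := by exact_mod_cast g6
    calc Z ^ 2 * K ≤ (8 ^ u * P.card.choose u) ^ 2 * K :=
          Nat.mul_le_mul_right _ (Nat.pow_le_pow_left g7 2)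
      _ = 64 ^ u * (P.card.choose u ^ 2 * K) := by
          rw [mul_pow, ← pow_mul, mul_comm u 2, pow_mul]; norm_num; ring
      _ ≤ 64 ^ u * (h * (Pairs S p).card * K) :=
          Nat.mul_le_mul_left _ (Nat.mul_le_mul_right _ g1)
      _ = 64 ^ u * (h * K * (Pairs S p).card) := by ring
      _ ≤ 64 ^ u * (X * (Pairs S p).card) :=
          Nat.mul_le_mul_left _ (Nat.mul_le_mul_right _ (hhK.trans hpX))
      _ = _ := by ring
  have h2 : Q.card * (Z ^ 2 * K) ≤ 64 ^ u * X * (Q.card * Z + T * Z ^ 2) := by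
    calc Q.card * (Z ^ 2 * K) = ∑ _p ∈ Q, Z ^ 2 * K := by rw [sum_const, smul_eq_mul]
      _ ≤ ∑ p ∈ Q, 64 ^ u * X * (Pairs S p).card := sum_le_sum h1
      _ = 64 ^ u * X * ∑ p ∈ Q, (Pairs S p).card := by rw [mul_sum]
      _ ≤ 64 ^ u * X * (Q.card * S.card + T * S.card ^ 2) := by
          apply Nat.mul_le_mul_left
          apply pairs_up Q S (fun p hp => (hQm p hp).2.1)
          intro s hs
          obtain ⟨_, g4, _⟩ := prods_spec hBp hBy (hS ▸ hs)
          exact g4.trans hT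
      _ = _ := by rw [hSc]
  have h3 : Z * (Q.card * (Z * K)) ≤ Z * (64 ^ u * X * Q.card + 64 ^ u * X * T * Z) := by
    calc Z * (Q.card * (Z * K)) = Q.card * (Z ^ 2 * K) := by ring
      _ ≤ 64 ^ u * X * (Q.card * Z + T * Z ^ 2) := h2
      _ = _ := by ring
  have h4 := Nat.le_of_mul_le_mul_left h3 hZ0
  rw [← hZZ] at hZ
  have h5 : 2 * (64 ^ u * X * Q.card) ≤ Q.card * (Z * K) := by
    calc 2 * (64 ^ u * X * Q.card) = (2 * 64 ^ u * X) * Q.card := by ring
      _ ≤ Z * Q.card := Nat.mul_le_mul_right _ hZ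
      _ = Q.card * (Z * 1) := by ring
      _ ≤ Q.card * (Z * K) := Nat.mul_le_mul_left _ (Nat.mul_le_mul_left _ hK)
  have h6 : Z * (Q.card * K) ≤ Z * (2 * 64 ^ u * X * T) := by
    have e1 : Z * (Q.card * K) = Q.card * (Z * K) := by ring
    have e2 : Z * (2 * 64 ^ u * X * T) = 2 * (64 ^ u * X * T * Z) := by ring
    rw [e1, e2]
    omega
  exact Nat.le_of_mul_le_mul_left h6 hZ0

end Pool.Agent.TH725.TS
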