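import Pool.Agent.TH725.TS.Lgs

set_option autoImplicit false

/-! The larger sieve, asymptotic form. -/

namespace Pool.Agent.TH725.TS

open Finset Real Pool.Agent.W57.SW

open Classical in
theorem lgs (A θ η : ℝ) (hθ : 2 ≤ θ) (hθA : θ ≤ A) (hη : 0 < η) :
    ∃ L0 : ℝ, 3 ≤ L0 ∧ ∀ L : ℝ, L0 ≤ L → ∀ B : Finset ℕ, (∀ p ∈ B, p.Prime) →
      (∀ p ∈ B, p ≤ yb A L) → L ^ θ ≤ (B.card : ℝ) * (log L) ^ (3 / 2 : ℝ) →
      ∀ K : ℕ, 1 ≤ K → ∀ X : ℕ, 1 ≤ X → log X ≤ L →
      (((Icc 1 X).filter (Sm B K)).card : ℝ) * K ≤ exp (η * L) * X := by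
  have hA1 : 1 ≤ A := by linarith
  obtain ⟨L1, hL1⟩ := ev_log 512 (1 / 2) (3 / 2) (by norm_num)
  have hev2 : ∀ᶠ L : ℝ in Filter.atTop, 8 * log 64 / η ≤ log L :=
    tendsto_log_atTop.eventually (Filter.eventually_ge_atTop _)
  obtain ⟨L2, hL2⟩ := Filter.eventually_atTop.mp hev2
  have hev3 : ∀ᶠ L : ℝ in Filter.atTop, 18 * (1 + A) * L ≤ exp (η / 2 * L) := by
    have h := (isLittleO_rpow_exp_pos_mul_atTop 1 (show 0 < η / 2 by positivity)).def
      (show (0 : ℝ) < 1 / (18 * (1 + A)) by positivity)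
    filter_upwards [h, Filter.eventually_ge_atTop 0] with L h1 h2
    rw [rpow_one, norm_of_nonneg h2, norm_of_nonneg (exp_pos _).le, div_mul_eq_mul_div, one_mul,
      le_div_iff₀ (by positivity)] at h1
    linarith
  obtain ⟨L3, hL3⟩ := Filter.eventually_atTop.mp hev3
  refine ⟨max 3 (max L1 (max L2 L3)), le_max_left _ _, ?_⟩
  intro L hL B hBp hBy hB K hK X hX hXL
  have c0 : 3 ≤ L := (le_max_left _ _).trans hL
  have c1 : L1 ≤ L := (le_max_left _ _).trans ((le_max_right _ _).trans hL)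
  have c2 : L2 ≤ L :=
    (le_max_left _ _).trans ((le_max_right _ _).trans ((le_max_right _ _).trans hL))
  have c3 : L3 ≤ L :=
    (le_max_right _ _).trans ((le_max_right _ _).trans ((le_max_right _ _).trans hL))
  have hL0 : 0 < L := by linarith
  have hlL : 1 ≤ log L := by
    rw [le_log_iff_exp_le hL0]; linarith [exp_one_lt_d9]
  have hlL0 : 0 < log L := by linarith
  have hlLL : log L ≤ L := (log_le_sub_one_of_pos hL0).trans (by linarith)
  obtain ⟨u, hu⟩ : ∃ u, u = ⌈3 * L / log L⌉₊ := ⟨_, rfl⟩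
  have u1 : 3 * L ≤ u * log L := by
    have : 3 * L / log L ≤ u := by rw [hu]; exact Nat.le_ceil _
    rwa [div_le_iff₀ hlL0] at this
  have u2 : (u : ℝ) * log L ≤ 4 * L := by
    have h1 : (u : ℝ) < 3 * L / log L + 1 := by rw [hu]; exact Nat.ceil_lt_add_one (by positivity)
    have h2 : (u : ℝ) * log L ≤ (3 * L / log L + 1) * log L :=
      mul_le_mul_of_nonneg_right h1.le hlL0.le
    have h3 : (3 * L / log L + 1) * log L = 3 * L + log L := by field_simp
    linarith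
  have u3 : (u : ℝ) ≤ 4 * L := by
    have h0 : (0 : ℝ) ≤ u := Nat.cast_nonneg u
    have : (u : ℝ) * 1 ≤ u * log L := mul_le_mul_of_nonneg_left hlL h0
    linarith
  have u0 : 0 < u := by
    have : (0 : ℝ) < u := by
      by_contra h
      push Not at h
      have : (u : ℝ) * log L ≤ 0 := mul_nonpos_of_nonpos_of_nonneg h hlL0.le
      linarith
    exact_mod_cast this
  have hu0 : (0 : ℝ) < u := by exact_mod_cast u0
  obtain ⟨N, hN⟩ : ∃ N, N = B.card := ⟨_, rfl⟩
  rw [← hN] at hB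
  have hlp : 0 < (log L) ^ (3 / 2 : ℝ) := by positivity
  have hNbig : 128 * u * L ^ (1 / 2 : ℝ) ≤ (N : ℝ) := by
    have h1 := hL1 L c1
    have h2 : L ^ (2 : ℝ) ≤ L ^ θ := rpow_le_rpow_of_exponent_le (by linarith) hθ
    have h3 : L ^ (2 : ℝ) = L * L ^ (1 / 2 : ℝ) * L ^ (1 / 2 : ℝ) := by
      nth_rewrite 2 [← rpow_one L]
      rw [← rpow_add hL0, ← rpow_add hL0]; norm_num
    have h4 : 128 * u * L ^ (1 / 2 : ℝ) * (log L) ^ (3 / 2 : ℝ) ≤ N * (log L) ^ (3 / 2 : ℝ) := by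
      calc 128 * u * L ^ (1 / 2 : ℝ) * (log L) ^ (3 / 2 : ℝ) ≤
          128 * (4 * L) * L ^ (1 / 2 : ℝ) * (log L) ^ (3 / 2 : ℝ) := by gcongr
        _ = L * L ^ (1 / 2 : ℝ) * (512 * (log L) ^ (3 / 2 : ℝ)) := by ring
        _ ≤ L * L ^ (1 / 2 : ℝ) * L ^ (1 / 2 : ℝ) := mul_le_mul_of_nonneg_left h1 (by positivity)
        _ = L ^ (2 : ℝ) := h3.symm
        _ ≤ L ^ θ := h2
        _ ≤ _ := hB
    exact le_of_mul_le_mul_right h4 hlp
  have hLh : 1 ≤ L ^ (1 / 2 : ℝ) := one_le_rpow (by linarith) (by norm_num)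
  have h8u : 8 * u ≤ N := by
    have : (8 : ℝ) * u ≤ N := by nlinarith
    exact_mod_cast this
  have hZ : 2 * 64 ^ u * X ≤ N.choose u := by
    have h1 := choose_low_pow (show 2 * u ≤ N by omega)
    have hf : (0 : ℝ) < (u.factorial : ℝ) := by positivity
    have h2 : (u.factorial : ℝ) ≤ (u : ℝ) ^ u := by exact_mod_cast Nat.factorial_le_pow u
    have h3 : ((N : ℝ) / 2) ^ u / (u : ℝ) ^ u ≤ ((N : ℝ) / 2) ^ u / u.factorial :=
      div_le_div_of_nonneg_left (by positivity) hf h2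
    have h4 : (64 * L ^ (1 / 2 : ℝ)) ^ u ≤ ((N : ℝ) / 2) ^ u / (u : ℝ) ^ u := by
      rw [← div_pow]
      apply pow_le_pow_left₀ (by positivity)
      rw [le_div_iff₀ hu0]
      linarith
    have h5 : 2 * (X : ℝ) ≤ (L ^ (1 / 2 : ℝ)) ^ u := by
      have e1 : (L ^ (1 / 2 : ℝ)) ^ u = exp (1 / 2 * (u * log L)) := by
        rw [← rpow_natCast, ← rpow_mul hL0.le, rpow_def_of_pos hL0]
        congr 1; ring
      have hX0 : (0 : ℝ) < X := by exact_mod_cast hX
      have e2 : (X : ℝ) ≤ exp L := by rw [← exp_log hX0]; exact exp_le_exp.mpr hXL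
      have e3 : 2 ≤ exp (L / 2) := by
        have := add_one_le_exp (L / 2)
        linarith
      rw [e1]
      calc 2 * (X : ℝ) ≤ exp (L / 2) * exp L := by
            apply mul_le_mul e3 e2 (by positivity) (by positivity)
        _ = exp (L / 2 + L) := by rw [exp_add]
        _ ≤ _ := exp_le_exp.mpr (by linarith)
    have h6 : (2 * 64 ^ u * X : ℝ) ≤ (N.choose u : ℝ) := by
      calc (2 * 64 ^ u * X : ℝ) = 64 ^ u * (2 * X) := by ring
        _ ≤ 64 ^ u * (L ^ (1 / 2 : ℝ)) ^ u := mul_le_mul_of_nonneg_left h5 (by positivity)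
        _ = (64 * L ^ (1 / 2 : ℝ)) ^ u := by rw [mul_pow]
        _ ≤ _ := h4.trans (h3.trans h1)
    exact_mod_cast h6
  obtain ⟨T, hT⟩ : ∃ T, T = ⌈8 * (1 + A) * L⌉₊ := ⟨_, rfl⟩
  have hT1 : 8 * (1 + A) * L ≤ T := by rw [hT]; exact Nat.le_ceil _
  have hT2 : (T : ℝ) ≤ 9 * (1 + A) * L := by
    have : (T : ℝ) < 8 * (1 + A) * L + 1 := by rw [hT]; exact Nat.ceil_lt_add_one (by positivity)
    nlinarith
  obtain ⟨y1, _, _, _, _, y6⟩ := yb_facts hA1 c0
  have hyT : (yb A L) ^ u ≤ 2 ^ T := by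
    have hy0 : (0 : ℝ) < yb A L := by exact_mod_cast (by omega : 0 < yb A L)
    have e1 : log (((yb A L : ℕ) : ℝ) ^ u) ≤ log ((2 : ℝ) ^ T) := by
      rw [log_pow, log_pow]
      have g1 : (u : ℝ) * log (yb A L) ≤ u * (log 2 + A * log L) :=
        mul_le_mul_of_nonneg_left y6 hu0.le
      have g2 : log 2 ≤ log L := log_le_log (by norm_num) (by linarith)
      have g3 : (u : ℝ) * (log 2 + A * log L) ≤ u * ((1 + A) * log L) := by
        apply mul_le_mul_of_nonneg_left _ hu0.le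
        linarith
      have g4 : (u : ℝ) * ((1 + A) * log L) = (1 + A) * (u * log L) := by ring
      have g5 : (1 + A) * (u * log L) ≤ (1 + A) * (4 * L) :=
        mul_le_mul_of_nonneg_left u2 (by linarith)
      have g6 := log_two_gt_d9
      have g7 : (8 * (1 + A) * L) * (1 / 2) ≤ T * log 2 :=
        mul_le_mul hT1 (by linarith) (by norm_num) (Nat.cast_nonneg T)
      linarith
    have e2 := (log_le_log_iff (by positivity) (by positivity)).mp e1
    exact_mod_cast e2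
  have hmain := lgs_finite B hBp (X := X) hBy hK hyT (by rw [← hN]; exact h8u)
    (by rw [← hN]; exact hZ)
  have hmainr : (((Icc 1 X).filter (Sm B K)).card : ℝ) * K ≤ 2 * 64 ^ u * X * T := by
    exact_mod_cast hmain
  refine hmainr.trans ?_
  have f1 : (64 : ℝ) ^ u ≤ exp (η / 2 * L) := by
    have e1 : (64 : ℝ) ^ u = exp (u * log 64) := by
      rw [← rpow_natCast, rpow_def_of_pos (by norm_num)]
      congr 1; ring
    rw [e1]
    apply exp_le_exp.mpr
    have g1 := hL2 L c2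
    rw [div_le_iff₀ hη] at g1
    have g2 : 0 < log (64 : ℝ) := log_pos (by norm_num)
    have g3 : u * (8 * log 64) ≤ u * (log L * η) := mul_le_mul_of_nonneg_left g1 hu0.le
    have g4 : (u * log L) * η ≤ (4 * L) * η := mul_le_mul_of_nonneg_right u2 hη.le
    linarith
  have f2 : 2 * (T : ℝ) ≤ exp (η / 2 * L) := by
    have := hL3 L c3
    linarith
  calc (2 * 64 ^ u * X * T : ℝ) = (64 ^ u * (2 * T)) * X := by ring
    _ ≤ (exp (η / 2 * L) * exp (η / 2 * L)) * X := by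
        apply mul_le_mul_of_nonneg_right _ (Nat.cast_nonneg X)
        exact mul_le_mul f1 f2 (by positivity) (by positivity)
    _ = exp (η * L) * X := by
        rw [← exp_add]; congr 2; ring

end Pool.Agent.TH725.TS
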