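import Pool.Agent.TH725.TS.Ex
import Pool.Agent.W57.SW.Count

set_option autoImplicit false

/-! Structure of the numbers with many liars in a given set of primes. -/

namespace Pool.Agent.TH725.TS

open Finset Real Pool.Agent.W57.SW Pool.Agent.H379R2.W

/-- all liars have symbol one modulo `k`, or modulo `k` divided by a prime -/
lemma struct {n k : ℕ} (hn2 : 2 ≤ n) (hksq : Squarefree k) (hkodd : Odd k) (hkn : k ∣ n)
    {P : Finset ℕ} (hP : ∀ ℓ ∈ P, Passes n ℓ) :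
    (∀ ℓ ∈ P, jacobiSym (ℓ : ℤ) k = 1) ∨
      ∃ p m : ℕ, p.Prime ∧ k = p * m ∧ ∀ ℓ ∈ P, jacobiSym (ℓ : ℤ) m = 1 := by
  have hk0 : k ≠ 0 := hksq.ne_zero
  rcases eq_or_ne k 1 with rfl | hk1
  · left
    intro ℓ _
    simp
  have hne : k.primeFactors.Nonempty := Nat.nonempty_primeFactors.mpr (by omega)
  obtain ⟨p, hp, hpmin⟩ := exists_min_image k.primeFactors v2 hne
  have hfac : ∀ q ∈ k.primeFactors, q.Prime ∧ q ∣ n ∧ q ≠ 2 := by
    intro q hq
    rw [Nat.mem_primeFactors] at hq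
    refine ⟨hq.1, hq.2.1.trans hkn, ?_⟩
    rintro rfl
    rw [← Nat.not_even_iff_odd, even_iff_two_dvd] at hkodd
    exact hkodd hq.2.1
  obtain ⟨hpp, hpn, hp2⟩ := hfac p hp
  obtain ⟨m, hm⟩ := (Nat.mem_primeFactors.mp hp).2.1
  have hm0 : m ≠ 0 := by intro h; rw [h, mul_zero] at hm; omega
  have hmk : m ∣ k := ⟨p, by rw [hm, mul_comm]⟩
  have hmsq : Squarefree m := hksq.squarefree_of_dvd hmk
  obtain ⟨s, hs⟩ : ∃ s, s = (m.primeFactors.filter (fun q => v2 q = v2 p)).card := ⟨_, rfl⟩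
  have hJm : ∀ ℓ ∈ P, jacobiSym (ℓ : ℤ) m = jacobiSym (ℓ : ℤ) p ^ s := by
    intro ℓ hℓ
    have e1 : ∏ q ∈ m.primeFactors, q = m := Nat.prod_primeFactors_of_squarefree hmsq
    conv_lhs => rw [← e1]
    rw [jacobi_prod _ _ (fun q hq => (Nat.prime_of_mem_primeFactors hq).ne_zero)]
    have e2 : ∀ q ∈ m.primeFactors, jacobiSym (ℓ : ℤ) q =
        if v2 q = v2 p then jacobiSym (ℓ : ℤ) p else 1 := by
      intro q hq
      rw [Nat.mem_primeFactors] at hq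
      have hqk : q ∈ k.primeFactors :=
        Nat.mem_primeFactors.mpr ⟨hq.1, hq.2.1.trans hmk, hk0⟩
      obtain ⟨a1, a2, a4⟩ := hfac q hqk
      have hmin := hpmin q hqk
      split_ifs with h
      · exact same_symbol (hP ℓ hℓ) a1 hpp a4 hp2 a2 hpn h
      · exact symbol_one (hP ℓ hℓ) a1 hpp a4 hp2 a2 hpn (by omega)
    rw [prod_congr rfl e2, ← prod_filter, prod_const, hs]
  have hpm : ∀ ℓ ∈ P, jacobiSym (ℓ : ℤ) p = 1 ∨ jacobiSym (ℓ : ℤ) p = -1 := by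
    intro ℓ hℓ
    have h1 := not_dvd_of_passes hn2 hpp hpn (hP ℓ hℓ)
    have hco : Nat.Coprime ℓ p := ((Nat.Prime.coprime_iff_not_dvd hpp).mpr h1).symm
    have : NeZero p := ⟨hpp.ne_zero⟩
    rcases jacobiSym.trichotomy (ℓ : ℤ) p with h | h | h
    · exfalso
      rw [jacobiSym.eq_zero_iff_not_coprime, Int.gcd_natCast_natCast] at h
      exact h hco
    · exact Or.inl h
    · exact Or.inr h
  rcases Nat.even_or_odd s with hev | hod
  · right
    refine ⟨p, m, hpp, hm, fun ℓ hℓ => ?_⟩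
    rw [hJm ℓ hℓ]
    rcases hpm ℓ hℓ with e | e
    · rw [e]; simp
    · rw [e]; exact hev.neg_one_pow
  · left
    intro ℓ hℓ
    have : NeZero p := ⟨hpp.ne_zero⟩
    have : NeZero m := ⟨hm0⟩
    rw [hm, jacobiSym.mul_right, hJm ℓ hℓ]
    rcases hpm ℓ hℓ with e | e
    · rw [e]; simp
    · rw [e, hod.neg_one_pow]; norm_num

/-- liars modulo the square of a divisor -/
lemma liars_sq_gen {n d : ℕ} (hn2 : 2 ≤ n) (hd : 1 ≤ d) (hdn : d ^ 2 ∣ n) : liars n (d ^ 2) ≤ d := by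
  have hn : n - 1 ≠ 0 := by omega
  have hdvd : d ∣ d ^ 2 := dvd_pow_self d two_ne_zero
  have hne : NeZero (d ^ 2) := ⟨by positivity⟩
  have hne' : NeZero d := ⟨by omega⟩
  have hz : ∀ z : ZMod (d ^ 2), z ^ (n - 1) = 1 → z ^ n = z := by
    intro z hz
    calc z ^ n = z ^ ((n - 1) + 1) := by congr 1; omega
      _ = z ^ (n - 1) * z := pow_succ _ _
      _ = z := by rw [hz, one_mul]
  have hinj : Function.Injective (fun z : {z : ZMod (d ^ 2) // z ^ (n - 1) = 1} =>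
      (ZMod.castHom hdvd (ZMod d) z.1)) := by
    intro z w hzw
    apply Subtype.ext
    have h3 : (d : ZMod (d ^ 2)) ∣ z.1 - w.1 := by
      have h4 : ZMod.castHom hdvd (ZMod d) (z.1 - w.1) = 0 := by
        rw [map_sub, sub_eq_zero]; exact hzw
      obtain ⟨a, ha⟩ := ZMod.natCast_zmod_surjective (z.1 - w.1)
      rw [← ha] at h4 ⊢
      rw [map_natCast, ZMod.natCast_eq_zero_iff] at h4
      obtain ⟨c, hc⟩ := h4
      rw [hc]
      push_cast
      exact dvd_mul_right _ _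
    have h5 := dvd_sub_pow_of_dvd_sub h3 1
    rw [pow_one] at h5
    have h6 : ((d : ZMod (d ^ 2)) ^ (1 + 1)) = 0 := by
      have := ZMod.natCast_self (d ^ 2)
      push_cast at this
      exact this
    rw [h6, zero_dvd_iff, sub_eq_zero] at h5
    obtain ⟨r, hr⟩ : d ∣ n := hdvd.trans hdn
    have h7 : ∀ v : ZMod (d ^ 2), v ^ n = (v ^ d) ^ r := fun v => by rw [← pow_mul, ← hr]
    calc z.1 = z.1 ^ n := (hz z.1 z.2).symm
      _ = (z.1 ^ d) ^ r := h7 _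
      _ = (w.1 ^ d) ^ r := by rw [h5]
      _ = w.1 ^ n := (h7 _).symm
      _ = w.1 := hz w.1 w.2
  have h1 := Nat.card_le_card_of_injective _ hinj
  unfold liars
  refine h1.trans (le_of_eq ?_)
  rw [Nat.card_eq_fintype_card, ZMod.card]

/-- every number is a square times an odd squarefree number times `1` or `2` -/
lemma decomp {n : ℕ} (hn : 1 ≤ n) : ∃ d c k : ℕ, n = d ^ 2 * c * k ∧ (c = 1 ∨ c = 2) ∧ Odd k ∧
    Squarefree k ∧ 1 ≤ d := by
  obtain ⟨a, b, hab, hsq⟩ := Nat.sq_mul_squarefree n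
  have hb : 1 ≤ b := by
    rcases Nat.eq_zero_or_pos b with h | h
    · rw [h] at hab; simp at hab; omega
    · exact h
  rcases Nat.even_or_odd a with h | h
  · obtain ⟨k, hk⟩ := even_iff_two_dvd.mp h
    refine ⟨b, 2, k, by rw [← hab, hk]; ring, Or.inr rfl, ?_, hsq.squarefree_of_dvd ⟨2, by rw [hk, mul_comm]⟩, hb⟩
    rw [← Nat.not_even_iff_odd, even_iff_two_dvd]
    intro h2
    obtain ⟨j, hj⟩ := h2
    have h4 : 2 * 2 ∣ a := ⟨j, by rw [hk, hj]; ring⟩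
    have := hsq 2 h4
    rw [Nat.isUnit_iff] at this
    omega
  · exact ⟨b, 1, a, by rw [← hab]; ring, Or.inl rfl, h, hsq, hb⟩

/-- `n` is composite and passes the strong test for the elements of a subset `P` of `B` with
`|B| + S ≤ 2 |P|` -/
def BadS (B : Finset ℕ) (S n : ℕ) : Prop :=
  2 ≤ n ∧ ¬ n.Prime ∧ ∃ P : Finset ℕ, P ⊆ B ∧ (∀ ℓ ∈ P, Passes n ℓ) ∧ B.card + S ≤ 2 * P.card

lemma mem_Ex_of {B P : Finset ℕ} {S X k : ℕ} (hPB : P ⊆ B) (hP : B.card + S ≤ 2 * P.card)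
    (hk1 : 1 ≤ k) (hkX : k ≤ X) (hkodd : Odd k) (hksq : Squarefree k)
    (h : ∀ ℓ ∈ P, jacobiSym (ℓ : ℤ) k = 1) : k ∈ Ex B S X := by
  classical
  rw [mem_Ex]
  refine ⟨⟨hk1, hkX⟩, hkodd, hksq, ?_⟩
  have h1 : P.card ≤ (B.filter fun ℓ : ℕ => jacobiSym (ℓ : ℤ) k = 1).card :=
    card_le_card fun ℓ hℓ => mem_filter.mpr ⟨hPB hℓ, h ℓ hℓ⟩
  have h2 : (B.filter fun ℓ : ℕ => jacobiSym (ℓ : ℤ) k = -1).card +
      (B.filter fun ℓ : ℕ => jacobiSym (ℓ : ℤ) k = 1).card ≤ B.card := by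
    rw [← card_union_of_disjoint]
    · exact card_le_card (union_subset (filter_subset _ _) (filter_subset _ _))
    · rw [disjoint_filter]
      intro ℓ _ a b
      rw [a] at b
      norm_num at b
  omega

end Pool.Agent.TH725.TS
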